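import Pool.Agent.H85.ML.BWin

/-!
# The number of cops for local trees of bounded blocks
-/

set_option autoImplicit false

namespace Pool.Agent.H85.ML

open Finset

section
variable {V β : Type} {B : β → Finset V} {τ b : ℕ} {C : Fin τ → SimpleGraph V} {R : SimpleGraph V}
  {h : ℕ} {par : Fin τ → V → V} {dep : Fin τ → V → ℕ} {K : Fin τ → V → Prop} {Prot : V → Prop}

theorem block_linear (L : ℕ) (hL : 1 ≤ L)
    (hg : ∀ (u : V ⊕ β) (c : (inc B).Walk u u), c.IsCycle → 4 * L < c.length) {x y : V} {e e' : β}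
    (hxy : x ≠ y) (h1 : x ∈ B e) (h2 : y ∈ B e) (h3 : x ∈ B e') (h4 : y ∈ B e') : e = e' := by
  have h5 := valid_unique L hg (v := x) (p := [(y, e)]) (q := [(y, e')])
    ⟨trivial, h2, h1, hxy.symm, by simp⟩ ⟨trivial, h4, h3, hxy.symm, by simp⟩ rfl hL hL
  simpa using h5

theorem card_breach [Fintype V] [DecidableEq V] {Δ : ℕ} (hb : ∀ e, (B e).card ≤ b)
    (hlin : ∀ {x y : V} {e e' : β}, x ≠ y → x ∈ B e → y ∈ B e → x ∈ B e' → y ∈ B e' → e = e')
    (hΔ : ∀ x, ¬ Prot x → ∀ S : Finset V, (∀ y ∈ S, R.Adj y x) → S.card ≤ Δ) (v : V)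
    (hv : ¬ Prot v) : ∀ n : ℕ, ∃ S : Finset V, S.card ≤ (Δ * b + 1) ^ n ∧
      ∀ p : List (V × β), Valid B v p → FreeP R B h par K Prot v p → p.length ≤ n →
        pos v p ∈ S := by
  classical
  intro n
  induction n with
  | zero =>
    refine ⟨{v}, by simp, fun p _ _ hp => ?_⟩
    cases p with
    | nil => simp [pos]
    | cons _ _ => simp at hp
  | succ n ih =>
    obtain ⟨S, hS1, hS2⟩ := ih
    let blk : V → V → Finset V := fun y y' =>
      if hy : ∃ e, y ∈ B e ∧ y' ∈ B e then B (Classical.choose hy) else ∅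
    have hblk : ∀ y y', (blk y y').card ≤ b := by
      intro y y'
      simp only [blk]
      split_ifs with hy
      · exact hb _
      · simp
    refine ⟨S ∪ S.biUnion (fun y => if Prot y then ∅ else
      (univ.filter fun y' => R.Adj y' y).biUnion (blk y)), ?_, ?_⟩
    · have h1 : (S.biUnion (fun y => if Prot y then ∅ else
          (univ.filter fun y' => R.Adj y' y).biUnion (blk y))).card ≤ S.card * (Δ * b) := by
        refine Finset.card_biUnion_le_card_mul _ _ _ fun y _ => ?_
        split_ifs with hy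
        · simp
        · refine (Finset.card_biUnion_le_card_mul _ _ b fun y' _ => hblk y y').trans ?_
          exact Nat.mul_le_mul_right _ (hΔ y hy _ (by simp))
      calc (S ∪ S.biUnion (fun y => if Prot y then ∅ else
          (univ.filter fun y' => R.Adj y' y).biUnion (blk y))).card
          ≤ S.card + S.card * (Δ * b) := (Finset.card_union_le _ _).trans (Nat.add_le_add_left h1 _)
        _ = (Δ * b + 1) * S.card := by ring
        _ ≤ (Δ * b + 1) * (Δ * b + 1) ^ n := Nat.mul_le_mul_left _ hS1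
        _ = (Δ * b + 1) ^ (n + 1) := by ring
    · intro p hp1 hp2 hp
      cases p with
      | nil => exact Finset.mem_union_left _ (hS2 [] trivial trivial (by simp))
      | cons a p =>
        obtain ⟨x, e⟩ := a
        simp only [List.length_cons] at hp
        have h2 := hS2 p hp1.1 hp2.1 (by omega)
        have hy : ¬ Prot (pos v p) := by
          cases p with
          | nil => exact hv
          | cons a p => exact hp2.1.2.1
        obtain ⟨y', hy1, hy2⟩ := hp2.2.2.1
        refine Finset.mem_union_right _ (Finset.mem_biUnion.2 ⟨pos v p, h2, ?_⟩)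
        rw [if_neg hy]
        refine Finset.mem_biUnion.2 ⟨y', by simpa using hy2.symm, ?_⟩
        have hex : ∃ e, pos v p ∈ B e ∧ y' ∈ B e := ⟨e, hp1.2.2.1, hy1⟩
        have h3 := Classical.choose_spec hex
        have h4 : Classical.choose hex = e := hlin hy2.ne h3.1 h3.2 hp1.2.2.1 hy1
        simp only [blk, dif_pos hex, h4]
        exact hp1.2.1

theorem exists_breserve [Fintype V] [Nonempty V] {Δ M : ℕ} (hτ : 0 < τ)
    (hR : BRoots C B h par dep K) (hh : 1 ≤ h) (hb : ∀ e, (B e).card ≤ b)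
    (hlin : ∀ {x y : V} {e e' : β}, x ≠ y → x ∈ B e → y ∈ B e → x ∈ B e' → y ∈ B e' → e = e')
    (hΔ : ∀ x, ¬ Prot x → ∀ S : Finset V, (∀ y ∈ S, R.Adj y x) → S.card ≤ Δ)
    (hM : (Δ * b + 1) ^ (2 * h) ≤ M) (v : V) (hv : ¬ Prot v) :
    ∃ f : Fin M → V, ∀ p : List (V × β), Valid B v p → FreeP R B h par K Prot v p →
      ∃ r, f r = pos v p := by
  classical
  obtain ⟨S, hS1, hS2⟩ := card_breach (h := h) (par := par) (K := K) (R := R) hb hlin hΔ v hv (2 * h)
  refine ⟨fun r => if hr : r.val < S.card then (S.equivFin.symm ⟨r.val, hr⟩ : V) else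
    Classical.arbitrary V, fun p hp1 hp2 => ?_⟩
  have h1 := freeP_short hR hh ⟨0, hτ⟩ hp2
  have h2 := hS2 p hp1 hp2 (by omega)
  refine ⟨⟨(S.equivFin ⟨pos v p, h2⟩).val, ?_⟩, ?_⟩
  · exact lt_of_lt_of_le (S.equivFin ⟨pos v p, h2⟩).isLt (hS1.trans hM)
  · simp

end

theorem exists_labels {V β : Type} (B : β → Finset V) (b : ℕ) (hb1 : 1 ≤ b)
    (hb : ∀ e, (B e).card ≤ b) : ∃ lab : β → V → Fin b,
      ∀ e x y, x ∈ B e → y ∈ B e → lab e x = lab e y → x = y := by
  classical
  have key : ∀ e, ∃ f : V → Fin b, ∀ x y, x ∈ B e → y ∈ B e → f x = f y → x = y := by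
    intro e
    refine ⟨fun x => if hx : x ∈ B e then ⟨((B e).equivFin ⟨x, hx⟩).val,
      lt_of_lt_of_le ((B e).equivFin ⟨x, hx⟩).isLt (hb e)⟩ else ⟨0, by omega⟩, ?_⟩
    intro x y hx hy hxy
    simp only [dif_pos hx, dif_pos hy, Fin.mk.injEq] at hxy
    have h1 := (B e).equivFin.injective (Fin.ext hxy)
    exact congrArg Subtype.val h1
  choose lab hlab using key
  exact ⟨lab, hlab⟩

/-- the number of cops for given layers -/
theorem bwin_bound {V β : Type} [Fintype V] [DecidableEq V] {τ : ℕ} (hτ : 0 < τ)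
    (C : Fin τ → SimpleGraph V) (hconn : ∀ i, (C i).Connected) (h m s b : ℕ) (hh : 1 ≤ h)
    (hb1 : 1 ≤ b) (F : Finset (Sym2 V)) (B : β → Finset V) (hb : ∀ e, (B e).card ≤ b)
    (hcov : ∀ x y, ((⨆ i, C i).deleteEdges F).Adj x y → ∃ e, x ∈ B e ∧ y ∈ B e)
    (hg : ∀ (u : V ⊕ β) (c : (inc B).Walk u u), c.IsCycle → 4 * (3 * h) < c.length) :
    ∃ N u : ℕ, u * (Fintype.card V + s * m) ≤ τ * (Fintype.card V * Fintype.card V) ∧
      N ≤ τ * (Fintype.card V / h + 1 + 2 * F.card) * b + (2 * F.card + u + τ * s) +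
        (τ * m * b + 1) ^ (2 * h) ∧ MultiWin C (⨆ i, C i) N := by
  classical
  have hne : Nonempty V := (hconn ⟨0, hτ⟩).nonempty
  obtain ⟨lab, hlab⟩ := exists_labels B b hb1 hb
  set R : SimpleGraph V := ⨆ i, C i with hRdef
  set B0 : Finset V := F.biUnion fun e => e.toFinset with hB0
  have hB0card : B0.card ≤ 2 * F.card := by
    rw [mul_comm]
    refine Finset.card_biUnion_le_card_mul _ _ _ fun e _ => ?_
    rw [Sym2.card_toFinset]
    split_ifs <;> omega
  have hB0adj : ∀ x y, R.Adj x y → x ∉ B0 → ∃ e, x ∈ B e ∧ y ∈ B e := by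
    intro x y hxy hx
    refine hcov x y ?_
    rw [SimpleGraph.deleteEdges_adj]
    refine ⟨hxy, fun hF => hx ?_⟩
    rw [hB0, Finset.mem_biUnion]
    exact ⟨s(x, y), by simpa using hF, by rw [Sym2.mem_toFinset]; exact Sym2.mem_mk_left x y⟩
  have hCR : ∀ i, C i ≤ R := fun i => le_iSup C i
  let r : V := Classical.arbitrary V
  have hpar : ∀ (i : Fin τ) (x : V), ∃ y, (C i).dist x r ≠ 0 →
      (C i).Adj y x ∧ (C i).dist x r = (C i).dist y r + 1 := by
    intro i x
    by_cases hx : (C i).dist x r = 0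
    · exact ⟨x, fun h => absurd hx h⟩
    · obtain ⟨y, hy⟩ := exists_parent (hconn i) r x hx
      exact ⟨y, fun _ => hy⟩
  choose par hpar using hpar
  have hres : ∀ i : Fin τ, ∃ c < h, h * (univ.filter fun x => (C i).dist x r % h = c).card ≤
      Fintype.card V := fun i => exists_residue h hh _
  choose c hc1 hc2 using hres
  set K : Fin τ → V → Prop := fun i x => (C i).dist x r % h = c i ∨ (C i).dist x r = 0 ∨ x ∈ B0
    with hK
  have hroots : BRoots C B h par (fun i x => (C i).dist x r) K := by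
    refine ⟨?_, ?_, ?_, ?_⟩
    · intro i x hx
      exact (hpar i x fun h0 => hx (Or.inr (Or.inl h0))).1
    · intro i x hx
      have h1 := (hpar i x fun h0 => hx (Or.inr (Or.inl h0))).1
      exact hB0adj x _ (hCR i h1.symm) fun h0 => hx (Or.inr (Or.inr h0))
    · intro i x hx
      exact (hpar i x fun h0 => hx (Or.inr (Or.inl h0))).2
    · intro i c0
      obtain ⟨j, hj, hj'⟩ := residue_hit h c0 (c i) (hc1 i)
      exact ⟨j, hj, fun x hx => Or.inl (by rw [hx]; exact hj')⟩
  have hKcard : Nat.card {p : Fin τ × V // K p.1 p.2} ≤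
      τ * (Fintype.card V / h + 1 + 2 * F.card) := by
    rw [Nat.card_eq_fintype_card, Fintype.card_subtype]
    have h1 : (univ.filter fun p : Fin τ × V => K p.1 p.2) ⊆
        (univ : Finset (Fin τ)).biUnion fun i => (univ.filter fun x => K i x).image (Prod.mk i) := by
      rintro ⟨i, x⟩ hx
      simp only [mem_filter, mem_univ, true_and] at hx
      simp only [mem_biUnion, mem_univ, true_and, mem_image, mem_filter]
      exact ⟨i, x, hx, rfl⟩
    refine (Finset.card_le_card h1).trans ?_
    have h2 : ∀ i ∈ (univ : Finset (Fin τ)),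
        ((univ.filter fun x => K i x).image (Prod.mk i)).card ≤
          Fintype.card V / h + 1 + 2 * F.card := by
      intro i _
      refine Finset.card_image_le.trans ?_
      have h3 : (univ.filter fun x => K i x) ⊆
          ((univ.filter fun x => (C i).dist x r % h = c i) ∪ {r}) ∪ B0 := by
        intro x hx
        simp only [mem_filter, mem_univ, true_and, hK] at hx
        simp only [mem_union, mem_filter, mem_univ, true_and, mem_singleton]
        rcases hx with hx | hx | hx
        · exact Or.inl (Or.inl hx)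
        · exact Or.inl (Or.inr ((hconn i).dist_eq_zero_iff.1 hx))
        · exact Or.inr hx
      have h4 := Finset.card_le_card h3
      have h5 := Finset.card_union_le ((univ.filter fun x => (C i).dist x r % h = c i) ∪ {r}) B0
      have h6 := Finset.card_union_le (univ.filter fun x => (C i).dist x r % h = c i) {r}
      have h7 : (univ.filter fun x => (C i).dist x r % h = c i).card ≤ Fintype.card V / h :=
        (Nat.le_div_iff_mul_le (by omega)).2 (by rw [mul_comm]; exact hc2 i)
      rw [Finset.card_singleton] at h6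
      omega
    have h3 := Finset.card_biUnion_le_card_mul _ _ _ h2
    simpa using h3
  have hhit : ∀ i : Fin τ, ∃ H : Finset V, H.card ≤ s ∧
      ((univ.filter fun x => m ≤ (univ.filter fun y => (C i).Adj y x).card).filter fun x =>
        Disjoint (univ.filter fun y => (C i).Adj y x) H).card * (Fintype.card V + s * m) ≤
        Fintype.card V * Fintype.card V := by
    intro i
    obtain ⟨H, h1, h2⟩ := hitting
      (univ.filter fun x => m ≤ (univ.filter fun y => (C i).Adj y x).card)
      (fun x => univ.filter fun y => (C i).Adj y x) m (fun x hx => (mem_filter.1 hx).2) s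
    exact ⟨H, h1, h2.trans (Nat.mul_le_mul_left _ (Finset.card_le_univ _))⟩
  choose Hit hHit1 hHit2 using hhit
  set Un : Fin τ → Finset V := fun i =>
    (univ.filter fun x => m ≤ (univ.filter fun y => (C i).Adj y x).card).filter fun x =>
        Disjoint (univ.filter fun y => (C i).Adj y x) (Hit i) with hUn
  set P : Fin τ × V → Prop := fun p =>
    (p.1 = ⟨0, hτ⟩ ∧ (p.2 ∈ B0 ∨ ∃ i, p.2 ∈ Un i)) ∨ p.2 ∈ Hit p.1 with hP
  have hPcard : Nat.card {p : Fin τ × V // P p} ≤ 2 * F.card + (∑ i, (Un i).card) + τ * s := by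
    rw [Nat.card_eq_fintype_card, Fintype.card_subtype]
    have h1 : (univ.filter fun p : Fin τ × V => P p) ⊆
        ((B0 ∪ (univ : Finset (Fin τ)).biUnion Un).image (Prod.mk ⟨0, hτ⟩)) ∪
        (univ : Finset (Fin τ)).biUnion fun i => (Hit i).image (Prod.mk i) := by
      rintro ⟨i, x⟩ hx
      simp only [mem_filter, mem_univ, true_and, hP] at hx
      simp only [mem_union, mem_biUnion, mem_univ, true_and, mem_image]
      rcases hx with ⟨h1, h2⟩ | h2
      · left
        exact ⟨x, h2, by rw [h1]⟩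
      · right
        exact ⟨i, x, h2, rfl⟩
    refine (Finset.card_le_card h1).trans ((Finset.card_union_le _ _).trans ?_)
    have h2 : ((B0 ∪ (univ : Finset (Fin τ)).biUnion Un).image (Prod.mk (⟨0, hτ⟩ : Fin τ))).card ≤
        2 * F.card + ∑ i, (Un i).card :=
      Finset.card_image_le.trans ((Finset.card_union_le _ _).trans
        (Nat.add_le_add hB0card Finset.card_biUnion_le))
    have h3 : ((univ : Finset (Fin τ)).biUnion fun i => (Hit i).image (Prod.mk i)).card ≤ τ * s := by
      have := Finset.card_biUnion_le_card_mul (univ : Finset (Fin τ))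
        (fun i => (Hit i).image (Prod.mk i)) s
        (fun i _ => Finset.card_image_le.trans (hHit1 i))
      simpa using this
    omega
  set Prot : V → Prop := fun x => ∃ p, P p ∧ Step (C p.1) p.2 x with hProt
  have hB : ∀ x y, R.Adj x y → ¬ Prot x → ∃ e, x ∈ B e ∧ y ∈ B e := by
    intro x y hxy hx
    refine hB0adj x y hxy fun h0 => hx ?_
    exact ⟨(⟨0, hτ⟩, x), Or.inl ⟨rfl, Or.inl h0⟩, Or.inl rfl⟩
  have hlow : ∀ x, ¬ Prot x → ∀ i, (univ.filter fun y => (C i).Adj y x).card ≤ m := by
    intro x hx i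
    by_contra hcon
    push Not at hcon
    by_cases hd : Disjoint (univ.filter fun y => (C i).Adj y x) (Hit i)
    · exact hx ⟨(⟨0, hτ⟩, x), Or.inl ⟨rfl, Or.inr ⟨i, by
        simp only [hUn, mem_filter, mem_univ, true_and]
        exact ⟨hcon.le, hd⟩⟩⟩, Or.inl rfl⟩
    · rw [Finset.not_disjoint_iff] at hd
      obtain ⟨y, hy1, hy2⟩ := hd
      exact hx ⟨(i, y), Or.inr hy2, Or.inr (by simpa using hy1)⟩
  have hΔ : ∀ x, ¬ Prot x → ∀ S : Finset V, (∀ y ∈ S, R.Adj y x) → S.card ≤ τ * m := by
    intro x hx S hS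
    have h1 : S ⊆ (univ : Finset (Fin τ)).biUnion fun i => univ.filter fun y => (C i).Adj y x := by
      intro y hy
      have h3 := hS y hy
      rw [hRdef, SimpleGraph.iSup_adj] at h3
      obtain ⟨i, hi⟩ := h3
      simp only [mem_biUnion, mem_univ, true_and, mem_filter]
      exact ⟨i, hi⟩
    have h2 := Finset.card_biUnion_le_card_mul (univ : Finset (Fin τ))
      (fun i => univ.filter fun y => (C i).Adj y x) m (fun i _ => hlow x hx i)
    refine (Finset.card_le_card h1).trans (h2.trans ?_)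
    simp
  refine ⟨_, ∑ i, (Un i).card, ?_, ?_, bcore_win (Prot := Prot) (R := R) hτ hroots hh hconn lab
    hlab hg P (fun x => Iff.rfl) hB ((τ * m * b + 1) ^ (2 * h)) fun v hv =>
      exists_breserve hτ hroots hh hb
        (fun hxy h1 h2 h3 h4 => block_linear (3 * h) (by omega) hg hxy h1 h2 h3 h4) hΔ le_rfl v hv⟩
  · rw [Finset.sum_mul]
    refine (Finset.sum_le_sum fun i _ => hHit2 i).trans ?_
    simp
  · have := Nat.mul_le_mul_right b hKcard
    omega

/-- the explicit bound -/
theorem bcMax_mul_le {β : Type} {τ q n b : ℕ} (hτ : 1 ≤ τ) (hq : 1 ≤ q) (hb1 : 1 ≤ b)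
    (hn : q ^ 2 ≤ n) (G : SimpleGraph (Fin n)) (F : Finset (Sym2 (Fin n)))
    (B : β → Finset (Fin n)) (hb : ∀ e, (B e).card ≤ b)
    (hcov : ∀ x y, (G.deleteEdges F).Adj x y → ∃ e, x ∈ B e ∧ y ∈ B e)
    (hg : ∀ (u : Fin n ⊕ β) (c : (inc B).Walk u u), c.IsCycle → 12 * q < c.length) :
    q * cMax τ G ≤ (b + 2) * τ * n + q * (b * τ + 2 * (b * τ + 1) * F.card +
      (τ * q ^ 2 * b + 1) ^ (2 * q)) := by
  set D := (b + 2) * τ * n + q * (b * τ + 2 * (b * τ + 1) * F.card +
      (τ * q ^ 2 * b + 1) ^ (2 * q)) with hD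
  have hn0 : 0 < n := lt_of_lt_of_le (by positivity) hn
  have key : ∀ m ∈ {m | ∃ C : Fin τ → SimpleGraph (Fin n), Admissible C G ∧
      m = multiCopNumber C G}, m ≤ D / q := by
    rintro m ⟨C, ⟨hC, rfl⟩, rfl⟩
    obtain ⟨N, u, h1, h2, h3⟩ := bwin_bound (by omega) C hC q (q ^ 2) (n / q) b hq hb1 F B hb hcov
      (fun x c hc => by have := hg x c hc; omega)
    have h4 : multiCopNumber C (⨆ i, C i) ≤ N := Nat.sInf_le h3
    rw [Fintype.card_fin] at h1 h2
    rw [Nat.le_div_iff_mul_le (by omega)]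
    have h5 : q * (n / q) ≤ n := Nat.mul_div_le n q
    have h6 : n < q * (n / q) + q := by
      have := Nat.lt_mul_div_succ n (show 0 < q by omega)
      rw [mul_add, mul_one] at this
      exact this
    have h7 : n * q ≤ n + n / q * q ^ 2 := by nlinarith
    have h8 : q * u ≤ τ * n := by
      have h9 : n * (q * u) ≤ n * (τ * n) := by
        calc n * (q * u) = u * (n * q) := by ring
          _ ≤ u * (n + n / q * q ^ 2) := Nat.mul_le_mul_left _ h7
          _ ≤ τ * (n * n) := h1
          _ = n * (τ * n) := by ring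
      exact Nat.le_of_mul_le_mul_left h9 hn0
    calc multiCopNumber C (⨆ i, C i) * q ≤ N * q := Nat.mul_le_mul_right _ h4
      _ ≤ (τ * (n / q + 1 + 2 * F.card) * b + (2 * F.card + u + τ * (n / q)) +
        (τ * q ^ 2 * b + 1) ^ (2 * q)) * q := Nat.mul_le_mul_right _ h2
      _ = (b * τ) * (q * (n / q)) + q * u + τ * (q * (n / q)) +
        q * (b * τ + 2 * (b * τ + 1) * F.card + (τ * q ^ 2 * b + 1) ^ (2 * q)) := by ring
      _ ≤ (b * τ) * n + τ * n + τ * n +
        q * (b * τ + 2 * (b * τ + 1) * F.card + (τ * q ^ 2 * b + 1) ^ (2 * q)) := by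
          have e1 := Nat.mul_le_mul_left τ h5
          have e2 := Nat.mul_le_mul_left (b * τ) h5
          omega
      _ = D := by rw [hD]; ring
  have h1 : cMax τ G ≤ D / q := by
    unfold cMax
    rcases Set.eq_empty_or_nonempty {m | ∃ C : Fin τ → SimpleGraph (Fin n), Admissible C G ∧
      m = multiCopNumber C G} with h | h
    · rw [h]; simp
    · exact csSup_le h key
  rw [Nat.le_div_iff_mul_le (by omega)] at h1
  linarith

end Pool.Agent.H85.ML
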