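import Pool.Agent.H85.ML.Win

/-!
# Graphs with few short cycles
-/

set_option autoImplicit false

namespace Pool.Agent.H85.ML

open Finset

/-- greedy hitting sets -/
theorem hitting {V : Type} [Fintype V] [DecidableEq V] (X : Finset V) (S : V → Finset V) (m : ℕ)
    (hS : ∀ x ∈ X, m ≤ (S x).card) (s : ℕ) : ∃ B : Finset V, B.card ≤ s ∧
      (X.filter fun x => Disjoint (S x) B).card * (Fintype.card V + s * m) ≤
        Fintype.card V * X.card := by
  induction s with
  | zero =>
    refine ⟨∅, by simp, ?_⟩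
    simp [mul_comm]
  | succ s ih =>
    obtain ⟨B, hB1, hB2⟩ := ih
    set U := X.filter fun x => Disjoint (S x) B with hU
    by_cases hn : Fintype.card V = 0
    · refine ⟨B, by omega, ?_⟩
      have hX : X = ∅ := by
        rw [← Finset.card_eq_zero]
        have := Finset.card_le_univ X
        omega
      subst hX
      simp
    have hn' : 0 < Fintype.card V := Nat.pos_of_ne_zero hn
    obtain ⟨p, hp⟩ : ∃ p, m * U.card ≤ Fintype.card V * (U.filter fun x => p ∈ S x).card := by
      by_contra hcon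
      push Not at hcon
      have h1 : ∑ p : V, Fintype.card V * (U.filter fun x => p ∈ S x).card <
          ∑ _p : V, m * U.card := by
        refine Finset.sum_lt_sum_of_nonempty ?_ (fun p _ => hcon p)
        rw [← Finset.card_pos]
        simpa using hn'
      rw [Finset.sum_const, Finset.card_univ, smul_eq_mul, ← Finset.mul_sum] at h1
      have h2 := Nat.lt_of_mul_lt_mul_left h1
      have h3 : ∑ p : V, (U.filter fun x => p ∈ S x).card = ∑ x ∈ U, (S x).card := by
        simp only [Finset.card_filter]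
        rw [Finset.sum_comm]
        refine Finset.sum_congr rfl fun x _ => ?_
        rw [← Finset.card_filter]
        congr 1
        ext p
        simp
      rw [h3] at h2
      have h4 : ∑ _x ∈ U, m ≤ ∑ x ∈ U, (S x).card :=
        Finset.sum_le_sum fun x hx => hS x (Finset.mem_of_mem_filter x hx)
      rw [Finset.sum_const, smul_eq_mul, mul_comm] at h4
      omega
    refine ⟨insert p B, (Finset.card_insert_le _ _).trans (by omega), ?_⟩
    have hU' : (X.filter fun x => Disjoint (S x) (insert p B)) = U.filter fun x => p ∉ S x := by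
      ext x
      simp only [hU, Finset.mem_filter, Finset.disjoint_insert_right]
      tauto
    rw [hU']
    have h5 : (U.filter fun x => p ∈ S x).card + (U.filter fun x => p ∉ S x).card = U.card :=
      Finset.card_filter_add_card_filter_not _
    set u := U.card
    set u' := (U.filter fun x => p ∉ S x).card
    set n := Fintype.card V
    have h6 : n * u' + m * u ≤ n * u := by nlinarith
    have h7 : (n * u') * (n + (s + 1) * m) ≤ n * (n * X.card) := by
      zify at h6 hB2 ⊢
      have h8 : (n : ℤ) * u' * (n + (s + 1) * m) ≤ (n * u - m * u) * (n + (s + 1) * m) :=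
        mul_le_mul_of_nonneg_right (by linarith) (by positivity)
      have h9 : ((n : ℤ) * u - m * u) * (n + (s + 1) * m) ≤ n * (u * (n + s * m)) := by
        have e : (n : ℤ) * (u * (n + s * m)) - (n * u - m * u) * (n + (s + 1) * m) =
          u * (m * m) * (s + 1) := by ring
        have : (0 : ℤ) ≤ u * (m * m) * (s + 1) := by positivity
        linarith
      have h10 : (n : ℤ) * (u * (n + s * m)) ≤ n * (n * X.card) :=
        mul_le_mul_of_nonneg_left hB2 (by positivity)
      linarith
    rw [mul_assoc] at h7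
    exact Nat.le_of_mul_le_mul_left h7 hn'

/-- parents towards the root -/
theorem exists_parent {V : Type} {C : SimpleGraph V} (hC : C.Connected) (r x : V)
    (hx : C.dist x r ≠ 0) : ∃ y, C.Adj y x ∧ C.dist x r = C.dist y r + 1 := by
  obtain ⟨p, hp⟩ := hC.exists_walk_length_eq_dist x r
  cases p with
  | nil => rw [SimpleGraph.Walk.length_nil] at hp; exact absurd hp.symm hx
  | cons h q =>
    rename_i y
    refine ⟨y, h.symm, ?_⟩
    rw [SimpleGraph.Walk.length_cons] at hp
    have h1 := SimpleGraph.dist_le q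
    obtain ⟨p', hp'⟩ := hC.exists_walk_length_eq_dist y r
    have h2 := SimpleGraph.dist_le (SimpleGraph.Walk.cons h p')
    rw [SimpleGraph.Walk.length_cons] at h2
    omega

theorem exists_residue {V : Type} [Fintype V] (h : ℕ) (hh : 1 ≤ h) (f : V → ℕ) :
    ∃ c < h, h * (univ.filter fun x => f x % h = c).card ≤ Fintype.card V := by
  classical
  by_contra hcon
  push Not at hcon
  have h1 : ∑ _c ∈ range h, Fintype.card V <
      ∑ c ∈ range h, h * (univ.filter fun x => f x % h = c).card := by
    refine Finset.sum_lt_sum_of_nonempty ⟨0, Finset.mem_range.2 (by omega)⟩ fun c hc =>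
      hcon c (Finset.mem_range.1 hc)
  rw [← Finset.mul_sum, Finset.sum_const, Finset.card_range, smul_eq_mul] at h1
  have h2 : (univ : Finset V).card = ∑ c ∈ range h, (univ.filter fun x => f x % h = c).card :=
    Finset.card_eq_sum_card_fiberwise fun x _ => by
      simpa using Nat.mod_lt _ (by omega)
  rw [← h2, Finset.card_univ] at h1
  exact lt_irrefl _ h1

theorem residue_hit (h c0 c : ℕ) (hc : c < h) : ∃ j < h, (c0 + j) % h = c := by
  have h1 := Nat.mod_lt c0 (show 0 < h by omega)
  have h2 := Nat.div_add_mod c0 h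
  by_cases hle : c0 % h ≤ c
  · refine ⟨c - c0 % h, by omega, ?_⟩
    have : c0 + (c - c0 % h) = h * (c0 / h) + c := by omega
    rw [this, Nat.mul_add_mod, Nat.mod_eq_of_lt hc]
  · refine ⟨c + h - c0 % h, by omega, ?_⟩
    have : c0 + (c + h - c0 % h) = h * (c0 / h + 1) + c := by
      rw [mul_add]; omega
    rw [this, Nat.mul_add_mod, Nat.mod_eq_of_lt hc]

/-- the number of cops for given layers -/
theorem win_bound {V : Type} [Fintype V] [DecidableEq V] {τ : ℕ} (hτ : 0 < τ)
    (C : Fin τ → SimpleGraph V) (hconn : ∀ i, (C i).Connected) (h m s : ℕ) (hh : 1 ≤ h)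
    (F : Finset (Sym2 V))
    (hg : ∀ (x : V) (c : ((⨆ i, C i).deleteEdges F).Walk x x), c.IsCycle →
      2 * (3 * h) < c.length) :
    ∃ N u : ℕ, u * (Fintype.card V + s * m) ≤ τ * (Fintype.card V * Fintype.card V) ∧
      ((∀ (i : Fin τ) (x : V) (S : Finset V), (∀ y ∈ S, (C i).Adj y x) → S.card < m) → u = 0) ∧
      N ≤ τ * (Fintype.card V / h + 1 + 2 * F.card) + (2 * F.card + u + τ * s) +
        (τ * m + 1) ^ (2 * h) ∧ MultiWin C (⨆ i, C i) N := by
  classical
  have hne : Nonempty V := (hconn ⟨0, hτ⟩).nonempty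
  set R : SimpleGraph V := ⨆ i, C i with hRdef
  set G : SimpleGraph V := R.deleteEdges F with hG
  set B0 : Finset V := F.biUnion fun e => e.toFinset with hB0
  have hB0card : B0.card ≤ 2 * F.card := by
    rw [mul_comm]
    refine Finset.card_biUnion_le_card_mul _ _ _ fun e _ => ?_
    rw [Sym2.card_toFinset]
    split_ifs <;> omega
  have hB0adj : ∀ x y, R.Adj x y → x ∉ B0 → G.Adj x y := by
    intro x y hxy hx
    rw [hG, SimpleGraph.deleteEdges_adj]
    refine ⟨hxy, fun hF => hx ?_⟩
    rw [hB0, Finset.mem_biUnion]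
    exact ⟨s(x, y), by simpa using hF, by rw [Sym2.mem_toFinset]; exact Sym2.mem_mk_left x y⟩
  have hCR : ∀ i, C i ≤ R := fun i => le_iSup C i
  -- roots, parents, bases
  let r : V := Classical.arbitrary V
  have hpar : ∀ (i : Fin τ) (x : V), ∃ y, (C i).dist x r ≠ 0 →
      (C i).Adj y x ∧ (C i).dist x r = (C i).dist y r + 1 := by
    intro i x
    by_cases hx : (C i).dist x r = 0
    · exact ⟨x, fun h => absurd hx h⟩
    · obtain ⟨y, hy⟩ := exists_parent (hconn i) r x hx
      exact ⟨y, fun _ => hy⟩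
  choose par hpar using hpar
  have hres : ∀ i : Fin τ, ∃ c < h, h * (univ.filter fun x => (C i).dist x r % h = c).card ≤
      Fintype.card V := fun i => exists_residue h hh _
  choose c hc1 hc2 using hres
  set K : Fin τ → V → Prop := fun i x => (C i).dist x r % h = c i ∨ (C i).dist x r = 0 ∨ x ∈ B0
    with hK
  have hroots : Roots C G h par (fun i x => (C i).dist x r) K := by
    refine ⟨?_, ?_, ?_, ?_⟩
    · intro i x hx
      exact (hpar i x fun h0 => hx (Or.inr (Or.inl h0))).1
    · intro i x hx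
      have h1 := (hpar i x fun h0 => hx (Or.inr (Or.inl h0))).1
      exact (hB0adj x _ (hCR i h1.symm) fun h0 => hx (Or.inr (Or.inr h0))).symm
    · intro i x hx
      exact (hpar i x fun h0 => hx (Or.inr (Or.inl h0))).2
    · intro i f c0 hf
      obtain ⟨j, hj, hj'⟩ := residue_hit h c0 (c i) (hc1 i)
      exact ⟨j, hj, Or.inl (by rw [hf j hj]; exact hj')⟩
  have hKcard : Nat.card {p : Fin τ × V // K p.1 p.2} ≤
      τ * (Fintype.card V / h + 1 + 2 * F.card) := by
    rw [Nat.card_eq_fintype_card, Fintype.card_subtype]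
    have h1 : (univ.filter fun p : Fin τ × V => K p.1 p.2) ⊆
        (univ : Finset (Fin τ)).biUnion fun i => (univ.filter fun x => K i x).image (Prod.mk i) := by
      rintro ⟨i, x⟩ hx
      simp only [mem_filter, mem_univ, true_and] at hx
      simp only [mem_biUnion, mem_univ, true_and, mem_image, mem_filter]
      exact ⟨i, x, hx, rfl⟩
    refine (Finset.card_le_card h1).trans ?_
    have h2 : ∀ i ∈ (univ : Finset (Fin τ)),
        ((univ.filter fun x => K i x).image (Prod.mk i)).card ≤
          Fintype.card V / h + 1 + 2 * F.card := by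
      intro i _
      refine Finset.card_image_le.trans ?_
      have h3 : (univ.filter fun x => K i x) ⊆
          ((univ.filter fun x => (C i).dist x r % h = c i) ∪ {r}) ∪ B0 := by
        intro x hx
        simp only [mem_filter, mem_univ, true_and, hK] at hx
        simp only [mem_union, mem_filter, mem_univ, true_and, mem_singleton]
        rcases hx with hx | hx | hx
        · exact Or.inl (Or.inl hx)
        · exact Or.inl (Or.inr ((hconn i).dist_eq_zero_iff.1 hx))
        · exact Or.inr hx
      have h4 := Finset.card_le_card h3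
      have h5 := Finset.card_union_le ((univ.filter fun x => (C i).dist x r % h = c i) ∪ {r}) B0
      have h6 := Finset.card_union_le (univ.filter fun x => (C i).dist x r % h = c i) {r}
      have h7 : (univ.filter fun x => (C i).dist x r % h = c i).card ≤ Fintype.card V / h :=
        (Nat.le_div_iff_mul_le (by omega)).2 (by rw [mul_comm]; exact hc2 i)
      rw [Finset.card_singleton] at h6
      omega
    have h3 := Finset.card_biUnion_le_card_mul _ _ _ h2
    simpa using h3
  -- hitting sets for the vertices of high degree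
  have hhit : ∀ i : Fin τ, ∃ B : Finset V, B.card ≤ s ∧
      ((univ.filter fun x => m ≤ (univ.filter fun y => (C i).Adj y x).card).filter fun x =>
        Disjoint (univ.filter fun y => (C i).Adj y x) B).card * (Fintype.card V + s * m) ≤
        Fintype.card V * Fintype.card V := by
    intro i
    obtain ⟨B, h1, h2⟩ := hitting
      (univ.filter fun x => m ≤ (univ.filter fun y => (C i).Adj y x).card)
      (fun x => univ.filter fun y => (C i).Adj y x) m (fun x hx => (mem_filter.1 hx).2) s
    exact ⟨B, h1, h2.trans (Nat.mul_le_mul_left _ (Finset.card_le_univ _))⟩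
  choose Hit hHit1 hHit2 using hhit
  set Un : Fin τ → Finset V := fun i =>
    (univ.filter fun x => m ≤ (univ.filter fun y => (C i).Adj y x).card).filter fun x =>
        Disjoint (univ.filter fun y => (C i).Adj y x) (Hit i) with hUn
  set P : Fin τ × V → Prop := fun p =>
    (p.1 = ⟨0, hτ⟩ ∧ (p.2 ∈ B0 ∨ ∃ i, p.2 ∈ Un i)) ∨ p.2 ∈ Hit p.1 with hP
  have hPcard : Nat.card {p : Fin τ × V // P p} ≤ 2 * F.card + (∑ i, (Un i).card) + τ * s := by
    rw [Nat.card_eq_fintype_card, Fintype.card_subtype]
    have h1 : (univ.filter fun p : Fin τ × V => P p) ⊆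
        ((B0 ∪ (univ : Finset (Fin τ)).biUnion Un).image (Prod.mk ⟨0, hτ⟩)) ∪
        (univ : Finset (Fin τ)).biUnion fun i => (Hit i).image (Prod.mk i) := by
      rintro ⟨i, x⟩ hx
      simp only [mem_filter, mem_univ, true_and, hP] at hx
      simp only [mem_union, mem_biUnion, mem_univ, true_and, mem_image]
      rcases hx with ⟨h1, h2⟩ | h2
      · left
        exact ⟨x, h2, by rw [h1]⟩
      · right
        exact ⟨i, x, h2, rfl⟩
    refine (Finset.card_le_card h1).trans ((Finset.card_union_le _ _).trans ?_)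
    have h2 : ((B0 ∪ (univ : Finset (Fin τ)).biUnion Un).image (Prod.mk (⟨0, hτ⟩ : Fin τ))).card ≤
        2 * F.card + ∑ i, (Un i).card :=
      Finset.card_image_le.trans ((Finset.card_union_le _ _).trans
        (Nat.add_le_add hB0card Finset.card_biUnion_le))
    have h3 : ((univ : Finset (Fin τ)).biUnion fun i => (Hit i).image (Prod.mk i)).card ≤ τ * s := by
      have := Finset.card_biUnion_le_card_mul (univ : Finset (Fin τ))
        (fun i => (Hit i).image (Prod.mk i)) s
        (fun i _ => Finset.card_image_le.trans (hHit1 i))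
      simpa using this
    omega
  set Prot : V → Prop := fun x => ∃ p, P p ∧ Step (C p.1) p.2 x with hProt
  have hB : ∀ x y, R.Adj x y → ¬ Prot x → G.Adj x y := by
    intro x y hxy hx
    refine hB0adj x y hxy fun h0 => hx ?_
    exact ⟨(⟨0, hτ⟩, x), Or.inl ⟨rfl, Or.inl h0⟩, Or.inl rfl⟩
  have hlow : ∀ x, ¬ Prot x → ∀ i, (univ.filter fun y => (C i).Adj y x).card ≤ m := by
    intro x hx i
    by_contra hcon
    push Not at hcon
    by_cases hd : Disjoint (univ.filter fun y => (C i).Adj y x) (Hit i)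
    · exact hx ⟨(⟨0, hτ⟩, x), Or.inl ⟨rfl, Or.inr ⟨i, by
        simp only [hUn, mem_filter, mem_univ, true_and]
        exact ⟨hcon.le, hd⟩⟩⟩, Or.inl rfl⟩
    · rw [Finset.not_disjoint_iff] at hd
      obtain ⟨y, hy1, hy2⟩ := hd
      exact hx ⟨(i, y), Or.inr hy2, Or.inr (by simpa using hy1)⟩
  have hΔ : ∀ x, ¬ Prot x → ∀ S : Finset V, (∀ y ∈ S, G.Adj y x) → S.card ≤ τ * m := by
    intro x hx S hS
    have h1 : S ⊆ (univ : Finset (Fin τ)).biUnion fun i => univ.filter fun y => (C i).Adj y x := by
      intro y hy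
      have h2 := hS y hy
      rw [hG, SimpleGraph.deleteEdges_adj] at h2
      have h3 := h2.1
      rw [hRdef, SimpleGraph.iSup_adj] at h3
      obtain ⟨i, hi⟩ := h3
      simp only [mem_biUnion, mem_univ, true_and, mem_filter]
      exact ⟨i, hi⟩
    have h2 := Finset.card_biUnion_le_card_mul (univ : Finset (Fin τ))
      (fun i => univ.filter fun y => (C i).Adj y x) m (fun i _ => hlow x hx i)
    refine (Finset.card_le_card h1).trans (h2.trans ?_)
    simp
  refine ⟨_, ∑ i, (Un i).card, ?_, ?_, ?_, core_win (Prot := Prot) (G := G) hτ hroots hh hconn hg P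
    (fun x => Iff.rfl) hB ((τ * m + 1) ^ (2 * h)) fun v hv =>
      exists_reserve hτ hroots hh hΔ le_rfl v hv⟩
  · rw [Finset.sum_mul]
    refine (Finset.sum_le_sum fun i _ => hHit2 i).trans ?_
    simp
  · intro hsmall
    refine Finset.sum_eq_zero fun i _ => ?_
    rw [Finset.card_eq_zero]
    refine Finset.eq_empty_of_forall_notMem fun x hx => ?_
    have h1 := (mem_filter.1 (mem_filter.1 hx).1).2
    have h2 := hsmall i x (univ.filter fun y => (C i).Adj y x) (by simp)
    omega
  · omega

/-- the explicit bound -/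
theorem cMax_mul_le {τ q n : ℕ} (hτ : 1 ≤ τ) (hq : 1 ≤ q) (hn : q ^ 2 ≤ n)
    (G : SimpleGraph (Fin n)) (F : Finset (Sym2 (Fin n)))
    (hg : ∀ (x : Fin n) (c : (G.deleteEdges F).Walk x x), c.IsCycle → 6 * q < c.length) :
    q * cMax τ G ≤ 3 * τ * n + q * (τ + 2 * (τ + 1) * F.card + (τ * q ^ 2 + 1) ^ (2 * q)) := by
  set B := 3 * τ * n + q * (τ + 2 * (τ + 1) * F.card + (τ * q ^ 2 + 1) ^ (2 * q)) with hB
  have hn0 : 0 < n := lt_of_lt_of_le (by positivity) hn
  have key : ∀ m ∈ {m | ∃ C : Fin τ → SimpleGraph (Fin n), Admissible C G ∧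
      m = multiCopNumber C G}, m ≤ B / q := by
    rintro m ⟨C, ⟨hC, rfl⟩, rfl⟩
    obtain ⟨N, u, h1, -, h2, h3⟩ := win_bound (by omega) C hC q (q ^ 2) (n / q) hq F
      (fun x c hc => by have := hg x c hc; omega)
    have h4 : multiCopNumber C (⨆ i, C i) ≤ N := Nat.sInf_le h3
    rw [Fintype.card_fin] at h1 h2
    rw [Nat.le_div_iff_mul_le (by omega)]
    have h5 : q * (n / q) ≤ n := Nat.mul_div_le n q
    have h6 : n < q * (n / q) + q := by
      have := Nat.lt_mul_div_succ n (show 0 < q by omega)
      rw [mul_add, mul_one] at this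
      exact this
    have h7 : n * q ≤ n + n / q * q ^ 2 := by nlinarith
    have h8 : q * u ≤ τ * n := by
      have h9 : n * (q * u) ≤ n * (τ * n) := by
        calc n * (q * u) = u * (n * q) := by ring
          _ ≤ u * (n + n / q * q ^ 2) := Nat.mul_le_mul_left _ h7
          _ ≤ τ * (n * n) := h1
          _ = n * (τ * n) := by ring
      exact Nat.le_of_mul_le_mul_left h9 hn0
    calc multiCopNumber C (⨆ i, C i) * q ≤ N * q := Nat.mul_le_mul_right _ h4
      _ ≤ (τ * (n / q + 1 + 2 * F.card) + (2 * F.card + u + τ * (n / q)) +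
        (τ * q ^ 2 + 1) ^ (2 * q)) * q := Nat.mul_le_mul_right _ h2
      _ = τ * (q * (n / q)) + q * u + τ * (q * (n / q)) +
        q * (τ + 2 * (τ + 1) * F.card + (τ * q ^ 2 + 1) ^ (2 * q)) := by ring
      _ ≤ τ * n + τ * n + τ * n +
        q * (τ + 2 * (τ + 1) * F.card + (τ * q ^ 2 + 1) ^ (2 * q)) := by
          have := Nat.mul_le_mul_left τ h5
          omega
      _ = B := by rw [hB]; ring
  have h1 : cMax τ G ≤ B / q := by
    unfold cMax
    rcases Set.eq_empty_or_nonempty {m | ∃ C : Fin τ → SimpleGraph (Fin n), Admissible C G ∧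
      m = multiCopNumber C G} with h | h
    · rw [h]; simp
    · exact csSup_le h key
  rw [Nat.le_div_iff_mul_le (by omega)] at h1
  linarith

/-- the explicit bound for graphs of bounded degree -/
theorem cMax_mul_le_of_degree {τ q n Δ : ℕ} (hτ : 1 ≤ τ) (hq : 1 ≤ q)
    (G : SimpleGraph (Fin n)) (F : Finset (Sym2 (Fin n)))
    (hΔ : ∀ (x : Fin n) (S : Finset (Fin n)), (∀ y ∈ S, G.Adj x y) → S.card ≤ Δ)
    (hg : ∀ (x : Fin n) (c : (G.deleteEdges F).Walk x x), c.IsCycle → 6 * q < c.length) :
    q * cMax τ G ≤ τ * n + q * (τ + 2 * (τ + 1) * F.card + (τ * (Δ + 1) + 1) ^ (2 * q)) := by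
  set B := τ * n + q * (τ + 2 * (τ + 1) * F.card + (τ * (Δ + 1) + 1) ^ (2 * q)) with hB
  have key : ∀ m ∈ {m | ∃ C : Fin τ → SimpleGraph (Fin n), Admissible C G ∧
      m = multiCopNumber C G}, m ≤ B / q := by
    rintro m ⟨C, ⟨hC, rfl⟩, rfl⟩
    obtain ⟨N, u, -, h1, h2, h3⟩ := win_bound (by omega) C hC q (Δ + 1) 0 hq F
      (fun x c hc => by have := hg x c hc; omega)
    have h4 : multiCopNumber C (⨆ i, C i) ≤ N := Nat.sInf_le h3
    rw [Fintype.card_fin] at h2
    have hu : u = 0 := h1 fun i x S hS => Nat.lt_succ_of_le <| hΔ x S fun y hy =>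
      (SimpleGraph.iSup_adj.2 ⟨i, (hS y hy).symm⟩)
    subst hu
    rw [Nat.le_div_iff_mul_le (by omega)]
    have h5 : q * (n / q) ≤ n := Nat.mul_div_le n q
    calc multiCopNumber C (⨆ i, C i) * q ≤ N * q := Nat.mul_le_mul_right _ h4
      _ ≤ (τ * (n / q + 1 + 2 * F.card) + (2 * F.card + 0 + τ * 0) +
        (τ * (Δ + 1) + 1) ^ (2 * q)) * q := Nat.mul_le_mul_right _ h2
      _ = τ * (q * (n / q)) +
        q * (τ + 2 * (τ + 1) * F.card + (τ * (Δ + 1) + 1) ^ (2 * q)) := by ring
      _ ≤ τ * n + q * (τ + 2 * (τ + 1) * F.card + (τ * (Δ + 1) + 1) ^ (2 * q)) :=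
          Nat.add_le_add_right (Nat.mul_le_mul_left τ h5) _
  have h1 : cMax τ G ≤ B / q := by
    unfold cMax
    rcases Set.eq_empty_or_nonempty {m | ∃ C : Fin τ → SimpleGraph (Fin n), Admissible C G ∧
      m = multiCopNumber C G} with h | h
    · rw [h]; simp
    · exact csSup_le h key
  rw [Nat.le_div_iff_mul_le (by omega)] at h1
  linarith

/-- the explicit bound, real version -/
theorem cMax_le {τ q n : ℕ} (hτ : 1 ≤ τ) (hq : 1 ≤ q) (hn : q ^ 2 ≤ n) (G : SimpleGraph (Fin n))
    (F : Finset (Sym2 (Fin n)))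
    (hg : ∀ (x : Fin n) (c : (G.deleteEdges F).Walk x x), c.IsCycle → 6 * q < c.length) :
    (cMax τ G : ℝ) ≤ 3 * τ * n / q + τ + 2 * (τ + 1) * F.card + (τ * q ^ 2 + 1) ^ (2 * q) := by
  have h2 := cMax_mul_le hτ hq hn G F hg
  have hq0 : (0 : ℝ) < q := by exact_mod_cast hq
  have h3 : (q : ℝ) * cMax τ G ≤ 3 * τ * n +
      q * (τ + 2 * (τ + 1) * F.card + (τ * q ^ 2 + 1) ^ (2 * q)) := by exact_mod_cast h2
  have h4 : (3 * τ * n / q + τ + 2 * (τ + 1) * F.card + (τ * q ^ 2 + 1) ^ (2 * q) : ℝ) * q =
      3 * τ * n + q * (τ + 2 * (τ + 1) * F.card + (τ * q ^ 2 + 1) ^ (2 * q)) := by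
    field_simp
    ring
  refine le_of_mul_le_mul_right ?_ hq0
  rw [h4]
  linarith

end Pool.Agent.H85.ML
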