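import Pool.Agent.H85.ML.Block
import Pool.Agent.H85.ML.Few

/-!
# The strategy of the cops for local trees of bounded blocks
-/

set_option autoImplicit false

namespace Pool.Agent.H85.ML

open Finset

section
variable {V β : Type} {B : β → Finset V} {τ b : ℕ} {C : Fin τ → SimpleGraph V} {R : SimpleGraph V}
  {h : ℕ} {par : Fin τ → V → V} {dep : Fin τ → V → ℕ} {K : Fin τ → V → Prop} {Prot : V → Prop}
  {v : V}

/-- the cop of the layer `i` with the base `k` and the label `t` is assigned to the exit `z` -/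
def BAsg (C : Fin τ → SimpleGraph V) (R : SimpleGraph V) (B : β → Finset V) (h : ℕ)
    (par : Fin τ → V → V) (K : Fin τ → V → Prop) (Prot : V → Prop) (lab : β → V → Fin b)
    (v z : V) (i : Fin τ) (k : V) (t : Fin b) : Prop :=
  (∃ w : (C i).Walk k z, w.length < h) ∧ ∃ (P p : List (V × β)) (e : β) (r : ℕ), Valid B v P ∧
    P.length ≤ 3 * h ∧ pos v P = k ∧ (((par i)^[r] z, e) :: p) <:+ P ∧
    (∀ t ≤ r, (par i)^[t] z ∈ B e) ∧ (∀ t < r, ¬ K i ((par i)^[t] z)) ∧
    FreeP R B h par K Prot v p ∧ h ≤ p.length + 1 ∧ ¬ Inw B par K i e z (pos v p) ∧ lab e z = t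

theorem basg_aux {z : V} {i : Fin τ} {e : β} {y : V} {r : ℕ}
    (h1 : ∀ t ≤ r, (par i)^[t] z ∈ B e) (h2 : ∀ t < r, ¬ K i ((par i)^[t] z))
    (h3 : Inw B par K i e ((par i)^[r] z) y) : Inw B par K i e z y := by
  obtain ⟨s, hs, hs1, hs2⟩ := h3
  refine ⟨s + r, by omega, ?_, ?_⟩
  · rw [Function.iterate_add_apply]; exact hs1
  · intro t ht
    by_cases htr : t < r
    · exact ⟨h1 t htr.le, h2 t htr⟩
    · have h4 := hs2 (t - r) (by omega)
      rw [← Function.iterate_add_apply, Nat.sub_add_cancel (by omega)] at h4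
      exact h4

theorem basg_inj {lab : β → V → Fin b}
    (hlab : ∀ e x y, x ∈ B e → y ∈ B e → lab e x = lab e y → x = y)
    (hg : ∀ (u : V ⊕ β) (c : (inc B).Walk u u), c.IsCycle → 4 * (3 * h) < c.length)
    {z z' : V} {i : Fin τ} {k : V} {t : Fin b}
    (H1 : BAsg C R B h par K Prot lab v z i k t) (H2 : BAsg C R B h par K Prot lab v z' i k t) :
    z = z' := by
  obtain ⟨-, P, p, e, r, a1, a2, a3, a4, a5, a6, a7, a8, a9, a10⟩ := H1
  obtain ⟨-, P', p', e', r', b1, b2, b3, b4, b5, b6, b7, b8, b9, b10⟩ := H2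
  have hP : P = P' := valid_unique (3 * h) hg a1 b1 (by rw [a3, b3]) a2 b2
  subst hP
  have done : e = e' → z = z' := by
    intro he
    subst he
    exact hlab e z z' (a5 0 (by omega)) (b5 0 (by omega)) (by rw [a10, b10])
  rcases List.suffix_or_suffix_of_suffix a4 b4 with h3 | h3
  · rcases List.suffix_cons_iff.1 h3 with h4 | h4
    · exact done (Prod.mk.inj (List.cons.inj h4).1).2
    · exfalso
      have h5 := (freeP_suffix h4 b7).2.2.2 a8 i
      exact a9 (basg_aux a5 a6 h5)
  · rcases List.suffix_cons_iff.1 h3 with h4 | h4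
    · exact done (Prod.mk.inj (List.cons.inj h4).1).2.symm
    · exfalso
      have h5 := (freeP_suffix h4 a7).2.2.2 b8 i
      exact b9 (basg_aux b5 b6 h5)

theorem exists_bbase (hR : BRoots C B h par dep K) (hh : 1 ≤ h) (i : Fin τ) (u : V) :
    ∃ s < h, K i ((par i)^[s] u) ∧ ∀ t < s, ¬ K i ((par i)^[t] u) := by
  classical
  have hex : ∃ s, s < h ∧ K i ((par i)^[s] u) := by
    by_contra hcon
    push Not at hcon
    have h1 : ∀ s < h, dep i ((par i)^[s] u) + s = dep i u := fun s hs =>
      iter_depth hR i u s (fun t ht => hcon t (by omega))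
    obtain ⟨j, hj, hj'⟩ := hR.hit i (dep i u - (h - 1))
    have h2 := h1 (h - 1 - j) (by omega)
    have h3 := h1 (h - 1) (by omega)
    exact hcon (h - 1 - j) (by omega) (hj' _ (by omega))
  obtain ⟨h1, h2⟩ := Nat.find_spec hex
  refine ⟨Nat.find hex, h1, h2, fun s' hs' hK => ?_⟩
  exact Nat.find_min hex hs' ⟨by omega, hK⟩

theorem biter_walk (hR : BRoots C B h par dep K) (i : Fin τ) (u : V) : ∀ s,
    (∀ t < s, ¬ K i ((par i)^[t] u)) → ∃ p : (C i).Walk ((par i)^[s] u) u, p.length = s := by
  intro s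
  induction s with
  | zero => intro _; exact ⟨SimpleGraph.Walk.nil, rfl⟩
  | succ s ih =>
    intro hK
    obtain ⟨p, hp⟩ := ih (fun t ht => hK t (by omega))
    have h1 := hR.adjC i _ (hK s (by omega))
    rw [← Function.iterate_succ_apply' (par i) s u] at h1
    exact ⟨SimpleGraph.Walk.cons h1 p, by rw [SimpleGraph.Walk.length_cons, hp]⟩

theorem exists_basg (hR : BRoots C B h par dep K) (hh : 1 ≤ h) (lab : β → V → Fin b)
    {z : V} {e : β} {p : List (V × β)} (hp : Valid B v ((z, e) :: p))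
    (hf : FreeP R B h par K Prot v p) (hlen : h ≤ p.length + 1)
    (hj : ∃ j, ¬ Inw B par K j e z (pos v p)) :
    ∃ i k t, K i k ∧ BAsg C R B h par K Prot lab v z i k t := by
  obtain ⟨j, hj⟩ := hj
  obtain ⟨s, hs, hKs, hmin⟩ := exists_bbase hR hh j z
  obtain ⟨w, hw⟩ := biter_walk hR j z s hmin
  obtain ⟨P, h1, h2, h3, h4⟩ := up_block hR j hp hj s hmin
  have hshort := freeP_short hR hh j hf
  rcases h4 with ⟨h5, h6⟩ | ⟨r, hr, h5, e', p', h6, h7, h8⟩
  · refine ⟨j, _, lab e z, hKs, ⟨w, by omega⟩, P, p, e, s, h1, by omega, h2, ?_, h6, hmin, hf, hlen,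
      hj, rfl⟩
    rw [h5]
  · refine ⟨j, _, lab e z, hKs, ⟨w, by omega⟩, P, p, e, r, h1, by omega, h2, ?_, h5,
      fun t ht => hmin t (by omega), hf, hlen, hj, rfl⟩
    rw [h6]
    exact h8.trans (List.suffix_cons _ _)

/-- **The strategy.** -/
theorem bcore_win [Fintype V] (hτ : 0 < τ) (hR : BRoots C B h par dep K) (hh : 1 ≤ h)
    (hconn : ∀ i, (C i).Connected) (lab : β → V → Fin b)
    (hlab : ∀ e x y, x ∈ B e → y ∈ B e → lab e x = lab e y → x = y)
    (hg : ∀ (u : V ⊕ β) (c : (inc B).Walk u u), c.IsCycle → 4 * (3 * h) < c.length)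
    (P : Fin τ × V → Prop) (hP : ∀ x, Prot x ↔ ∃ p, P p ∧ Step (C p.1) p.2 x)
    (hB : ∀ x y, R.Adj x y → ¬ Prot x → ∃ e, x ∈ B e ∧ y ∈ B e) (M : ℕ)
    (hM : ∀ v, ¬ Prot v → ∃ f : Fin M → V, ∀ p : List (V × β), Valid B v p →
      FreeP R B h par K Prot v p → ∃ r, f r = pos v p) :
    MultiWin C R (Nat.card {p : Fin τ × V // K p.1 p.2} * b +
      (Nat.card {p : Fin τ × V // P p} + M)) := by
  classical
  have hne : Nonempty V := (hconn ⟨0, hτ⟩).nonempty
  let w0 : V := Classical.arbitrary V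
  let l : ({p : Fin τ × V // K p.1 p.2} × Fin b) ⊕ ({p : Fin τ × V // P p} ⊕ Fin M) → Fin τ :=
    Sum.elim (fun p => p.1.1.1) (Sum.elim (fun p => p.1.1) (fun _ => ⟨0, hτ⟩))
  let st : ({p : Fin τ × V // K p.1 p.2} × Fin b) ⊕ ({p : Fin τ × V // P p} ⊕ Fin M) → V :=
    Sum.elim (fun p => p.1.1.2) (Sum.elim (fun p => p.1.2) (fun _ => w0))
  have hcard : Nat.card {p : Fin τ × V // K p.1 p.2} * b + (Nat.card {p : Fin τ × V // P p} + M) =
      Fintype.card (({p : Fin τ × V // K p.1 p.2} × Fin b) ⊕ ({p : Fin τ × V // P p} ⊕ Fin M)) := by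
    rw [Fintype.card_sum, Fintype.card_sum, Fintype.card_prod, Nat.card_eq_fintype_card,
      Nat.card_eq_fintype_card, Fintype.card_fin, Fintype.card_fin]
  rw [hcard]
  refine multiWin_of_fintype C R l st fun v => ?_
  by_cases hv : Prot v
  · obtain ⟨p, hp1, hp2⟩ := (hP v).1 hv
    refine ⟨1, ?_⟩
    exact catch_of_schedule C R l (fun _ => st) (fun _ _ => Or.inl rfl) (fun _ _ => False) 0
      (fun _ h => h.elim) (fun _ _ _ h => h.elim)
      (Or.inr ⟨Sum.inr (Sum.inl ⟨p, hp1⟩), hp2⟩)
  · obtain ⟨f, hf⟩ := hM v hv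
    have hpath : ∀ c, ∃ (w : V) (p : (C (l c)).Walk (st c) w),
        (∀ i k hk t, c = Sum.inl (⟨(i, k), hk⟩, t) → ∀ z, BAsg C R B h par K Prot lab v z i k t →
          w = z ∧ p.length < h) ∧
        (∀ p', c = Sum.inr (Sum.inl p') → ∀ t, p.getVert t = st c) ∧
        (∀ r, c = Sum.inr (Sum.inr r) → w = f r) := by
      rintro (⟨⟨⟨i, k⟩, hk⟩, t⟩ | p' | r)
      · by_cases hz : ∃ z, BAsg C R B h par K Prot lab v z i k t
        · obtain ⟨z, hz⟩ := hz
          obtain ⟨p, hp⟩ := hz.1
          refine ⟨z, p, ?_, ?_, ?_⟩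
          · intro i' k' hk' t' heq z' hz'
            have h1 := Sum.inl.inj heq
            obtain ⟨h1a, h1b⟩ := Prod.mk.inj h1
            have h2 : ((i, k) : Fin τ × V) = (i', k') := congrArg Subtype.val h1a
            obtain ⟨h3, h4⟩ := Prod.mk.inj h2
            subst h3 h4 h1b
            exact ⟨basg_inj hlab hg hz hz', hp⟩
          · intro p' h; cases h
          · intro r h; cases h
        · refine ⟨k, SimpleGraph.Walk.nil, ?_, ?_, ?_⟩
          · intro i' k' hk' t' heq z' hz'
            have h1 := Sum.inl.inj heq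
            obtain ⟨h1a, h1b⟩ := Prod.mk.inj h1
            have h2 : ((i, k) : Fin τ × V) = (i', k') := congrArg Subtype.val h1a
            obtain ⟨h3, h4⟩ := Prod.mk.inj h2
            subst h3 h4 h1b
            exact absurd ⟨z', hz'⟩ hz
          · intro p' h; cases h
          · intro r h; cases h
      · refine ⟨st (Sum.inr (Sum.inl p')), SimpleGraph.Walk.nil, ?_, ?_, ?_⟩
        · intro i' k' hk' t' heq; cases heq
        · intro _ _ t
          exact SimpleGraph.Walk.getVert_nil _
        · intro r h; cases h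
      · obtain ⟨p⟩ := (hconn ⟨0, hτ⟩).preconnected w0 (f r)
        refine ⟨f r, p, ?_, ?_, ?_⟩
        · intro i' k' hk' t' heq; cases heq
        · intro _ h; cases h
        · intro r' h
          have := Sum.inr.inj (Sum.inr.inj h)
          rw [this]
    choose w p hp1 hp2 hp3 using hpath
    set m := Finset.univ.sup (fun c => (p c).length) with hm
    have hpm : ∀ c, (p c).length ≤ m := fun c => Finset.le_sup (f := fun c => (p c).length)
      (Finset.mem_univ c)
    have h0 : (fun c => (p c).getVert 0) = st := by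
      funext c; exact (p c).getVert_zero
    refine ⟨m + 1, ?_⟩
    rw [← h0]
    -- a step of the robber to a new reduced block walk
    have htry : ∀ (t : ℕ) (x' : V) (e : β) (q : List (V × β)), Valid B v ((x', e) :: q) →
        FreeP R B h par K Prot v q → ¬ Prot x' → (∃ y ∈ B e, R.Adj (pos v q) y) → q.length ≤ t →
        (∃ q' : List (V × β), Valid B v q' ∧ FreeP R B h par K Prot v q' ∧ pos v q' = x' ∧
          q'.length ≤ t + 1) ∨ ∃ c, Step (C (l c)) ((p c).getVert (t + 1)) x' := by
      intro t x' e q hq1 hq2 hx' hy hlen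
      by_cases hex : h ≤ q.length + 1 ∧ ∃ j, ¬ Inw B par K j e x' (pos v q)
      · right
        obtain ⟨i, k, t', hk, hasg⟩ := exists_basg (R := R) (Prot := Prot) hR hh lab hq1 hq2
          hex.1 hex.2
        refine ⟨Sum.inl (⟨(i, k), hk⟩, t'), ?_⟩
        obtain ⟨h1, h2⟩ := hp1 (Sum.inl (⟨(i, k), hk⟩, t')) i k hk t' rfl x' hasg
        rw [(p _).getVert_of_length_le (by omega), h1]
        exact Or.inl rfl
      · left
        refine ⟨(x', e) :: q, hq1, ⟨hq2, hx', hy, fun hle j => ?_⟩, rfl, ?_⟩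
        · push Not at hex
          exact hex hle j
        · simp only [List.length_cons]; omega
    refine catch_of_schedule C R l (fun t c => (p c).getVert t) (fun t c => getVert_step (p c) t)
      (fun t x => ∃ q : List (V × β), Valid B v q ∧ FreeP R B h par K Prot v q ∧ pos v q = x ∧
        q.length ≤ t) m ?_ ?_ ?_
    · rintro x ⟨q, hq1, hq2, hq3, -⟩
      obtain ⟨r, hr⟩ := hf q hq1 hq2
      refine ⟨Sum.inr (Sum.inr r), ?_⟩
      rw [(p _).getVert_of_length_le (hpm _), hp3 _ r rfl, hr, hq3]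
    · rintro t x x' ⟨q, hq1, hq2, hq3, hq4⟩ hxx
      rcases hxx with rfl | hxx
      · exact Or.inl ⟨q, hq1, hq2, hq3, by omega⟩
      · have hx : ¬ Prot x := by
          cases q with
          | nil => rw [← hq3]; exact hv
          | cons a q => rw [← hq3]; exact hq2.2.1
        obtain ⟨e1, he1, he2⟩ := hB x x' hxx hx
        by_cases hx' : Prot x'
        · right
          obtain ⟨p', h1, h2⟩ := (hP x').1 hx'
          refine ⟨Sum.inr (Sum.inl ⟨p', h1⟩), ?_⟩
          rw [hp2 _ ⟨p', h1⟩ rfl]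
          exact h2
        · cases q with
          | nil =>
            change v = x at hq3
            subst hq3
            exact htry t x' e1 [] ⟨trivial, he2, he1, hxx.ne', by simp⟩ trivial hx'
              ⟨x', he2, hxx⟩ (by simp)
          | cons a q =>
            obtain ⟨x0, e⟩ := a
            change x0 = x at hq3
            subst hq3
            simp only [List.length_cons] at hq4
            by_cases hb : x' ∈ B e
            · by_cases hpos : x' = pos v q
              · left
                exact ⟨q, hq1.1, hq2.1, hpos.symm, by omega⟩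
              · exact htry t x' e q ⟨hq1.1, hb, hq1.2.2.1, hpos, hq1.2.2.2.2⟩ hq2.1 hx'
                  hq2.2.2.1 (by omega)
            · refine htry t x' e1 ((x0, e) :: q) ⟨hq1, he2, he1, hxx.ne', ?_⟩ hq2 hx'
                ⟨x', he2, hxx⟩ (by simp only [List.length_cons]; omega)
              intro q' hq'
              simp only [List.head?_cons, Option.mem_some_iff] at hq'
              subst hq'
              intro h0
              simp only at h0
              rw [h0] at hb
              exact hb he2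
    · exact Or.inl ⟨[], trivial, trivial, rfl, le_rfl⟩

end

end Pool.Agent.H85.ML
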