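import Pool.Agent.H85.ML.Prod
import Pool.Graph.R_seed8.Helper600R2.Expander

/-!
# The robust base graph

A permutation of `Fin N` which together with the rotation expands all sets of medium size yields
a base graph with the property `Rob`.
-/

set_option autoImplicit false

namespace Pool.Agent.H85.ML

open Finset

variable {N : ℕ}

/-- closed neighbourhood in the graph of the permutations `π m` -/
def nb (π : Fin 3 → Equiv.Perm (Fin N)) (S : Finset (Fin N)) : Finset (Fin N) :=
  univ.filter fun y => y ∈ S ∨ ∃ m, π m y ∈ S ∨ (π m).symm y ∈ S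

theorem mem_nb {π : Fin 3 → Equiv.Perm (Fin N)} {S : Finset (Fin N)} {y : Fin N} :
    y ∈ nb π S ↔ y ∈ S ∨ ∃ m, π m y ∈ S ∨ (π m).symm y ∈ S := by simp [nb]

theorem subset_nb (π : Fin 3 → Equiv.Perm (Fin N)) (S : Finset (Fin N)) : S ⊆ nb π S :=
  fun _ hy => mem_nb.2 (Or.inl hy)

theorem nb_mono (π : Fin 3 → Equiv.Perm (Fin N)) {S T : Finset (Fin N)} (h : S ⊆ T) :
    nb π S ⊆ nb π T := by
  intro y hy
  rw [mem_nb] at *
  rcases hy with hy | ⟨m, hy | hy⟩
  · exact Or.inl (h hy)
  · exact Or.inr ⟨m, Or.inl (h hy)⟩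
  · exact Or.inr ⟨m, Or.inr (h hy)⟩

theorem nb_union (π : Fin 3 → Equiv.Perm (Fin N)) (S T : Finset (Fin N)) :
    nb π (S ∪ T) ⊆ nb π S ∪ nb π T := by
  intro y hy
  rw [mem_union, mem_nb, mem_nb]
  rw [mem_nb] at hy
  simp only [mem_union] at hy
  rcases hy with (hy | hy) | ⟨m, (hy | hy) | (hy | hy)⟩
  · exact Or.inl (Or.inl hy)
  · exact Or.inr (Or.inl hy)
  · exact Or.inl (Or.inr ⟨m, Or.inl hy⟩)
  · exact Or.inr (Or.inr ⟨m, Or.inl hy⟩)
  · exact Or.inl (Or.inr ⟨m, Or.inr hy⟩)
  · exact Or.inr (Or.inr ⟨m, Or.inr hy⟩)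

/-- expansion of the sets of medium size -/
def Expd (π : Fin 3 → Equiv.Perm (Fin N)) : Prop :=
  ∀ S : Finset (Fin N), N ≤ 3 * S.card → 3 * S.card ≤ 2 * N → N < 120 * (nb π S \ S).card

theorem bd_le (π : Fin 3 → Equiv.Perm (Fin N)) (m : Fin 3) (S : Finset (Fin N)) :
    (Pool.Agent.Helper600R2.bd (π m) S).card ≤ 2 * (nb π S \ S).card := by
  classical
  have h1 : Pool.Agent.Helper600R2.bd (π m) S ⊆
      (nb π S \ S).map (π m).symm.toEmbedding ∪ (nb π S \ S) := by
    intro i hi
    simp only [Pool.Agent.Helper600R2.bd, mem_filter, mem_univ, true_and] at hi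
    rw [mem_union, mem_map_equiv, Equiv.symm_symm]
    by_cases h : i ∈ S
    · have h2 : π m i ∉ S := fun h' => hi ⟨fun _ => h', fun _ => h⟩
      exact Or.inl (mem_sdiff.2 ⟨mem_nb.2 (Or.inr ⟨m, Or.inr (by simpa using h)⟩), h2⟩)
    · have h2 : π m i ∈ S := by
        by_contra h'
        exact hi ⟨fun h'' => absurd h'' h, fun h'' => absurd h'' h'⟩
      exact Or.inr (mem_sdiff.2 ⟨mem_nb.2 (Or.inr ⟨m, Or.inl h2⟩), h⟩)
  have h2 := card_le_card h1
  have h3 := card_union_le ((nb π S \ S).map (π m).symm.toEmbedding) (nb π S \ S)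
  rw [card_map] at h3
  omega

theorem exists_expd (hN : 25 ≤ N) : ∃ π : Fin 3 → Equiv.Perm (Fin N), π 0 = 1 ∧ Expd π := by
  obtain ⟨ρ, hρ⟩ := Pool.Agent.Helper600R2.exists_expander hN
  refine ⟨![1, finRotate N, ρ], rfl, fun S h1 h2 => ?_⟩
  have h3 := hρ S h1 h2
  have h4 := bd_le ![1, finRotate N, ρ] 1 S
  have h5 := bd_le ![1, finRotate N, ρ] 2 S
  have e1 : (![1, finRotate N, ρ] : Fin 3 → Equiv.Perm (Fin N)) 1 = finRotate N := rfl
  have e2 : (![1, finRotate N, ρ] : Fin 3 → Equiv.Perm (Fin N)) 2 = ρ := rfl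
  rw [e1] at h4
  rw [e2] at h5
  omega

/-- deleting a small set of vertices, and then a set `Z` which does not expand -/
theorem exists_prune (π : Fin 3 → Equiv.Perm (Fin N)) (hπ : Expd π) (hN : 0 < N)
    (D : Finset (Fin N)) (hD : 480 * D.card ≤ N) : ∃ Z : Finset (Fin N), 3 * Z.card < N ∧
    ∀ S : Finset (Fin N), S.Nonempty → Disjoint S (Z ∪ D) → 3 * (S.card + Z.card) ≤ 2 * N →
      S.card < 240 * (nb π S \ (S ∪ (Z ∪ D))).card := by
  classical
  set F : Finset (Finset (Fin N)) := univ.filter fun Z =>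
    3 * Z.card ≤ 2 * N ∧ 240 * (nb π Z \ (Z ∪ D)).card ≤ Z.card with hF
  have h0 : (∅ : Finset (Fin N)) ∈ F := by
    simp only [hF, mem_filter, mem_univ, true_and, card_empty, empty_union]
    refine ⟨by omega, ?_⟩
    have : nb π ∅ = ∅ := by
      ext y
      simp [mem_nb]
    rw [this]
    simp
  obtain ⟨Z, hZ, hmax⟩ := exists_max_image F card ⟨_, h0⟩
  simp only [hF, mem_filter, mem_univ, true_and] at hZ hmax
  refine ⟨Z, ?_, ?_⟩
  · by_contra hcon
    push Not at hcon
    have h1 := hπ Z hcon hZ.1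
    have h2 : (nb π Z \ Z).card ≤ (nb π Z \ (Z ∪ D)).card + D.card := by
      refine (card_le_card ?_).trans (card_union_le _ _)
      intro y hy
      simp only [mem_union, mem_sdiff] at *
      tauto
    omega
  · intro S hS hdis hcard
    by_contra hcon
    push Not at hcon
    have h1 : (Z ∪ S).card = Z.card + S.card := by
      refine card_union_of_disjoint ?_
      rw [disjoint_union_right] at hdis
      exact hdis.1.symm
    have h2 : nb π (Z ∪ S) \ (Z ∪ S ∪ D) ⊆ (nb π Z \ (Z ∪ D)) ∪ (nb π S \ (S ∪ (Z ∪ D))) := by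
      intro y hy
      rw [mem_sdiff] at hy
      have := nb_union π Z S hy.1
      have h3 := hy.2
      simp only [mem_union, mem_sdiff] at *
      tauto
    have h3 := (card_le_card h2).trans (card_union_le _ _)
    have h4 := hmax (Z ∪ S) ⟨by omega, by omega⟩
    have h5 := hS.card_pos
    omega

/-- balls outside of `D` -/
def ball (π : Fin 3 → Equiv.Perm (Fin N)) (D : Finset (Fin N)) : ℕ → Fin N → Finset (Fin N)
  | 0, x => {x}
  | s + 1, x => nb π (ball π D s x) \ D

theorem ball_disjoint (π : Fin 3 → Equiv.Perm (Fin N)) (D : Finset (Fin N)) {x : Fin N}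
    (hx : x ∉ D) (s : ℕ) : Disjoint (ball π D s x) D := by
  cases s with
  | zero => simpa [ball] using hx
  | succ s => exact sdiff_disjoint

theorem ball_succ (π : Fin 3 → Equiv.Perm (Fin N)) (D : Finset (Fin N)) {x : Fin N}
    (hx : x ∉ D) (s : ℕ) : ball π D s x ⊆ ball π D (s + 1) x := by
  intro y hy
  rw [ball, mem_sdiff]
  exact ⟨subset_nb π _ hy, fun h => (disjoint_left.1 (ball_disjoint π D hx s)) hy h⟩

theorem ball_le (π : Fin 3 → Equiv.Perm (Fin N)) (D : Finset (Fin N)) {x : Fin N}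
    (hx : x ∉ D) {s t : ℕ} (h : s ≤ t) : ball π D s x ⊆ ball π D t x := by
  induction h with
  | refl => exact Finset.Subset.refl _
  | step _ ih => exact ih.trans (ball_succ π D hx _)

theorem ball_anti (π : Fin 3 → Equiv.Perm (Fin N)) {D D' : Finset (Fin N)} (hD : D ⊆ D')
    (x : Fin N) (s : ℕ) : ball π D' s x ⊆ ball π D s x := by
  induction s with
  | zero => exact Finset.Subset.refl _
  | succ s ih =>
    rw [ball, ball]
    exact sdiff_subset_sdiff (nb_mono π ih) hD

theorem card_ball_succ (π : Fin 3 → Equiv.Perm (Fin N)) (D : Finset (Fin N)) {x : Fin N}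
    (hx : x ∉ D) (s : ℕ) : (ball π D (s + 1) x).card =
      (ball π D s x).card + (nb π (ball π D s x) \ (ball π D s x ∪ D)).card := by
  classical
  rw [← card_union_of_disjoint]
  · congr 1
    ext y
    have h1 := ball_succ π D hx s
    have h2 := disjoint_left.1 (ball_disjoint π D hx s)
    rw [ball] at *
    simp only [mem_union, mem_sdiff]
    constructor
    · rintro ⟨h3, h4⟩
      by_cases h5 : y ∈ ball π D s x
      · exact Or.inl h5
      · exact Or.inr ⟨h3, by tauto⟩
    · rintro (h3 | ⟨h3, h4⟩)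
      · exact mem_sdiff.1 (h1 h3)
      · exact ⟨h3, by tauto⟩
  · rw [disjoint_left]
    intro y h1 h2
    simp only [mem_union, mem_sdiff] at h2
    tauto

theorem pow_growth (r : ℕ) : (2 : ℝ) ^ r ≤ (241 / 240 : ℝ) ^ (240 * r) := by
  rw [pow_mul]
  refine pow_le_pow_left₀ (by norm_num) ?_ r
  have h := one_add_mul_le_pow (a := (1 / 240 : ℝ)) (by norm_num) 240
  norm_num at h ⊢

theorem ball_large (π : Fin 3 → Equiv.Perm (Fin N)) (hπ : Expd π) (r : ℕ)
    (hr : N ≤ 2 ^ r) (D Z : Finset (Fin N)) (hD : 480 * D.card ≤ N) (hZ : 3 * Z.card < N)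
    (hexp : ∀ S : Finset (Fin N), S.Nonempty → Disjoint S (Z ∪ D) →
      3 * (S.card + Z.card) ≤ 2 * N → S.card < 240 * (nb π S \ (S ∪ (Z ∪ D))).card)
    (x : Fin N) (hx : x ∉ Z ∪ D) : 2 * N < 3 * (ball π D (240 * r + 107) x).card := by
  classical
  have hxD : x ∉ D := fun h => hx (mem_union_right _ h)
  have hgrow : ∀ s, (∀ s' < s, 3 * ((ball π (Z ∪ D) s' x).card + Z.card) ≤ 2 * N) →
      (241 / 240 : ℝ) ^ s ≤ ((ball π (Z ∪ D) s x).card : ℝ) := by
    intro s
    induction s with
    | zero => intro _; simp [ball]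
    | succ s ih =>
      intro h
      have h1 := ih fun s' hs' => h s' (by omega)
      have hne : (ball π (Z ∪ D) s x).Nonempty :=
        ⟨x, ball_le π (Z ∪ D) hx (Nat.zero_le s) (by simp [ball])⟩
      have h2 := hexp _ hne (ball_disjoint π (Z ∪ D) hx s) (h s (by omega))
      have h3 := card_ball_succ π (Z ∪ D) hx s
      have h4 : ((ball π (Z ∪ D) s x).card : ℝ) <
          240 * ((nb π (ball π (Z ∪ D) s x) \ (ball π (Z ∪ D) s x ∪ (Z ∪ D))).card : ℝ) := by
        exact_mod_cast h2
      rw [h3, pow_succ]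
      push_cast
      nlinarith
  have hbig : N ≤ 3 * (ball π D (240 * r) x).card := by
    by_contra hcon
    push Not at hcon
    have h1 : ∀ s ≤ 240 * r, 3 * ((ball π (Z ∪ D) s x).card + Z.card) ≤ 2 * N := by
      intro s hs
      have h2 := card_le_card (ball_le π (Z ∪ D) hx hs)
      have h3 := card_le_card (ball_anti π (subset_union_right : D ⊆ Z ∪ D) x (240 * r))
      omega
    have h2 := hgrow (240 * r) fun s hs => h1 s (by omega)
    have h3 := pow_growth r
    have h4 := card_le_card (ball_anti π (subset_union_right : D ⊆ Z ∪ D) x (240 * r))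
    have h5 : ((ball π (Z ∪ D) (240 * r) x).card : ℝ) < N := by
      have : (ball π (Z ∪ D) (240 * r) x).card < N := by omega
      exact_mod_cast this
    have h6 : (N : ℝ) ≤ 2 ^ r := by exact_mod_cast hr
    linarith
  have hlin : ∀ t, 2 * N < 3 * (ball π D (240 * r + t) x).card ∨
      N * t ≤ 160 * (ball π D (240 * r + t) x).card := by
    intro t
    induction t with
    | zero => exact Or.inr (by simp)
    | succ t ih =>
      have h1 := card_ball_succ π D hxD (240 * r + t)
      rw [show 240 * r + (t + 1) = 240 * r + t + 1 by omega]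
      by_cases h2 : 2 * N < 3 * (ball π D (240 * r + t) x).card
      · left; omega
      · right
        have h3 : N * t ≤ 160 * (ball π D (240 * r + t) x).card := ih.resolve_left h2
        have h4 := card_le_card (ball_le π D hxD (show 240 * r ≤ 240 * r + t by omega))
        have h5 := hπ (ball π D (240 * r + t) x) (by omega) (by omega)
        have h6 : (nb π (ball π D (240 * r + t) x) \ ball π D (240 * r + t) x).card ≤
            (nb π (ball π D (240 * r + t) x) \ (ball π D (240 * r + t) x ∪ D)).card + D.card := by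
          refine (card_le_card ?_).trans (card_union_le _ _)
          intro y hy
          simp only [mem_union, mem_sdiff] at *
          tauto
        rw [h1, mul_add]
        omega
  rcases hlin 107 with h | h
  · exact h
  · omega

theorem reach_append {π : Fin 3 → Equiv.Perm (Fin N)} {D : Finset (Fin N × Fin 3)} {y z :
    Fin N × Fin 3} (hyz : ∃ i, cell π i y = cell π i z) (hz : z ∉ D) {s : ℕ} :
    ∀ {x : Fin N × Fin 3}, Reach π D s x y → Reach π D (s + 1) x z := by
  induction s with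
  | zero =>
    rintro x ⟨rfl, hx⟩
    exact ⟨hx, z, hyz, rfl, hz⟩
  | succ s ih =>
    rintro x ⟨hx, w, hw, h⟩
    exact ⟨hx, w, hw, ih h⟩

theorem reach_ball {π : Fin 3 → Equiv.Perm (Fin N)} (h0 : π 0 = 1) {D : Finset (Fin N × Fin 3)}
    {x : Fin N} (hx : x ∉ D.image Prod.fst) (s : ℕ) : ∀ y ∈ ball π (D.image Prod.fst) s x,
    Reach π D (2 * s) (x, 0) (y, 0) := by
  classical
  have hmem : ∀ {w : Fin N} (b : Fin 3), w ∉ D.image Prod.fst → (w, b) ∉ D :=
    fun b hw h => hw (mem_image.2 ⟨_, h, rfl⟩)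
  induction s with
  | zero =>
    intro y hy
    rw [ball, mem_singleton] at hy
    subst hy
    exact ⟨rfl, hmem _ hx⟩
  | succ s ih =>
    intro y hy
    rw [ball, mem_sdiff, mem_nb] at hy
    obtain ⟨hy, hyD⟩ := hy
    have hdis := disjoint_left.1 (ball_disjoint π (D.image Prod.fst) hx s)
    rw [show 2 * (s + 1) = 2 * s + 1 + 1 by omega]
    rcases hy with hy | ⟨m, hy | hy⟩
    · exact reach_append ⟨0, rfl⟩ (hmem _ hyD) (reach_append ⟨0, rfl⟩ (hmem _ hyD) (ih y hy))
    · -- `w = π m y`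
      refine reach_append (y := (y, m)) ⟨0, ?_⟩ (hmem _ hyD)
        (reach_append ⟨1, ?_⟩ (hmem _ hyD) (ih _ hy))
      · rw [cell_zero, cell_zero]
      · rw [cell_rep h0, cell_one]
    · -- `w = (π m).symm y`
      refine reach_append (y := ((π m).symm y, m)) ⟨1, ?_⟩ (hmem _ hyD)
        (reach_append ⟨0, ?_⟩ (hmem _ (hdis hy)) (ih _ hy))
      · rw [cell_rep h0, cell_one, Equiv.apply_symm_apply]
      · rw [cell_zero, cell_zero]

theorem rob_of_expd (π : Fin 3 → Equiv.Perm (Fin N)) (h0 : π 0 = 1) (hπ : Expd π) (hN : 0 < N)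
    (r : ℕ) (hr : N ≤ 2 ^ r) : Rob π (480 * r + 216) := by
  classical
  intro D hD
  set D' := D.image Prod.fst with hD'
  have hcard : D'.card ≤ D.card := card_image_le
  obtain ⟨Z, hZ, hexp⟩ := exists_prune π hπ hN D' (by omega)
  have hmem : ∀ {w : Fin N} (b : Fin 3), w ∉ D' → (w, b) ∉ D :=
    fun b hw h => hw (mem_image.2 ⟨_, h, rfl⟩)
  have hg : ∀ x ∉ Z ∪ D', ∀ b, Giant π (480 * r + 216) D (x, b) := by
    intro x hx b
    have hxD : x ∉ D' := fun h => hx (mem_union_right _ h)
    have h1 := ball_large π hπ r hr D' Z (by omega) hZ hexp x hx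
    unfold Giant
    have h2 : (ball π D' (240 * r + 107) x ×ˢ (univ : Finset (Fin 3))) ⊆
        univ.filter fun z => Reach π D (480 * r + 216) (x, b) z := by
      rintro ⟨y, b'⟩ hy
      rw [mem_product] at hy
      simp only [mem_filter, mem_univ, true_and]
      have h3 := reach_ball h0 hxD _ y hy.1
      have hyD : y ∉ D' := disjoint_left.1 (ball_disjoint π D' hxD _) hy.1
      rw [show 480 * r + 216 = (2 * (240 * r + 107) + 1) + 1 by omega]
      exact ⟨hmem _ hxD, (x, 0), ⟨0, by rw [cell_zero, cell_zero]⟩,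
        reach_append ⟨0, by rw [cell_zero, cell_zero]⟩ (hmem _ hyD) h3⟩
    have h3 := card_le_card h2
    rw [card_product, card_univ, Fintype.card_fin] at h3
    omega
  have h1 : ((Z ∪ D')ᶜ ×ˢ (univ : Finset (Fin 3))) ⊆
      univ.filter fun x => Giant π (480 * r + 216) D x := by
    rintro ⟨x, b⟩ hx
    rw [mem_product, mem_compl] at hx
    simp only [mem_filter, mem_univ, true_and]
    exact hg x hx.1 b
  have h2 := card_le_card h1
  rw [card_product, card_univ, Fintype.card_fin, card_compl, Fintype.card_fin] at h2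
  have h3 := card_union_le Z D'
  omega

theorem exists_rob (hN : 25 ≤ N) (r : ℕ) (hr : N ≤ 2 ^ r) :
    ∃ π : Fin 3 → Equiv.Perm (Fin N), π 0 = 1 ∧ Rob π (480 * r + 216) := by
  obtain ⟨π, h0, hπ⟩ := exists_expd hN
  exact ⟨π, h0, rob_of_expd π h0 hπ (by omega) r hr⟩

end Pool.Agent.H85.ML
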