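import Pool.Agent.H85.ML.Sched

/-!
# Graphs that are locally trees of bounded blocks
-/

set_option autoImplicit false

namespace Pool.Agent.H85.ML

open Finset

/-- the incidence graph of the family of blocks `B` -/
def inc {V β : Type} (B : β → Finset V) : SimpleGraph (V ⊕ β) where
  Adj u w := (∃ x e, x ∈ B e ∧ u = Sum.inl x ∧ w = Sum.inr e) ∨
    (∃ x e, x ∈ B e ∧ w = Sum.inl x ∧ u = Sum.inr e)
  symm := by
    constructor
    rintro u w (h | h)
    · exact Or.inr h
    · exact Or.inl h
  loopless := by
    constructor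
    rintro u (⟨x, e, -, h1, h2⟩ | ⟨x, e, -, h1, h2⟩)
    · rw [h1] at h2; cases h2
    · rw [h1] at h2; cases h2

section
variable {V β : Type} {B : β → Finset V}

theorem inc_adj {x : V} {e : β} (h : x ∈ B e) : (inc B).Adj (Sum.inl x) (Sum.inr e) :=
  Or.inl ⟨x, e, h, rfl, rfl⟩

/-- the last vertex of a block walk from `v` -/
def pos (v : V) : List (V × β) → V
  | [] => v
  | (x, _) :: _ => x

/-- reduced block walks from `v` -/
def Valid (B : β → Finset V) (v : V) : List (V × β) → Prop
  | [] => True
  | (x, e) :: p => Valid B v p ∧ x ∈ B e ∧ pos v p ∈ B e ∧ x ≠ pos v p ∧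
      ∀ q ∈ p.head?, q.2 ≠ e

/-- the support of the walk in the incidence graph -/
def enc (v : V) : List (V × β) → List (V ⊕ β)
  | [] => [Sum.inl v]
  | (x, e) :: p => Sum.inl x :: Sum.inr e :: enc v p

theorem enc_inj (v : V) : ∀ p q : List (V × β), enc v p = enc v q → p = q := by
  intro p
  induction p with
  | nil =>
    intro q h
    cases q with
    | nil => rfl
    | cons a q => simp [enc] at h
  | cons a p ih =>
    intro q h
    cases q with
    | nil => simp [enc] at h
    | cons a' q =>
      simp only [enc, List.cons.injEq, Sum.inl.injEq, Sum.inr.injEq] at h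
      obtain ⟨h1, h2, h3⟩ := h
      rw [ih q h3, Prod.ext h1 h2]

theorem enc_head (v : V) (p : List (V × β)) : ∃ t, enc v p = Sum.inl (pos v p) :: t := by
  cases p with
  | nil => exact ⟨[], rfl⟩
  | cons a p => exact ⟨Sum.inr a.2 :: enc v p, rfl⟩

theorem valid_walk (v : V) : ∀ p : List (V × β), Valid B v p →
    ∃ W : (inc B).Walk (Sum.inl (pos v p)) (Sum.inl v), NB W ∧ W.length = 2 * p.length ∧
      W.support = enc v p := by
  intro p
  induction p with
  | nil => intro _; exact ⟨SimpleGraph.Walk.nil, nb_nil _, rfl, rfl⟩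
  | cons a p ih =>
    obtain ⟨x, e⟩ := a
    rintro ⟨h1, h2, h3, h4, h5⟩
    obtain ⟨W, hW1, hW2, hW3⟩ := ih h1
    obtain ⟨t, ht⟩ := enc_head v p
    show ∃ W : (inc B).Walk (Sum.inl x) (Sum.inl v), NB W ∧ W.length = 2 * (p.length + 1) ∧
      W.support = Sum.inl x :: Sum.inr e :: enc v p
    have a1 : (inc B).Adj (Sum.inr e) (Sum.inl (pos v p)) := (inc_adj h3).symm
    have a2 : (inc B).Adj (Sum.inl x) (Sum.inr e) := inc_adj h2
    have n1 : NB (SimpleGraph.Walk.cons a1 W) := by
      refine nb_cons a1 W hW1 ?_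
      intro l hl
      rw [hW3] at hl
      cases p with
      | nil => simp [enc] at hl
      | cons q p =>
        simp only [enc, List.cons.injEq, Sum.inr.injEq] at hl
        exact h5 q (by simp) hl.2.1
    have n2 : NB (SimpleGraph.Walk.cons a2 (SimpleGraph.Walk.cons a1 W)) := by
      refine nb_cons a2 _ n1 ?_
      intro l hl
      rw [SimpleGraph.Walk.support_cons, hW3, ht] at hl
      have h7 := (List.cons.inj (List.cons.inj hl).2).1
      exact h4 (Sum.inl.inj h7).symm
    refine ⟨SimpleGraph.Walk.cons a2 (SimpleGraph.Walk.cons a1 W), n2, ?_, ?_⟩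
    · rw [SimpleGraph.Walk.length_cons, SimpleGraph.Walk.length_cons, hW2]; omega
    · rw [SimpleGraph.Walk.support_cons, SimpleGraph.Walk.support_cons, hW3]

theorem valid_unique (L : ℕ)
    (hg : ∀ (u : V ⊕ β) (c : (inc B).Walk u u), c.IsCycle → 4 * L < c.length) {v : V}
    {p q : List (V × β)} (hp : Valid B v p) (hq : Valid B v q) (hpq : pos v p = pos v q)
    (hpl : p.length ≤ L) (hql : q.length ≤ L) : p = q := by
  obtain ⟨W, a1, a2, a3⟩ := valid_walk v p hp
  have hq' : ∃ W : (inc B).Walk (Sum.inl (pos v p)) (Sum.inl v), NB W ∧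
      W.length = 2 * q.length ∧ W.support = enc v q := by
    rw [hpq]; exact valid_walk v q hq
  obtain ⟨W', b1, b2, b3⟩ := hq'
  have h := nb_unique (2 * L) (fun u c hc => by have := hg u c hc; omega) W W' a1 b1 (by omega)
    (by omega)
  apply enc_inj v
  rw [← a3, ← b3, h]

/-- Parents `par i x` and depths `dep i x` in the layers `C i`; the vertices with `K i x` are the
bases of the cops of the layer `i`. -/
structure BRoots {τ : ℕ} (C : Fin τ → SimpleGraph V) (B : β → Finset V) (h : ℕ)
    (par : Fin τ → V → V) (dep : Fin τ → V → ℕ) (K : Fin τ → V → Prop) : Prop where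
  adjC : ∀ i x, ¬ K i x → (C i).Adj (par i x) x
  block : ∀ i x, ¬ K i x → ∃ e, x ∈ B e ∧ par i x ∈ B e
  depth : ∀ i x, ¬ K i x → dep i x = dep i (par i x) + 1
  hit : ∀ i c, ∃ j < h, ∀ x, dep i x = c + j → K i x

/-- the way from `x` towards the root of the layer `i` stays in the block `e` until it comes to `y`,
and meets no base before -/
def Inw {τ : ℕ} (B : β → Finset V) (par : Fin τ → V → V) (K : Fin τ → V → Prop) (i : Fin τ)
    (e : β) (x y : V) : Prop :=
  ∃ s, 0 < s ∧ (par i)^[s] x = y ∧ ∀ t < s, (par i)^[t] x ∈ B e ∧ ¬ K i ((par i)^[t] x)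

/-- free block walks -/
def FreeP {τ : ℕ} (R : SimpleGraph V) (B : β → Finset V) (h : ℕ) (par : Fin τ → V → V)
    (K : Fin τ → V → Prop) (Prot : V → Prop) (v : V) : List (V × β) → Prop
  | [] => True
  | (x, e) :: p => FreeP R B h par K Prot v p ∧ ¬ Prot x ∧ (∃ y ∈ B e, R.Adj (pos v p) y) ∧
      (h ≤ p.length + 1 → ∀ i, Inw B par K i e x (pos v p))

section
variable {τ : ℕ} {C : Fin τ → SimpleGraph V} {R : SimpleGraph V} {h : ℕ} {par : Fin τ → V → V}
  {dep : Fin τ → V → ℕ} {K : Fin τ → V → Prop} {Prot : V → Prop} {v : V}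

theorem freeP_suffix {p q : List (V × β)} (hs : q <:+ p) (hp : FreeP R B h par K Prot v p) :
    FreeP R B h par K Prot v q := by
  induction p with
  | nil => rw [List.suffix_nil.1 hs]; trivial
  | cons a p ih =>
    rcases List.suffix_cons_iff.1 hs with h1 | h1
    · rw [h1]; exact hp
    · exact ih h1 hp.1

theorem iter_depth (hR : BRoots C B h par dep K) (i : Fin τ) (u : V) : ∀ s,
    (∀ t < s, ¬ K i ((par i)^[t] u)) → dep i ((par i)^[s] u) + s = dep i u := by
  intro s
  induction s with
  | zero => intro _; rfl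
  | succ s ih =>
    intro hK
    have h1 := ih (fun t ht => hK t (by omega))
    have h2 := hR.depth i _ (hK s (by omega))
    rw [Function.iterate_succ_apply']
    omega

theorem freeP_depth (hR : BRoots C B h par dep K) (hh : 1 ≤ h) (i : Fin τ) : ∀ (d : ℕ)
    (p : List (V × β)), FreeP R B h par K Prot v p → p.length + 1 = h + d →
    ∃ c0, c0 + d ≤ dep i (pos v p) ∧ ∀ c, c0 < c → c ≤ dep i (pos v p) →
      ∃ u, dep i u = c ∧ ¬ K i u := by
  intro d
  induction d with
  | zero => exact fun p _ _ => ⟨dep i (pos v p), le_rfl, fun c h1 h2 => by omega⟩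
  | succ d ih =>
    intro p hp hlen
    cases p with
    | nil => simp only [List.length_nil] at hlen; omega
    | cons a p =>
      obtain ⟨x, e⟩ := a
      simp only [List.length_cons] at hlen
      obtain ⟨c0, h1, h2⟩ := ih p hp.1 (by omega)
      obtain ⟨s, hs, hs1, hs2⟩ := hp.2.2.2 (by omega) i
      have h3 := iter_depth hR i x s (fun t ht => (hs2 t ht).2)
      rw [hs1] at h3
      refine ⟨c0, ?_, ?_⟩
      · show c0 + (d + 1) ≤ dep i x
        omega
      · intro c hc1 hc2
        change c ≤ dep i x at hc2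
        by_cases hc : c ≤ dep i (pos v p)
        · exact h2 c hc1 hc
        · have h4 : dep i x - c < s := by omega
          have h5 := iter_depth hR i x (dep i x - c) (fun t ht => (hs2 t (by omega)).2)
          exact ⟨(par i)^[dep i x - c] x, by omega, (hs2 _ h4).2⟩

theorem freeP_short (hR : BRoots C B h par dep K) (hh : 1 ≤ h) (i : Fin τ) {p : List (V × β)}
    (hp : FreeP R B h par K Prot v p) : p.length + 1 < 2 * h := by
  by_contra hcon
  push Not at hcon
  have h1 : (p.drop (p.length + 1 - 2 * h)) <:+ p := List.drop_suffix _ _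
  have h2 : (p.drop (p.length + 1 - 2 * h)).length + 1 = h + h := by
    rw [List.length_drop]; omega
  obtain ⟨c0, h3, h4⟩ := freeP_depth hR hh i h _ (freeP_suffix h1 hp) h2
  obtain ⟨j, hj, hj'⟩ := hR.hit i (c0 + 1)
  obtain ⟨u, hu1, hu2⟩ := h4 (c0 + 1 + j) (by omega) (by omega)
  exact hu2 (hj' u hu1)

/-- the way up from the exit `z`, as a reduced block walk -/
theorem up_block (hR : BRoots C B h par dep K) (i : Fin τ) {z : V} {e : β} {p : List (V × β)}
    (hp : Valid B v ((z, e) :: p)) (hI : ¬ Inw B par K i e z (pos v p)) : ∀ s : ℕ,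
    (∀ t < s, ¬ K i ((par i)^[t] z)) → ∃ P : List (V × β), Valid B v P ∧
      pos v P = (par i)^[s] z ∧ P.length ≤ p.length + 1 + s ∧
      ((P = ((par i)^[s] z, e) :: p ∧ ∀ t ≤ s, (par i)^[t] z ∈ B e) ∨
        ∃ r < s, (∀ t ≤ r, (par i)^[t] z ∈ B e) ∧ ∃ (e' : β) (p' : List (V × β)),
          P = ((par i)^[s] z, e') :: p' ∧ dep i ((par i)^[s] z) < dep i (pos v p') ∧
          (((par i)^[r] z, e) :: p) <:+ p') := by
  intro s
  induction s with
  | zero =>
    intro _
    refine ⟨(z, e) :: p, hp, rfl, le_rfl, Or.inl ⟨rfl, ?_⟩⟩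
    intro t ht
    have : t = 0 := by omega
    subst this
    exact hp.2.1
  | succ s ih =>
    intro hK
    obtain ⟨P, h1, h2, h3, h4⟩ := ih (fun t ht => hK t (by omega))
    have hKs := hK s (by omega)
    have hd := hR.depth i _ hKs
    obtain ⟨e1, he1, he2⟩ := hR.block i _ hKs
    rw [Function.iterate_succ_apply']
    set u := (par i)^[s] z with hu
    set u' := par i u with hu'
    have hne : u' ≠ u := by
      intro h0; rw [h0] at hd; omega
    rcases h4 with ⟨h5, h6⟩ | ⟨r, hr, h5, e', p', h6, h7, h8⟩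
    · subst h5
      by_cases hb : u' ∈ B e
      · have hne' : u' ≠ pos v p := by
          intro h0
          refine hI ⟨s + 1, by omega, ?_, fun t ht => ⟨h6 t (by omega), hK t ht⟩⟩
          rw [Function.iterate_succ_apply', ← h0]
        refine ⟨(u', e) :: p, ⟨h1.1, hb, h1.2.2.1, hne', h1.2.2.2.2⟩, rfl, ?_, Or.inl ⟨rfl, ?_⟩⟩
        · simp only [List.length_cons]; omega
        · intro t ht
          by_cases ht' : t = s + 1
          · subst ht'
            rw [Function.iterate_succ_apply']
            exact hb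
          · exact h6 t (by omega)
      · refine ⟨(u', e1) :: (u, e) :: p, ⟨h1, he2, he1, hne, ?_⟩, rfl, ?_, Or.inr
          ⟨s, by omega, h6, e1, (u, e) :: p, rfl, ?_, List.suffix_refl _⟩⟩
        · intro q hq
          simp only [List.head?_cons, Option.mem_some_iff] at hq
          subst hq
          intro h0
          simp only at h0
          rw [h0] at hb
          exact hb he2
        · simp only [List.length_cons]; omega
        · show dep i u' < dep i u
          omega
    · subst h6
      by_cases hb : u' ∈ B e'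
      · refine ⟨(u', e') :: p', ⟨h1.1, hb, h1.2.2.1, ?_, h1.2.2.2.2⟩, rfl, ?_, Or.inr
          ⟨r, by omega, h5, e', p', rfl, ?_, h8⟩⟩
        · intro h0; rw [h0] at hd; omega
        · simp only [List.length_cons] at h3 ⊢; omega
        · omega
      · refine ⟨(u', e1) :: (u, e') :: p', ⟨h1, he2, he1, hne, ?_⟩, rfl, ?_, Or.inr
          ⟨r, by omega, h5, e1, (u, e') :: p', rfl, ?_, h8.trans (List.suffix_cons _ _)⟩⟩
        · intro q hq
          simp only [List.head?_cons, Option.mem_some_iff] at hq
          subst hq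
          intro h0
          simp only at h0
          rw [h0] at hb
          exact hb he2
        · simp only [List.length_cons] at h3 ⊢; omega
        · show dep i u' < dep i u
          omega

end

end

end Pool.Agent.H85.ML
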