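import Pool.Agent.H85.ML.Rec

/-!
# Graphs on exactly `n` vertices, and any number `τ ≥ 2` of layers
-/

set_option autoImplicit false

namespace Pool.Agent.H85.ML

open Finset

/-- A strategy of the cops in the game `C'`, `R'` yields one in the game `C`, `R`. -/
theorem MultiWin.sim {V W J J' : Type} {C : J → SimpleGraph V} {R : SimpleGraph V}
    {C' : J' → SimpleGraph W} {R' : SimpleGraph W} (ρ : W → V) (σ : V → W) (e : J' → J)
    (h1 : ∀ j u v, Step (C' j) u v → Step (C (e j)) (ρ u) (ρ v))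
    (h2 : ∀ a b, Step R a b → Step R' (σ a) (σ b)) (h3 : ∀ a, ρ (σ a) = a) {k : ℕ}
    (h : MultiWin C' R' k) : MultiWin C R k := by
  obtain ⟨l, c, hc⟩ := h
  refine ⟨e ∘ l, ρ ∘ c, fun r => ?_⟩
  obtain ⟨m, hm⟩ := hc (σ r)
  refine ⟨m, ?_⟩
  have key : ∀ (m : ℕ) (c : Fin k → W) (r : V), MultiCatch C' R' l m c (σ r) →
      MultiCatch C R (e ∘ l) m (ρ ∘ c) r := by
    intro m
    induction m with
    | zero =>
      rintro c r ⟨i, hi⟩
      exact ⟨i, by rw [Function.comp_apply, hi, h3]⟩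
    | succ m ih =>
      rintro c r (⟨i, hi⟩ | ⟨c', hc', hcatch⟩)
      · exact Or.inl ⟨i, by rw [Function.comp_apply, hi, h3]⟩
      · refine Or.inr ⟨ρ ∘ c', fun i => h1 _ _ _ (hc' i), ?_⟩
        rcases hcatch with ⟨i, hi⟩ | hcatch
        · exact Or.inl ⟨i, by rw [Function.comp_apply, hi, h3]⟩
        · exact Or.inr fun r' hr' => ih c' r' (hcatch (σ r') (h2 r r' hr'))
  exact key m c r hm

/-- the blow-up of a graph: every vertex is replaced by a clique -/
def blow {A W : Type} (G : SimpleGraph A) (ρ : W → A) : SimpleGraph W where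
  Adj u v := u ≠ v ∧ (ρ u = ρ v ∨ G.Adj (ρ u) (ρ v))
  symm := by
    constructor
    rintro u v ⟨h1, h2 | h2⟩
    · exact ⟨h1.symm, Or.inl h2.symm⟩
    · exact ⟨h1.symm, Or.inr h2.symm⟩
  loopless := by
    constructor
    rintro u ⟨h1, _⟩
    exact h1 rfl

theorem blow_connected {A W : Type} {G : SimpleGraph A} (hG : G.Connected) {ρ : W → A}
    (hρ : Function.Surjective ρ) : (blow G ρ).Connected := by
  have h0 : ∀ u v : W, ρ u = ρ v → (blow G ρ).Reachable u v := by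
    intro u v h
    by_cases huv : u = v
    · rw [huv]
    · exact SimpleGraph.Adj.reachable ⟨huv, Or.inl h⟩
  have h1 : ∀ (a b : A), G.Walk a b → ∀ u v : W, ρ u = a → ρ v = b →
      (blow G ρ).Reachable u v := by
    intro a b w
    induction w with
    | nil => exact fun u v hu hv => h0 u v (hu.trans hv.symm)
    | @cons a c b hac _ ih =>
      intro u v hu hv
      obtain ⟨w', hw'⟩ := hρ c
      refine SimpleGraph.Reachable.trans (SimpleGraph.Adj.reachable (v := w') ?_) (ih w' v hw' hv)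
      refine ⟨?_, Or.inr ?_⟩
      · rintro rfl
        rw [hu] at hw'
        exact hac.ne hw'
      · rw [hu, hw']
        exact hac
  obtain ⟨a⟩ := hG.nonempty
  obtain ⟨w, _⟩ := hρ a
  have : Nonempty W := ⟨w⟩
  exact SimpleGraph.Connected.mk fun u v => by
    obtain ⟨p⟩ := hG.preconnected (ρ u) (ρ v)
    exact h1 _ _ p u v rfl rfl

theorem le_cMax {V : Type} [Fintype V] {τ : ℕ} (hτ : 0 < τ) {C : Fin τ → SimpleGraph V}
    {G : SimpleGraph V} (h : Admissible C G) : multiCopNumber C G ≤ cMax τ G := by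
  have : Nonempty (Fin τ) := ⟨⟨0, hτ⟩⟩
  refine le_csSup ⟨Fintype.card V, ?_⟩ ⟨C, h, rfl⟩
  rintro m ⟨C', _, rfl⟩
  exact multiCopNumber_le_card C' G

theorem not_win_zero {V J : Type} [Nonempty V] (C : J → SimpleGraph V) (R : SimpleGraph V) :
    ¬ MultiWin C R 0 := by
  rintro ⟨l, c, hc⟩
  have key : ∀ (m : ℕ) (c : Fin 0 → V) (r : V), ¬ MultiCatch C R l m c r := by
    intro m
    induction m with
    | zero => rintro c r ⟨i, _⟩; exact i.elim0
    | succ m ih =>
      rintro c r (⟨i, _⟩ | ⟨c', _, ⟨i, _⟩ | h⟩)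
      · exact i.elim0
      · exact i.elim0
      · exact ih c' r (h r (Or.inl rfl))
  obtain ⟨m, hm⟩ := hc (Classical.arbitrary V)
  exact key m c _ hm

/-- from two layers on `m ≤ n` vertices to `τ ≥ 2` layers on `n` vertices -/
theorem exists_of_lev {τ n m K : ℕ} (hτ : 2 ≤ τ) (hmn : m ≤ n) (h : Lev 0 m K) (hK : 1 ≤ K) :
    ∃ G : SimpleGraph (Fin n), G.Connected ∧ K ≤ cMax τ G := by
  classical
  obtain ⟨A, _, H, a0, a1, D, T, f, h1, h2, h3, h4, h5⟩ := h
  have hτ0 : 0 < τ := by omega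
  have : Nonempty (Fin τ) := ⟨⟨0, hτ0⟩⟩
  obtain ⟨σ, hσ⟩ : ∃ σ : A → Fin n, Function.Injective σ := by
    have h6 : Fintype.card A ≤ Fintype.card (Fin n) := by rw [h1, Fintype.card_fin]; exact hmn
    obtain ⟨φ⟩ := Function.Embedding.nonempty_of_card_le h6
    exact ⟨φ, φ.injective⟩
  have : Nonempty A := ⟨a0⟩
  set ρ : Fin n → A := Function.invFun σ with hρ
  have hρσ : ∀ a, ρ (σ a) = a := fun a => Function.leftInverse_invFun hσ a
  have hρs : Function.Surjective ρ := fun a => ⟨σ a, hρσ a⟩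
  set e : Fin τ → Fin 2 := fun i => if i.val = 0 then 0 else 1 with he
  have hes : ∀ j : Fin 2, ∃ i, e i = j := by
    intro j
    fin_cases j
    · exact ⟨⟨0, hτ0⟩, by simp [he]⟩
    · exact ⟨⟨1, by omega⟩, by simp [he]⟩
  set C : Fin τ → SimpleGraph (Fin n) := fun i => blow (H (e i)) ρ with hC
  have hadm : Admissible C (⨆ i, C i) := ⟨fun i => blow_connected (h2 _) hρs, rfl⟩
  refine ⟨⨆ i, C i, ?_, ?_⟩
  · exact (hadm.1 ⟨0, hτ0⟩).mono (le_iSup C _)
  · refine le_trans ?_ (le_cMax hτ0 hadm)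
    have h6 := lt_multiCopNumber C (⨆ i, C i) (K - 1) ?_
    · omega
    · intro k hk hwin
      have h7 : MultiWin H (⨆ j, H j) k := by
        refine hwin.sim ρ σ e ?_ ?_ hρσ
        · rintro i u v (rfl | ⟨_, h8 | h8⟩)
          · exact Or.inl rfl
          · exact Or.inl h8
          · exact Or.inr h8
        · rintro a b (rfl | h8)
          · exact Or.inl rfl
          · rw [SimpleGraph.iSup_adj] at h8
            obtain ⟨j, hj⟩ := h8
            obtain ⟨i, hi⟩ := hes j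
            refine Or.inr ?_
            rw [SimpleGraph.iSup_adj]
            refine ⟨i, fun h9 => hj.ne (hσ h9), Or.inr ?_⟩
            rw [hi, hρσ, hρσ]
            exact hj
      exact ((h5 (Fin k)).mono_k hk).survive h7

theorem exists_trivial {τ n : ℕ} (hτ : 2 ≤ τ) (hn : 1 ≤ n) :
    ∃ G : SimpleGraph (Fin n), G.Connected ∧ 1 ≤ cMax τ G := by
  have hτ0 : 0 < τ := by omega
  have : Nonempty (Fin τ) := ⟨⟨0, hτ0⟩⟩
  have : Nonempty (Fin n) := ⟨⟨0, by omega⟩⟩
  have hadm : Admissible (fun _ : Fin τ => (⊤ : SimpleGraph (Fin n))) ⊤ :=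
    ⟨fun _ => SimpleGraph.connected_top, iSup_const⟩
  refine ⟨⊤, SimpleGraph.connected_top, le_trans ?_ (le_cMax hτ0 hadm)⟩
  refine lt_multiCopNumber _ _ 0 fun k hk => ?_
  obtain rfl : k = 0 := by omega
  exact not_win_zero _ _

theorem main (τ : ℕ) (hτ : 2 ≤ τ) (n : ℕ) (hn : 1 ≤ n) : ∃ G : SimpleGraph (Fin n),
    G.Connected ∧ n ≤ 2 ^ (90 + 29 * logStar n) * cMax τ G := by
  have hA : (21600 ^ 2) ^ logStar n ≤ 2 ^ (29 * logStar n) := by
    rw [pow_mul]
    exact Nat.pow_le_pow_left (by norm_num) _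
  by_cases hbig : n < 2 ^ 90
  · obtain ⟨G, hG, h1⟩ := exists_trivial hτ hn
    refine ⟨G, hG, ?_⟩
    have h2 : (2 : ℕ) ^ 90 ≤ 2 ^ (90 + 29 * logStar n) :=
      Nat.pow_le_pow_right (by norm_num) (by omega)
    calc n ≤ 2 ^ (90 + 29 * logStar n) * 1 := by rw [mul_one]; exact hbig.le.trans h2
      _ ≤ _ := Nat.mul_le_mul_left _ h1
  · push Not at hbig
    obtain ⟨m, K, hK, hmn, hlev, hle⟩ := exists_lev n hbig
    obtain ⟨G, hG, h1⟩ := exists_of_lev hτ hmn hlev hK
    refine ⟨G, hG, hle.trans ?_⟩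
    refine Nat.mul_le_mul ?_ h1
    rw [pow_add]
    exact Nat.mul_le_mul_left _ hA

end Pool.Agent.H85.ML
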