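import Mathlib

/-!
# The multi-layer game of cops and robbers

Definitions of the game, and the criterion `Reloc` for the robber: against at most `k` cops the
robber can play `T + 1` rounds at a time, such that at the end of these rounds he is in a good
position with respect to any second group of at most `k` cops.
-/

set_option autoImplicit false

namespace Pool.Agent.H85.ML

/-- A step in the graph `G`: stay, or move along an edge. -/
def Step {V : Type} (G : SimpleGraph V) (u v : V) : Prop := u = v ∨ G.Adj u v

/-- The multi-layer game with cop layers `C j`, `j ∈ J`, and robber layer `R`. The cop `i` is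
confined to the layer `C (l i)`. The cops at the positions `c` are to move, the robber is at `r`,
and the cops can catch him within `m` rounds. -/
def MultiCatch {V J ι : Type} (C : J → SimpleGraph V) (R : SimpleGraph V) (l : ι → J) :
    ℕ → (ι → V) → V → Prop
  | 0, c, r => ∃ i, c i = r
  | m + 1, c, r => (∃ i, c i = r) ∨ ∃ c' : ι → V, (∀ i, Step (C (l i)) (c i) (c' i)) ∧
      ((∃ i, c' i = r) ∨ ∀ r', Step R r r' → MultiCatch C R l m c' r')

/-- `k` cops win the game for some allocation `l` to the layers and some starting vertices `c`: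
whatever vertex `r` the robber chooses, he is caught. -/
def MultiWin {V J : Type} (C : J → SimpleGraph V) (R : SimpleGraph V) (k : ℕ) : Prop :=
  ∃ (l : Fin k → J) (c : Fin k → V), ∀ r : V, ∃ m, MultiCatch C R l m c r

/-- The multi-layer cop number `c(𝒢)`. -/
noncomputable def multiCopNumber {V J : Type} (C : J → SimpleGraph V) (R : SimpleGraph V) : ℕ :=
  sInf {k | MultiWin C R k}

/-- The layers `C i`, `i < τ`, are connected and their union is `G`. -/
def Admissible {V : Type} {τ : ℕ} (C : Fin τ → SimpleGraph V) (G : SimpleGraph V) : Prop :=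
  (∀ i, (C i).Connected) ∧ ⨆ i, C i = G

/-- The extremal multi-layer cop number `c^max_τ(G)`: the maximum of the multi-layer cop numbers of
all admissible families of `τ` cop layers, the robber layer being `G`. -/
noncomputable def cMax {V : Type} (τ : ℕ) (G : SimpleGraph V) : ℕ :=
  sSup {m | ∃ C : Fin τ → SimpleGraph V, Admissible C G ∧ m = multiCopNumber C G}

theorem multiWin_card {V J : Type} [Fintype V] [Nonempty J] (C : J → SimpleGraph V)
    (R : SimpleGraph V) : MultiWin C R (Fintype.card V) :=
  ⟨fun _ => Classical.arbitrary J, (Fintype.equivFin V).symm,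
    fun r => ⟨0, (Fintype.equivFin V) r, by simp⟩⟩

theorem lt_multiCopNumber {V J : Type} [Fintype V] [Nonempty J] (C : J → SimpleGraph V)
    (R : SimpleGraph V) (k : ℕ) (h : ∀ k' ≤ k, ¬ MultiWin C R k') : k < multiCopNumber C R := by
  by_contra hcon
  push Not at hcon
  have h1 : multiCopNumber C R ∈ {k | MultiWin C R k} := Nat.sInf_mem ⟨_, multiWin_card C R⟩
  exact h _ hcon h1

theorem multiCopNumber_le_card {V J : Type} [Fintype V] [Nonempty J] (C : J → SimpleGraph V)
    (R : SimpleGraph V) : multiCopNumber C R ≤ Fintype.card V :=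
  Nat.sInf_le (multiWin_card C R)

section
variable {A J ι : Type}

/-- all cops make a legal move -/
def Moves (H : J → SimpleGraph A) (l : ι → J) (c c' : ι → A) : Prop :=
  ∀ i, Step (H (l i)) (c i) (c' i)

/-- The robber at `r` (the cops are to move) can play `t + 1` rounds without being caught by the
cops of the group `S` (at `c`). In the last round he does not move, and then `P` holds for the
second group of cops (at `d` in the beginning) and the robber. -/
def Play (H : J → SimpleGraph A) (S : Finset ι) (l l' : ι → J) (P : (ι → A) → A → Prop) :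
    ℕ → (ι → A) → (ι → A) → A → Prop
  | 0, c, d, r => (∀ i ∈ S, c i ≠ r) ∧ ∀ c' d', Moves H l c c' → Moves H l' d d' →
      (∀ i ∈ S, c' i ≠ r) ∧ P d' r
  | t + 1, c, d, r => (∀ i ∈ S, c i ≠ r) ∧ ∀ c' d', Moves H l c c' → Moves H l' d d' →
      (∀ i ∈ S, c' i ≠ r) ∧ ∃ r', Step (⨆ j, H j) r r' ∧ Play H S l l' P t c' d' r'

/-- The robber's criterion. -/
def Reloc (ι : Type) (H : J → SimpleGraph A) (k T : ℕ) : Prop :=
  ∃ Good : Finset ι → (ι → J) → (ι → A) → A → Prop,
    (∀ S l c, S.card ≤ k → ∃ a, Good S l c a) ∧
    (∀ S S' l c a, S' ⊆ S → Good S l c a → Good S' l c a) ∧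
    (∀ (S S' : Finset ι) (l l' : ι → J) (c d : ι → A) (a : A), S.card ≤ k → S'.card ≤ k →
      Good S l c a → Play H S l l' (Good S' l') T c d a)

theorem Reloc.survive {k T : ℕ} {H : J → SimpleGraph A} (h : Reloc (Fin k) H k T) :
    ¬ MultiWin H (⨆ j, H j) k := by
  rintro ⟨l, c, hc⟩
  obtain ⟨Good, h1, -, h3⟩ := h
  have key : ∀ n, (∀ c a, Good Finset.univ l c a → ¬ MultiCatch H (⨆ j, H j) l n c a) ∧
      (∀ t c a, Play H Finset.univ l l (Good Finset.univ l) t c c a →
        ¬ MultiCatch H (⨆ j, H j) l n c a) := by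
    intro n
    have hred : (∀ t c a, Play H Finset.univ l l (Good Finset.univ l) t c c a →
        ¬ MultiCatch H (⨆ j, H j) l n c a) →
        (∀ c a, Good Finset.univ l c a → ¬ MultiCatch H (⨆ j, H j) l n c a) :=
      fun h c a hg => h T c a (h3 _ _ l l c c a (by simp) (by simp) hg)
    induction n with
    | zero =>
      have h2 : ∀ t c a, Play H Finset.univ l l (Good Finset.univ l) t c c a →
          ¬ MultiCatch H (⨆ j, H j) l 0 c a := by
        rintro t c a hp ⟨i, hi⟩
        cases t with
        | zero => exact hp.1 i (Finset.mem_univ _) hi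
        | succ t => exact hp.1 i (Finset.mem_univ _) hi
      exact ⟨hred h2, h2⟩
    | succ n ih =>
      have h2 : ∀ t c a, Play H Finset.univ l l (Good Finset.univ l) t c c a →
          ¬ MultiCatch H (⨆ j, H j) l (n + 1) c a := by
        rintro t c a hp (⟨i, hi⟩ | ⟨c', hc', hcatch⟩)
        · cases t with
          | zero => exact hp.1 i (Finset.mem_univ _) hi
          | succ t => exact hp.1 i (Finset.mem_univ _) hi
        · have ih' := ih (fun h c a hg => h T c a (h3 _ _ l l c c a (by simp) (by simp) hg))
          cases t with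
          | zero =>
            obtain ⟨h4, h5⟩ := hp.2 c' c' hc' hc'
            rcases hcatch with ⟨i, hi⟩ | hcatch
            · exact h4 i (Finset.mem_univ _) hi
            · exact ih'.1 c' a h5 (hcatch a (Or.inl rfl))
          | succ t =>
            obtain ⟨h4, r', h5, h6⟩ := hp.2 c' c' hc' hc'
            rcases hcatch with ⟨i, hi⟩ | hcatch
            · exact h4 i (Finset.mem_univ _) hi
            · exact ih'.2 t c' r' h6 (hcatch r' h5)
      exact ⟨hred h2, h2⟩
  obtain ⟨a, ha⟩ := h1 Finset.univ l c (by simp)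
  obtain ⟨m, hm⟩ := hc a
  exact (key m).1 c a ha hm

theorem Reloc.mono_k {k k' T : ℕ} {H : J → SimpleGraph A} (h : Reloc ι H k T) (hk : k' ≤ k) :
    Reloc ι H k' T := by
  obtain ⟨Good, h1, h2, h3⟩ := h
  exact ⟨Good, fun S l c hS => h1 S l c (hS.trans hk), h2, fun S S' l l' c d a hS hS' =>
    h3 S S' l l' c d a (hS.trans hk) (hS'.trans hk)⟩

/-- The starting point: no cops. -/
theorem reloc_zero [Nonempty A] (H : J → SimpleGraph A) : Reloc ι H 0 0 := by
  refine ⟨fun _ _ _ _ => True, fun _ _ _ _ => ⟨Classical.arbitrary A, trivial⟩,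
    fun _ _ _ _ _ _ _ => trivial, ?_⟩
  intro S S' l l' c d a hS _ _
  have : S = ∅ := Finset.card_eq_zero.1 (Nat.le_zero.1 hS)
  subst this
  exact ⟨by simp, fun _ _ _ _ => ⟨by simp, trivial⟩⟩

end

end Pool.Agent.H85.ML
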