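import Pool.Agent.H85.ML.Game

/-!
# Products with expanders

The two layers of the product of `(A; H 0, H 1)` with the graph on `Fin N × Fin 3` given by three
permutations, and the robber's criterion for this product.
-/

set_option autoImplicit false

namespace Pool.Agent.H85.ML

open Finset

variable {A ι : Type} {N : ℕ}

/-- The index of the cell of `x` in the layer `i`: the vertices of the base graph are the edges
`(y, m)` of the bipartite graph in which `y` on the left is joined to `π m y` on the right, and the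
cells are the sets of edges with the same left end (`i = 0`) or the same right end (`i = 1`). -/
def cell (π : Fin 3 → Equiv.Perm (Fin N)) (i : Fin 2) (x : Fin N × Fin 3) : Fin N :=
  if i = 0 then x.1 else π x.2 x.1

theorem cell_zero (π : Fin 3 → Equiv.Perm (Fin N)) (x : Fin N × Fin 3) :
    cell π 0 x = x.1 := by simp [cell]

theorem cell_one (π : Fin 3 → Equiv.Perm (Fin N)) (x : Fin N × Fin 3) :
    cell π 1 x = π x.2 x.1 := by simp [cell]

theorem cell_rep {π : Fin 3 → Equiv.Perm (Fin N)} (h0 : π 0 = 1) (i : Fin 2) (y : Fin N) :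
    cell π i (y, 0) = y := by
  unfold cell
  split_ifs
  · rfl
  · simp only [h0]
    rfl

/-- the edges between the consecutive cells -/
def Port (a0 a1 : A) (u v : (Fin N × Fin 3) × A) : Prop :=
  u.1.2 = 0 ∧ v.1.2 = 0 ∧ v.1.1.val = u.1.1.val + 1 ∧ u.2 = a1 ∧ v.2 = a0

/-- the layers of the product -/
def layer (π : Fin 3 → Equiv.Perm (Fin N)) (H : Fin 2 → SimpleGraph A) (a0 a1 : A)
    (i : Fin 2) : SimpleGraph ((Fin N × Fin 3) × A) where
  Adj u v := (u.1 = v.1 ∧ (H i).Adj u.2 v.2) ∨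
    (u.2 = v.2 ∧ u.1 ≠ v.1 ∧ cell π i u.1 = cell π i v.1) ∨
    Port a0 a1 u v ∨ Port a0 a1 v u
  symm := by
    constructor
    rintro u v (⟨h1, h2⟩ | ⟨h1, h2, h3⟩ | h | h)
    · exact Or.inl ⟨h1.symm, h2.symm⟩
    · exact Or.inr (Or.inl ⟨h1.symm, h2.symm, h3.symm⟩)
    · exact Or.inr (Or.inr (Or.inr h))
    · exact Or.inr (Or.inr (Or.inl h))
  loopless := by
    constructor
    rintro u (⟨_, h⟩ | ⟨_, h, _⟩ | h | h)
    · exact (H i).loopless.irrefl _ h
    · exact h rfl
    · have := h.2.2.1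
      omega
    · have := h.2.2.1
      omega

/-- the retraction to the fibre over `x` -/
def pos (π : Fin 3 → Equiv.Perm (Fin N)) (a0 a1 : A) (i : Fin 2) (x : Fin N × Fin 3)
    (v : (Fin N × Fin 3) × A) : A :=
  if cell π i v.1 = cell π i x then v.2 else if cell π i v.1 < cell π i x then a0 else a1

theorem pos_port {π : Fin 3 → Equiv.Perm (Fin N)} (h0 : π 0 = 1) (a0 a1 : A) (i : Fin 2)
    (x : Fin N × Fin 3) {u v : (Fin N × Fin 3) × A} (h : Port a0 a1 u v) :
    pos π a0 a1 i x u = pos π a0 a1 i x v := by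
  obtain ⟨⟨u1, u2⟩, u3⟩ := u
  obtain ⟨⟨v1, v2⟩, v3⟩ := v
  obtain ⟨h1, h2, h3, h4, h5⟩ := h
  simp only at h1 h2 h3 h4 h5
  subst h1 h2 h4 h5
  unfold pos
  simp only [cell_rep h0]
  set z := cell π i x
  rcases lt_trichotomy u1.val z.val with h | h | h
  · have e1 : u1 ≠ z := fun e => by rw [e] at h; omega
    have e2 : u1 < z := h
    rw [if_neg e1, if_pos e2]
    by_cases h6 : v1 = z
    · rw [if_pos h6]
    · have h7 : v1 < z := by
        have : v1.val ≠ z.val := fun e => h6 (Fin.ext e)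
        exact Fin.lt_def.2 (by omega)
      rw [if_neg h6, if_pos h7]
  · have e1 : u1 = z := Fin.ext h
    have e2 : v1 ≠ z := fun e => by rw [e] at h3; omega
    have e3 : ¬ v1 < z := by rw [Fin.lt_def]; omega
    rw [if_pos e1, if_neg e2, if_neg e3]
  · have e1 : u1 ≠ z := fun e => by rw [e] at h; omega
    have e2 : ¬ u1 < z := by rw [Fin.lt_def]; omega
    have e3 : v1 ≠ z := fun e => by rw [e] at h3; omega
    have e4 : ¬ v1 < z := by rw [Fin.lt_def]; omega
    rw [if_neg e1, if_neg e2, if_neg e3, if_neg e4]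

theorem pos_step {π : Fin 3 → Equiv.Perm (Fin N)} (h0 : π 0 = 1) (H : Fin 2 → SimpleGraph A)
    (a0 a1 : A) (i : Fin 2) (x : Fin N × Fin 3) {u v : (Fin N × Fin 3) × A}
    (h : Step (layer π H a0 a1 i) u v) :
    Step (H i) (pos π a0 a1 i x u) (pos π a0 a1 i x v) := by
  rcases h with h | ⟨h1, h2⟩ | ⟨h1, h2, h3⟩ | h | h
  · rw [h]; exact Or.inl rfl
  · unfold pos
    rw [h1]
    split_ifs
    · exact Or.inr h2
    · exact Or.inl rfl
    · exact Or.inl rfl
  · unfold pos
    rw [h1, h3]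
    exact Or.inl rfl
  · rw [pos_port h0 a0 a1 i x h]; exact Or.inl rfl
  · rw [pos_port h0 a0 a1 i x h]; exact Or.inl rfl

/-- `f i` is a Lipschitz function on the layer `i` with `f i a0 = 0` and the maximum `f i a1 = D` -/
structure Far (H : Fin 2 → SimpleGraph A) (a0 a1 : A) (D : ℕ) (f : Fin 2 → A → ℕ) : Prop where
  zero : ∀ i, f i a0 = 0
  top : ∀ i, f i a1 = D
  le : ∀ i a, f i a ≤ D
  lip : ∀ i a b, (H i).Adj a b → f i b ≤ f i a + 1

/-- the height function of the product -/
def height (π : Fin 3 → Equiv.Perm (Fin N)) (D : ℕ) (f : Fin 2 → A → ℕ) (i : Fin 2)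
    (v : (Fin N × Fin 3) × A) : ℕ :=
  (cell π i v.1).val * D + f i v.2

section
variable {π : Fin 3 → Equiv.Perm (Fin N)} {H : Fin 2 → SimpleGraph A} {a0 a1 : A} {D : ℕ}
    {f : Fin 2 → A → ℕ}

theorem height_port (h0 : π 0 = 1) (hf : Far H a0 a1 D f) (i : Fin 2) {u v : (Fin N × Fin 3) × A}
    (h : Port a0 a1 u v) : height π D f i u = height π D f i v := by
  obtain ⟨⟨u1, u2⟩, u3⟩ := u
  obtain ⟨⟨v1, v2⟩, v3⟩ := v
  obtain ⟨h1, h2, h3, h4, h5⟩ := h
  simp only at h1 h2 h3 h4 h5
  subst h1 h2 h4 h5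
  unfold height
  simp only [cell_rep h0]
  rw [hf.zero, hf.top, h3]
  ring

theorem height_lip (h0 : π 0 = 1) (hf : Far H a0 a1 D f) (i : Fin 2) {u v : (Fin N × Fin 3) × A}
    (h : (layer π H a0 a1 i).Adj u v) : height π D f i v ≤ height π D f i u + 1 := by
  rcases h with ⟨h1, h2⟩ | ⟨h1, h2, h3⟩ | h | h
  · unfold height
    rw [h1]
    have := hf.lip i _ _ h2
    omega
  · unfold height
    rw [h1, h3]
    omega
  · rw [height_port h0 hf i h]; omega
  · rw [height_port h0 hf i h]; omega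

theorem far_prod (h0 : π 0 = 1) (hf : Far H a0 a1 D f) (hN : 0 < N) :
    Far (layer π H a0 a1) ((⟨0, hN⟩, 0), a0) ((⟨N - 1, by omega⟩, 0), a1) (N * D)
      (height π D f) where
  zero i := by simp [height, cell_rep h0, hf.zero]
  top i := by
    simp only [height, cell_rep h0, hf.top]
    obtain ⟨n, rfl⟩ : ∃ n, N = n + 1 := ⟨N - 1, by omega⟩
    simp only [Nat.add_sub_cancel]
    ring
  le i v := by
    unfold height
    have h1 := hf.le i v.2
    have h2 : (cell π i v.1).val + 1 ≤ N := (cell π i v.1).isLt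
    calc (cell π i v.1).val * D + f i v.2 ≤ ((cell π i v.1).val + 1) * D := by
          rw [add_mul, one_mul]; omega
      _ ≤ N * D := Nat.mul_le_mul_right _ h2
  lip i u v h := height_lip h0 hf i h

theorem layer_connected (h0 : π 0 = 1) (hH : ∀ i, (H i).Connected) (hN : 0 < N) (i : Fin 2) :
    (layer π H a0 a1 i).Connected := by
  set C := layer π H a0 a1 i with hC
  have h1 : ∀ (x : Fin N × Fin 3) (a b : A), C.Reachable (x, a) (x, b) := by
    intro x a b
    obtain ⟨w⟩ := (hH i).preconnected a b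
    induction w with
    | nil => exact SimpleGraph.Reachable.refl _
    | cons h _ ih =>
      refine SimpleGraph.Reachable.trans (SimpleGraph.Adj.reachable ?_) ih
      exact Or.inl ⟨rfl, h⟩
  have h2 : ∀ (x : Fin N × Fin 3) (a : A), C.Reachable (x, a) ((cell π i x, 0), a) := by
    intro x a
    by_cases h : x = (cell π i x, 0)
    · rw [← h]
    · refine SimpleGraph.Adj.reachable ?_
      exact Or.inr (Or.inl ⟨rfl, h, by simp [cell_rep h0]⟩)
  have h3 : ∀ (n : ℕ) (hn : n < N) (a : A), C.Reachable ((⟨0, hN⟩, 0), a0)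
      ((⟨n, hn⟩, 0), a) := by
    intro n
    induction n with
    | zero => exact fun hn a => h1 _ _ _
    | succ n ih =>
      intro hn a
      refine (ih (by omega) a1).trans ?_
      refine SimpleGraph.Reachable.trans (SimpleGraph.Adj.reachable (v := ((⟨n + 1, hn⟩, 0), a0))
        ?_) (h1 _ _ _)
      exact Or.inr (Or.inr (Or.inl ⟨rfl, rfl, rfl, rfl, rfl⟩))
  have h4 : ∀ v : (Fin N × Fin 3) × A, C.Reachable ((⟨0, hN⟩, 0), a0) v := by
    rintro ⟨x, a⟩
    exact (h3 _ (cell π i x).isLt a).trans (h2 x a).symm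
  have : Nonempty ((Fin N × Fin 3) × A) := ⟨((⟨0, hN⟩, 0), a0)⟩
  exact SimpleGraph.Connected.mk fun u v => (h4 u).symm.trans (h4 v)

/-- the positions `c` differ from `c0` by at most `t` in height -/
def Near (π : Fin 3 → Equiv.Perm (Fin N)) (D : ℕ) (f : Fin 2 → A → ℕ) (l : ι → Fin 2) (t : ℕ)
    (c0 c : ι → (Fin N × Fin 3) × A) : Prop :=
  ∀ i, height π D f (l i) (c i) ≤ height π D f (l i) (c0 i) + t ∧
    height π D f (l i) (c0 i) ≤ height π D f (l i) (c i) + t

theorem near_refl (π : Fin 3 → Equiv.Perm (Fin N)) (D : ℕ) (f : Fin 2 → A → ℕ) (l : ι → Fin 2)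
    (c : ι → (Fin N × Fin 3) × A) : Near π D f l 0 c c := fun _ => ⟨le_rfl, le_rfl⟩

theorem near_step (h0 : π 0 = 1) (hf : Far H a0 a1 D f) {l : ι → Fin 2} {t : ℕ}
    {c0 c c' : ι → (Fin N × Fin 3) × A} (h : Near π D f l t c0 c)
    (hc : Moves (layer π H a0 a1) l c c') : Near π D f l (t + 1) c0 c' := by
  intro i
  obtain ⟨h1, h2⟩ := h i
  rcases hc i with h3 | h3
  · rw [← h3]; omega
  · have h4 := height_lip h0 hf (l i) h3
    have h5 := height_lip h0 hf (l i) h3.symm
    omega

theorem near_cell (hf : Far H a0 a1 D f) {l : ι → Fin 2} {t : ℕ}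
    {c0 c : ι → (Fin N × Fin 3) × A} (h : Near π D f l t c0 c) (ht : t < D) (i : ι) :
    (cell π (l i) (c i).1).val ≤ (cell π (l i) (c0 i).1).val + 1 ∧
    (cell π (l i) (c0 i).1).val ≤ (cell π (l i) (c i).1).val + 1 := by
  obtain ⟨h1, h2⟩ := h i
  unfold height at h1 h2
  have h3 := hf.le (l i) (c i).2
  have h4 := hf.le (l i) (c0 i).2
  set p := (cell π (l i) (c i).1).val
  set q := (cell π (l i) (c0 i).1).val
  constructor
  · have : p * D < (q + 2) * D := by rw [add_mul]; omega
    have := Nat.lt_of_mul_lt_mul_right this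
    omega
  · have : q * D < (p + 2) * D := by rw [add_mul]; omega
    have := Nat.lt_of_mul_lt_mul_right this
    omega

/-- the cops of `S` whose cell has distance at most `ρ` from the cell of `x` -/
def Act (π : Fin 3 → Equiv.Perm (Fin N)) (ρ : ℕ) (S : Finset ι) (l : ι → Fin 2)
    (c : ι → (Fin N × Fin 3) × A) (x : Fin N × Fin 3) : Finset ι :=
  S.filter fun i => (cell π (l i) (c i).1).val ≤ (cell π (l i) x).val + ρ ∧
    (cell π (l i) x).val ≤ (cell π (l i) (c i).1).val + ρ

/-- the dense fibres -/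
def Dn (π : Fin 3 → Equiv.Perm (Fin N)) (ρ k : ℕ) (S : Finset ι) (l : ι → Fin 2)
    (c : ι → (Fin N × Fin 3) × A) : Finset (Fin N × Fin 3) :=
  univ.filter fun x => k < (Act π ρ S l c x).card

theorem card_cells (π : Fin 3 → Equiv.Perm (Fin N)) (i : Fin 2) (y : ℕ) :
    (univ.filter fun x : Fin N × Fin 3 => y ≤ (cell π i x).val + 2 ∧
      (cell π i x).val ≤ y + 2).card ≤ 15 := by
  classical
  have h1 : (univ.filter fun x : Fin N × Fin 3 => y ≤ (cell π i x).val + 2 ∧
      (cell π i x).val ≤ y + 2).card ≤ ((Icc (y - 2) (y + 2)) ×ˢ (univ : Finset (Fin 3))).card := by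
    refine Finset.card_le_card_of_injOn (fun x => ((cell π i x).val, x.2)) ?_ ?_
    · intro x hx
      simp only [coe_filter, mem_univ, true_and, Set.mem_ofPred_eq] at hx
      simp only [coe_product, coe_Icc, coe_univ, Set.mem_prod, Set.mem_Icc, Set.mem_univ, and_true]
      omega
    · rintro ⟨x1, x2⟩ _ ⟨y1, y2⟩ _ hxy
      simp only [Prod.mk.injEq] at hxy
      obtain ⟨h2, h3⟩ := hxy
      subst h3
      have h4 := Fin.ext h2
      unfold cell at h4
      split_ifs at h4 with h5
      · simpa using h4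
      · simpa using h4
  refine h1.trans ?_
  rw [card_product, Nat.card_Icc]
  simp only [card_univ, Fintype.card_fin]
  omega

theorem card_Dn (π : Fin 3 → Equiv.Perm (Fin N)) (k k' : ℕ) (S : Finset ι) (l : ι → Fin 2)
    (c : ι → (Fin N × Fin 3) × A) (hS : S.card ≤ k') (hk : 7200 * k' ≤ (k + 1) * N) :
    480 * (Dn π 2 k S l c).card ≤ N := by
  classical
  have h1 : (Dn π 2 k S l c).card * (k + 1) ≤ ∑ x : Fin N × Fin 3, (Act π 2 S l c x).card := by
    calc (Dn π 2 k S l c).card * (k + 1) = ∑ _x ∈ Dn π 2 k S l c, (k + 1) := by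
          rw [sum_const, smul_eq_mul]
      _ ≤ ∑ x ∈ Dn π 2 k S l c, (Act π 2 S l c x).card := by
          refine sum_le_sum fun x hx => ?_
          simp only [Dn, mem_filter, mem_univ, true_and] at hx
          exact hx
      _ ≤ ∑ x : Fin N × Fin 3, (Act π 2 S l c x).card :=
          sum_le_sum_of_subset (subset_univ _)
  have h2 : ∑ x : Fin N × Fin 3, (Act π 2 S l c x).card = ∑ i ∈ S, (univ.filter fun x :
      Fin N × Fin 3 => (cell π (l i) (c i).1).val ≤ (cell π (l i) x).val + 2 ∧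
        (cell π (l i) x).val ≤ (cell π (l i) (c i).1).val + 2).card := by
    unfold Act
    simp only [card_filter]
    rw [sum_comm]
  have h3 : ∑ x : Fin N × Fin 3, (Act π 2 S l c x).card ≤ S.card * 15 := by
    rw [h2]
    refine (sum_le_sum fun i _ => card_cells π (l i) (cell π (l i) (c i).1).val).trans ?_
    rw [sum_const, smul_eq_mul]
  have h4 : (k + 1) * (480 * (Dn π 2 k S l c).card) ≤ (k + 1) * N := by nlinarith
  exact Nat.le_of_mul_le_mul_left h4 (Nat.succ_pos k)

/-- walks of length `s` outside of `D` in the base graph -/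
def Reach (π : Fin 3 → Equiv.Perm (Fin N)) (D : Finset (Fin N × Fin 3)) :
    ℕ → Fin N × Fin 3 → Fin N × Fin 3 → Prop
  | 0, x, z => x = z ∧ x ∉ D
  | s + 1, x, z => x ∉ D ∧ ∃ y, (∃ i, cell π i x = cell π i y) ∧ Reach π D s y z

theorem reach_left {D : Finset (Fin N × Fin 3)} {s : ℕ}
    {x z : Fin N × Fin 3} (h : Reach π D s x z) : x ∉ D := by
  cases s with
  | zero => exact h.2
  | succ s => exact h.1

theorem reach_mono {D D' : Finset (Fin N × Fin 3)} (hD : D' ⊆ D)
    {s : ℕ} : ∀ {x z : Fin N × Fin 3}, Reach π D s x z → Reach π D' s x z := by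
  induction s with
  | zero => exact fun h => ⟨h.1, fun h' => h.2 (hD h')⟩
  | succ s ih =>
    rintro x z ⟨h1, y, h2, h3⟩
    exact ⟨fun h' => h1 (hD h'), y, h2, ih h3⟩

open Classical in
/-- more than half of the vertices can be reached from `x` -/
def Giant (π : Fin 3 → Equiv.Perm (Fin N)) (L : ℕ) (D : Finset (Fin N × Fin 3))
    (x : Fin N × Fin 3) : Prop :=
  3 * N < 2 * (univ.filter fun z => Reach π D L x z).card

theorem giant_mono {L : ℕ} {D D' : Finset (Fin N × Fin 3)}
    (hD : D' ⊆ D) {x : Fin N × Fin 3} (h : Giant π L D x) : Giant π L D' x := by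
  classical
  unfold Giant at *
  refine lt_of_lt_of_le h (Nat.mul_le_mul_left 2 (card_le_card fun z hz => ?_))
  simp only [mem_filter, mem_univ, true_and] at *
  exact reach_mono hD hz

theorem giant_not_mem {L : ℕ} {D : Finset (Fin N × Fin 3)}
    {x : Fin N × Fin 3} (h : Giant π L D x) : x ∉ D := by
  classical
  unfold Giant at h
  obtain ⟨z, hz⟩ := card_pos.1 (by omega : 0 < (univ.filter fun z => Reach π D L x z).card)
  simp only [mem_filter, mem_univ, true_and] at hz
  exact reach_left hz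

open Classical in
/-- The base graph is robust: if at most `N / 480` vertices are deleted, then from more than half of
the vertices one can reach more than half of the vertices in `L` steps. -/
def Rob (π : Fin 3 → Equiv.Perm (Fin N)) (L : ℕ) : Prop :=
  ∀ D : Finset (Fin N × Fin 3), 480 * D.card ≤ N →
    3 * N < 2 * (univ.filter fun x => Giant π L D x).card

theorem safe (hf : Far H a0 a1 D f) {S : Finset ι} {l : ι → Fin 2} {t : ℕ}
    {c0 c : ι → (Fin N × Fin 3) × A} (h : Near π D f l t c0 c) (ht : t < D)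
    {x : Fin N × Fin 3} {a : A}
    (hs : ∀ i ∈ Act π 1 S l c0 x, pos π a0 a1 (l i) x (c i) ≠ a) :
    ∀ i ∈ S, c i ≠ (x, a) := by
  intro i hi hc
  have h1 : i ∈ Act π 1 S l c0 x := by
    have h2 := near_cell hf h ht i
    rw [hc] at h2
    simp only [Act, mem_filter]
    exact ⟨hi, h2.2, h2.1⟩
  apply hs i h1
  rw [hc]
  simp [pos]

theorem step_fibre {x : Fin N × Fin 3} {a b : A} (h : Step (⨆ j, H j) a b) :
    Step (⨆ i, layer π H a0 a1 i) (x, a) (x, b) := by
  rcases h with h | h
  · exact Or.inl (by rw [h])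
  · rw [SimpleGraph.iSup_adj] at h
    obtain ⟨j, hj⟩ := h
    refine Or.inr ?_
    rw [SimpleGraph.iSup_adj]
    exact ⟨j, Or.inl ⟨rfl, hj⟩⟩

theorem step_base {x y : Fin N × Fin 3} {a : A} (h : ∃ i, cell π i x = cell π i y) :
    Step (⨆ i, layer π H a0 a1 i) (x, a) (y, a) := by
  obtain ⟨i, hi⟩ := h
  by_cases hxy : x = y
  · exact Or.inl (by rw [hxy])
  · refine Or.inr ?_
    rw [SimpleGraph.iSup_adj]
    exact ⟨i, Or.inr (Or.inl ⟨rfl, hxy, hi⟩)⟩

theorem moves_pos (h0 : π 0 = 1) {l : ι → Fin 2} {c c' : ι → (Fin N × Fin 3) × A}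
    (h : Moves (layer π H a0 a1) l c c') (x : Fin N × Fin 3) :
    Moves H l (fun i => pos π a0 a1 (l i) x (c i))
      (fun i => pos π a0 a1 (l i) x (c' i)) := fun i => pos_step h0 H a0 a1 (l i) x (h i)

/-- the robber plays in the fibre over `x`, and in the last round he moves to the fibre over `y` -/
theorem stage_one (h0 : π 0 = 1) (hf : Far H a0 a1 D f) {S : Finset ι} {l l' : ι → Fin 2}
    {c0 d0 : ι → (Fin N × Fin 3) × A} {x y : Fin N × Fin 3} (hxy : ∃ i, cell π i x = cell π i y)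
    {P : (ι → (Fin N × Fin 3) × A) → (Fin N × Fin 3) × A → Prop}
    {G : (ι → A) → A → Prop} (u : ℕ) : ∀ (t r : ℕ) (c d : ι → (Fin N × Fin 3) × A) (a : A),
    Play H (Act π 1 S l c0 x) l l G t
      (fun i => pos π a0 a1 (l i) x (c i)) (fun i => pos π a0 a1 (l i) y (c i)) a →
    Near π D f l r c0 c → Near π D f l' r d0 d → r + t + 1 < D →
    (∀ c' d' a', Near π D f l (r + t + 1) c0 c' → Near π D f l' (r + t + 1) d0 d' →
      G (fun i => pos π a0 a1 (l i) y (c' i)) a' →
      Play (layer π H a0 a1) S l l' P u c' d' (y, a')) →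
    Play (layer π H a0 a1) S l l' P (t + u + 1) c d (x, a) := by
  intro t
  induction t with
  | zero =>
    intro r c d a hp hc hd hr hcont
    obtain ⟨h1, h2⟩ := hp
    rw [show 0 + u + 1 = u + 1 by omega]
    refine ⟨safe hf hc (by omega) h1, fun c' d' hc' hd' => ?_⟩
    obtain ⟨h3, h4⟩ := h2 _ _ (moves_pos h0 hc' x) (moves_pos h0 hc' y)
    have hc2 := near_step h0 hf hc hc'
    have hd2 := near_step h0 hf hd hd'
    refine ⟨safe hf hc2 (by omega) h3, (y, a), step_base hxy, ?_⟩
    exact hcont c' d' a hc2 hd2 h4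
  | succ t ih =>
    intro r c d a hp hc hd hr hcont
    obtain ⟨h1, h2⟩ := hp
    rw [show t + 1 + u + 1 = (t + u + 1) + 1 by omega]
    refine ⟨safe hf hc (by omega) h1, fun c' d' hc' hd' => ?_⟩
    obtain ⟨h3, a', h4, h5⟩ := h2 _ _ (moves_pos h0 hc' x) (moves_pos h0 hc' y)
    have hc2 := near_step h0 hf hc hc'
    have hd2 := near_step h0 hf hd hd'
    refine ⟨safe hf hc2 (by omega) h3, (x, a'), step_fibre h4, ?_⟩
    refine ih (r + 1) c' d' a' h5 hc2 hd2 (by omega) ?_
    rw [show r + 1 + t + 1 = r + (t + 1) + 1 by omega]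
    exact hcont

/-- the robber plays in the fibre over `x` and stays there -/
theorem stage_two (h0 : π 0 = 1) (hf : Far H a0 a1 D f) {S : Finset ι} {l l' : ι → Fin 2}
    {c0 d0 : ι → (Fin N × Fin 3) × A} {x : Fin N × Fin 3}
    {P : (ι → (Fin N × Fin 3) × A) → (Fin N × Fin 3) × A → Prop}
    {G : (ι → A) → A → Prop} : ∀ (t r : ℕ) (c d : ι → (Fin N × Fin 3) × A) (a : A),
    Play H (Act π 1 S l c0 x) l l' G t
      (fun i => pos π a0 a1 (l i) x (c i)) (fun i => pos π a0 a1 (l' i) x (d i)) a →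
    Near π D f l r c0 c → Near π D f l' r d0 d → r + t + 1 < D →
    (∀ d' a', Near π D f l' (r + t + 1) d0 d' →
      G (fun i => pos π a0 a1 (l' i) x (d' i)) a' → P d' (x, a')) →
    Play (layer π H a0 a1) S l l' P t c d (x, a) := by
  intro t
  induction t with
  | zero =>
    intro r c d a hp hc hd hr hcont
    obtain ⟨h1, h2⟩ := hp
    refine ⟨safe hf hc (by omega) h1, fun c' d' hc' hd' => ?_⟩
    obtain ⟨h3, h4⟩ := h2 _ _ (moves_pos h0 hc' x) (moves_pos h0 hd' x)
    have hc2 := near_step h0 hf hc hc'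
    have hd2 := near_step h0 hf hd hd'
    exact ⟨safe hf hc2 (by omega) h3, hcont d' a hd2 h4⟩
  | succ t ih =>
    intro r c d a hp hc hd hr hcont
    obtain ⟨h1, h2⟩ := hp
    refine ⟨safe hf hc (by omega) h1, fun c' d' hc' hd' => ?_⟩
    obtain ⟨h3, a', h4, h5⟩ := h2 _ _ (moves_pos h0 hc' x) (moves_pos h0 hd' x)
    have hc2 := near_step h0 hf hc hc'
    have hd2 := near_step h0 hf hd hd'
    refine ⟨safe hf hc2 (by omega) h3, (x, a'), step_fibre h4, ?_⟩
    refine ih (r + 1) c' d' a' h5 hc2 hd2 (by omega) ?_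
    rw [show r + 1 + t + 1 = r + (t + 1) + 1 by omega]
    exact hcont

theorem act_near (hf : Far H a0 a1 D f) {S : Finset ι} {l : ι → Fin 2} {t : ℕ}
    {c0 c : ι → (Fin N × Fin 3) × A} (h : Near π D f l t c0 c) (ht : t < D) (x : Fin N × Fin 3) :
    Act π 1 S l c x ⊆ Act π 2 S l c0 x := by
  intro i hi
  simp only [Act, mem_filter] at *
  have h1 := near_cell hf h ht i
  exact ⟨hi.1, by omega, by omega⟩

theorem act_mono {ρ ρ' : ℕ} (hρ : ρ ≤ ρ') {S S' : Finset ι} (hS : S ⊆ S') (l : ι → Fin 2)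
    (c : ι → (Fin N × Fin 3) × A) (x : Fin N × Fin 3) : Act π ρ S l c x ⊆ Act π ρ' S' l c x := by
  intro i hi
  simp only [Act, mem_filter] at *
  exact ⟨hS hi.1, by omega, by omega⟩

theorem dn_mono {ρ ρ' k : ℕ} (hρ : ρ ≤ ρ') {S S' : Finset ι} (hS : S ⊆ S') (l : ι → Fin 2)
    (c : ι → (Fin N × Fin 3) × A) : Dn π ρ k S l c ⊆ Dn π ρ' k S' l c := by
  intro x hx
  simp only [Dn, mem_filter, mem_univ, true_and] at *
  exact lt_of_lt_of_le hx (card_le_card (act_mono hρ hS l c x))

/-- **The robber's criterion for products.** -/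
theorem reloc_prod (h0 : π 0 = 1) {k k' T L : ℕ} (hR : Reloc ι H k T) (hrob : Rob π L)
    (hf : Far H a0 a1 D f) (hT : (L + 1) * (T + 1) < D) (hk : 7200 * k' ≤ (k + 1) * N) :
    Reloc ι (layer π H a0 a1) k' ((L + 1) * (T + 1) - 1) := by
  classical
  obtain ⟨Good, hG1, hG2, hG3⟩ := hR
  refine ⟨fun S l c v => Giant π L (Dn π 1 k S l c) v.1 ∧
    Good (Act π 1 S l c v.1) l (fun i => pos π a0 a1 (l i) v.1 (c i)) v.2,
    ?_, ?_, ?_⟩
  · intro S l c hS
    have h1 := hrob _ (card_Dn π k k' S l c hS hk)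
    obtain ⟨x, hx⟩ := card_pos.1 (by omega :
      0 < (univ.filter fun x => Giant π L (Dn π 2 k S l c) x).card)
    simp only [mem_filter, mem_univ, true_and] at hx
    have h2 : Giant π L (Dn π 1 k S l c) x :=
      giant_mono (dn_mono (by norm_num) (Finset.Subset.refl S) l c) hx
    have h3 := giant_not_mem h2
    simp only [Dn, mem_filter, mem_univ, true_and, not_lt] at h3
    obtain ⟨a, ha⟩ := hG1 (Act π 1 S l c x) l
      (fun i => pos π a0 a1 (l i) x (c i)) h3
    exact ⟨(x, a), h2, ha⟩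
  · intro S S' l c v hS hv
    exact ⟨giant_mono (dn_mono le_rfl hS l c) hv.1, hG2 _ _ _ _ _ (act_mono le_rfl hS l c v.1) hv.2⟩
  · rintro S S' l l' c0 d0 ⟨x0, a0'⟩ hS hS' ⟨hv1, hv2⟩
    simp only at hv1 hv2
    -- the target
    obtain ⟨z, hz1, hz2⟩ : ∃ z, Reach π (Dn π 1 k S l c0) L x0 z ∧
        Giant π L (Dn π 2 k S' l' d0) z := by
      have h1 := hrob _ (card_Dn π k k' S' l' d0 hS' hk)
      have h2 : 3 * N < 2 * (univ.filter fun z => Reach π (Dn π 1 k S l c0) L x0 z).card := hv1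
      have h3 : ((univ.filter fun z => Reach π (Dn π 1 k S l c0) L x0 z) ∩
          (univ.filter fun z => Giant π L (Dn π 2 k S' l' d0) z)).Nonempty := by
        rw [← card_pos]
        have h4 := card_union_add_card_inter (univ.filter fun z => Reach π (Dn π 1 k S l c0) L x0 z)
          (univ.filter fun z => Giant π L (Dn π 2 k S' l' d0) z)
        have h5 := card_le_univ ((univ.filter fun z => Reach π (Dn π 1 k S l c0) L x0 z) ∪
          (univ.filter fun z => Giant π L (Dn π 2 k S' l' d0) z))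
        simp only [Fintype.card_prod, Fintype.card_fin] at h5
        omega
      obtain ⟨z, hz⟩ := h3
      simp only [mem_inter, mem_filter, mem_univ, true_and] at hz
      exact ⟨z, hz⟩
    have hcard : ∀ {x}, x ∉ Dn π 1 k S l c0 → (Act π 1 S l c0 x).card ≤ k := by
      intro x hx
      simpa only [Dn, mem_filter, mem_univ, true_and, not_lt] using hx
    have hz3 : (Act π 2 S' l' d0 z).card ≤ k := by
      have := giant_not_mem hz2
      simpa only [Dn, mem_filter, mem_univ, true_and, not_lt] using this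
    have key : ∀ (s : ℕ) (x : Fin N × Fin 3) (r : ℕ) (c d : ι → (Fin N × Fin 3) × A) (a : A),
        Reach π (Dn π 1 k S l c0) s x z → Near π D f l r c0 c → Near π D f l' r d0 d →
        r + (s + 1) * (T + 1) < D →
        Good (Act π 1 S l c0 x) l (fun i => pos π a0 a1 (l i) x (c i)) a →
        Play (layer π H a0 a1) S l l' (fun d' v => Giant π L (Dn π 1 k S' l' d') v.1 ∧
          Good (Act π 1 S' l' d' v.1) l'
            (fun i => pos π a0 a1 (l' i) v.1 (d' i)) v.2) ((s + 1) * (T + 1) - 1) c d (x, a) := by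
      intro s
      induction s with
      | zero =>
        intro x r c d a hx hc hd hr hg
        obtain ⟨rfl, hx2⟩ := hx
        have h1 := hG3 _ (Act π 2 S' l' d0 x) _ l' _
          (fun i => pos π a0 a1 (l' i) x (d i)) a (hcard hx2) hz3 hg
        rw [show (0 + 1) * (T + 1) - 1 = T by omega]
        refine stage_two h0 hf T r c d a h1 hc hd (by omega) ?_
        intro d' a' hd' hg'
        have hlt : r + T + 1 < D := by omega
        refine ⟨giant_mono ?_ hz2, hG2 _ _ _ _ _ (act_near hf hd' hlt x) hg'⟩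
        intro y hy
        simp only [Dn, mem_filter, mem_univ, true_and] at *
        exact lt_of_lt_of_le hy (card_le_card (act_near hf hd' hlt y))
      | succ s ih =>
        intro x r c d a hx hc hd hr hg
        obtain ⟨hx1, y, hxy, hy⟩ := hx
        have h1 := hG3 _ (Act π 1 S l c0 y) _ l _
          (fun i => pos π a0 a1 (l i) y (c i)) a (hcard hx1) (hcard (reach_left hy)) hg
        have e1 : (s + 1 + 1) * (T + 1) = (s + 1) * (T + 1) + (T + 1) := by ring
        have e2 : (s + 1 + 1) * (T + 1) - 1 = T + ((s + 1) * (T + 1) - 1) + 1 := by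
          have : 1 ≤ (s + 1) * (T + 1) := Nat.succ_le_of_lt (Nat.mul_pos (by omega) (by omega))
          omega
        rw [e2]
        have hpos : 1 ≤ (s + 1) * (T + 1) := Nat.succ_le_of_lt (Nat.mul_pos (by omega) (by omega))
        refine stage_one h0 hf hxy _ T r c d a h1 hc hd (by omega) ?_
        intro c' d' a' hc' hd' hg'
        exact ih y (r + T + 1) c' d' a' hy hc' hd' (by omega) hg'
    exact key L x0 0 c0 d0 a0' hz1 (near_refl _ _ _ _ _) (near_refl _ _ _ _ _) (by omega) hv2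

end

end Pool.Agent.H85.ML
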