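import Pool.Agent.H85.ML.Base

/-!
# The recursion
-/

set_option autoImplicit false

namespace Pool.Agent.H85.ML

open Finset

/-- There are two connected layers on `m` vertices for which the robber survives against `K - 1`
cops, with two vertices whose distance in both layers is more than `x` times the time that the robber
needs. -/
def Lev (x m K : ℕ) : Prop :=
  ∃ (A : Type) (_ : Fintype A) (H : Fin 2 → SimpleGraph A) (a0 a1 : A) (D T : ℕ)
    (f : Fin 2 → A → ℕ), Fintype.card A = m ∧ (∀ i, (H i).Connected) ∧ Far H a0 a1 D f ∧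
    x * (T + 1) < D ∧ ∀ ι : Type, Reloc ι H (K - 1) T

theorem Lev.mono {x x' m K : ℕ} (h : Lev x m K) (hx : x' ≤ x) : Lev x' m K := by
  obtain ⟨A, i, H, a0, a1, D, T, f, h1, h2, h3, h4, h5⟩ := h
  exact ⟨A, i, H, a0, a1, D, T, f, h1, h2, h3,
    lt_of_le_of_lt (Nat.mul_le_mul_right _ hx) h4, h5⟩

/-- the start: a path -/
theorem lev_zero (x : ℕ) : Lev x (x + 2) 1 := by
  refine ⟨Fin (x + 2), inferInstance, fun _ => SimpleGraph.pathGraph (x + 2), 0,
    Fin.last (x + 1), x + 1, 0, fun _ a => a.val, by simp, fun _ => SimpleGraph.pathGraph_connected _,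
    ⟨fun _ => rfl, fun _ => rfl, fun _ a => by have := a.isLt; omega, ?_⟩, by omega,
    fun ι => reloc_zero _⟩
  intro _ a b hab
  rw [SimpleGraph.pathGraph_adj] at hab
  omega

/-- the step: a product -/
theorem Lev.step {x y m K M r : ℕ} (h : Lev y m K) (hK : 1 ≤ K) (hM : 1 ≤ M)
    (hr : 7200 * M ≤ 2 ^ r) (hy : 480 * r + 217 ≤ y) (hx : x ≤ 7200 * M) :
    Lev x (21600 * M * m) (K * M) := by
  obtain ⟨A, _, H, a0, a1, D, T, f, h1, h2, h3, h4, h5⟩ := h
  obtain ⟨π, h0, hrob⟩ := exists_rob (N := 7200 * M) (by omega) r hr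
  have hN : 0 < 7200 * M := by omega
  have hT : (480 * r + 216 + 1) * (T + 1) < D :=
    lt_of_le_of_lt (Nat.mul_le_mul_right _ (by omega)) h4
  have hpos : 1 ≤ (480 * r + 216 + 1) * (T + 1) := Nat.succ_le_of_lt (Nat.mul_pos (by omega) (by omega))
  refine ⟨(Fin (7200 * M) × Fin 3) × A, inferInstance, layer π H a0 a1, _, _, 7200 * M * D,
    (480 * r + 216 + 1) * (T + 1) - 1, height π D f, ?_, layer_connected h0 h2 hN,
    far_prod h0 h3 hN, ?_, ?_⟩
  · simp only [Fintype.card_prod, Fintype.card_fin, h1]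
    ring
  · rw [Nat.sub_add_cancel hpos]
    calc x * ((480 * r + 216 + 1) * (T + 1)) ≤ 7200 * M * ((480 * r + 216 + 1) * (T + 1)) :=
          Nat.mul_le_mul_right _ hx
      _ < 7200 * M * D := Nat.mul_lt_mul_of_pos_left hT hN
  · intro ι
    refine reloc_prod h0 (h5 ι) hrob h3 hT ?_
    rw [Nat.sub_add_cancel hK]
    calc 7200 * (K * M - 1) ≤ 7200 * (K * M) := Nat.mul_le_mul_left _ (Nat.sub_le _ _)
      _ = K * (7200 * M) := by ring

/-- The iterated logarithm: the least `s` such that the `s`-fold iterate of `⌊log₂ ·⌋` at `n` is at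
most `1`. -/
noncomputable def logStar (n : ℕ) : ℕ := sInf {s : ℕ | (Nat.log 2)^[s] n ≤ 1}

theorem exists_iter (n : ℕ) : ∃ s, (Nat.log 2)^[s] n ≤ 1 := by
  induction n using Nat.strong_induction_on with
  | _ n ih =>
    by_cases hn : n ≤ 1
    · exact ⟨0, hn⟩
    · obtain ⟨s, hs⟩ := ih (Nat.log 2 n) (Nat.log_lt_self 2 (by omega))
      exact ⟨s + 1, by rw [Function.iterate_succ_apply]; exact hs⟩

theorem logStar_spec (n : ℕ) : (Nat.log 2)^[logStar n] n ≤ 1 := Nat.sInf_mem (exists_iter n)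

theorem logStar_log {n : ℕ} (hn : 2 ≤ n) : logStar (Nat.log 2 n) + 1 ≤ logStar n := by
  have h1 := logStar_spec n
  rcases h2 : logStar n with _ | s
  · rw [h2] at h1
    simp only [Function.iterate_zero, id_eq] at h1
    omega
  · rw [h2, Function.iterate_succ_apply] at h1
    have h3 : logStar (Nat.log 2 n) ≤ s := Nat.sInf_le h1
    omega

theorem logStar_mono {m n : ℕ} (h : m ≤ n) : logStar m ≤ logStar n := by
  refine Nat.sInf_le ?_
  have h1 := logStar_spec n
  exact (Monotone.iterate (Nat.log_monotone (b := 2)) _ h).trans h1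

theorem two_pow_large (k : ℕ) (hk : 24 ≤ k) : 230400 * k + 342937 ≤ 2 ^ k := by
  induction k, hk using Nat.le_induction with
  | base => norm_num
  | succ k _ ih => rw [pow_succ]; omega

theorem lev_rec (x : ℕ) : ∃ m K, 1 ≤ K ∧ Lev x m K ∧
    m ≤ 2 ^ 37 * (21600 ^ 2) ^ logStar x * K ∧ m ≤ 2 ^ 40 * (x + 2) ^ 2 := by
  induction x using Nat.strong_induction_on with
  | _ x ih =>
    set ℓ := Nat.log 2 x with hℓ
    have hxl : x < 2 ^ (ℓ + 1) := Nat.lt_pow_succ_log_self (by norm_num) x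
    by_cases hbig : ℓ < 12000
    · -- one product with a path
      set y := 480 * (ℓ + 14) + 217 with hy
      set M := x / 7200 + 1 with hM
      have hM1 : x ≤ 7200 * M := by omega
      have hM2 : 7200 * M ≤ x + 7200 := by omega
      have hr : 7200 * M ≤ 2 ^ (ℓ + 14) := by
        have h1 : (2 : ℕ) ^ (ℓ + 1) ≤ 2 ^ (ℓ + 13) := Nat.pow_le_pow_right (by norm_num) (by omega)
        have h2 : (2 : ℕ) ^ 13 ≤ 2 ^ (ℓ + 13) := Nat.pow_le_pow_right (by norm_num) (by omega)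
        have h3 : (2 : ℕ) ^ (ℓ + 14) = 2 ^ (ℓ + 13) * 2 := by rw [← pow_succ]
        norm_num at h2
        omega
      have hlev := (lev_zero y).step (x := x) le_rfl (show 1 ≤ M by omega) hr le_rfl hM1
      have hyb : y + 2 ≤ 5766459 := by omega
      refine ⟨_, _, ?_, hlev, ?_, ?_⟩
      · omega
      · have h1 : 1 ≤ (21600 ^ 2) ^ logStar x := Nat.succ_le_of_lt (by positivity)
        calc 21600 * M * (y + 2) ≤ 21600 * M * 5766459 := Nat.mul_le_mul_left _ hyb
          _ = (21600 * 5766459) * M := by ring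
          _ ≤ 2 ^ 37 * M := Nat.mul_le_mul_right _ (by norm_num)
          _ = 2 ^ 37 * 1 * (1 * M) := by ring
          _ ≤ 2 ^ 37 * (21600 ^ 2) ^ logStar x * (1 * M) :=
            Nat.mul_le_mul_right _ (Nat.mul_le_mul_left _ h1)
      · calc 21600 * M * (y + 2) ≤ 21600 * M * 5766459 := Nat.mul_le_mul_left _ hyb
          _ = 3 * 5766459 * (7200 * M) := by ring
          _ ≤ 3 * 5766459 * (x + 7200) := Nat.mul_le_mul_left _ hM2
          _ ≤ 3 * 5766459 * (3600 * (x + 2) ^ 2) := by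
            refine Nat.mul_le_mul_left _ ?_
            nlinarith [Nat.zero_le (x * x)]
          _ ≤ 2 ^ 40 * (x + 2) ^ 2 := by
            rw [← mul_assoc]
            exact Nat.mul_le_mul_right _ (by norm_num)
    · push Not at hbig
      have hx0 : x ≠ 0 := by
        rintro rfl
        simp at hℓ
        omega
      have hlx : 2 ^ ℓ ≤ x := Nat.pow_log_le_self 2 hx0
      have hlt : ℓ < x := lt_of_lt_of_le Nat.lt_two_pow_self hlx
      obtain ⟨m, K, hK, hlev, hm1, hm2⟩ := ih ℓ hlt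
      -- the first product
      set k := (ℓ - 217) / 480 with hk
      have hk24 : 24 ≤ k := by omega
      have hkl : 480 * k + 217 ≤ ℓ := by omega
      have hku : ℓ ≤ 480 * k + 696 := by omega
      have h2k := two_pow_large k hk24
      set y := 480 * (ℓ + 2) + 217 with hy
      set M1 := y / 7200 + 1 with hM1
      have hM1a : y ≤ 7200 * M1 := by omega
      have hM1b : 7200 * M1 ≤ y + 7200 := by omega
      have hlev1 := hlev.step (x := y) hK (show 1 ≤ M1 by omega) (show 7200 * M1 ≤ 2 ^ k by omega)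
        hkl hM1a
      -- the second product
      set M2 := x / 7200 + 1 with hM2
      have hM2a : x ≤ 7200 * M2 := by omega
      have hM2b : 7200 * M2 ≤ x + 7200 := by omega
      have hx7200 : 7200 ≤ x := by omega
      have hr2 : 7200 * M2 ≤ 2 ^ (ℓ + 2) := by
        have : (2 : ℕ) ^ (ℓ + 2) = 2 ^ (ℓ + 1) * 2 := by rw [← pow_succ]
        omega
      have hK1 : 1 ≤ K * M1 := Nat.succ_le_of_lt (Nat.mul_pos (by omega) (by omega))
      have hlev2 := hlev1.step (x := x) hK1 (show 1 ≤ M2 by omega) hr2 le_rfl hM2a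
      refine ⟨_, _, ?_, hlev2, ?_, ?_⟩
      · exact Nat.succ_le_of_lt (Nat.mul_pos (by omega) (by omega))
      · have h1 : (21600 ^ 2) ^ (logStar ℓ + 1) ≤ (21600 ^ 2) ^ logStar x :=
          Nat.pow_le_pow_right (by norm_num) (logStar_log (by omega))
        calc 21600 * M2 * (21600 * M1 * m)
            ≤ 21600 * M2 * (21600 * M1 * (2 ^ 37 * (21600 ^ 2) ^ logStar ℓ * K)) :=
              Nat.mul_le_mul_left _ (Nat.mul_le_mul_left _ hm1)
          _ = 2 ^ 37 * (21600 ^ 2) ^ (logStar ℓ + 1) * (K * M1 * M2) := by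
              rw [pow_succ (21600 ^ 2) (logStar ℓ)]
              ring
          _ ≤ 2 ^ 37 * (21600 ^ 2) ^ logStar x * (K * M1 * M2) :=
              Nat.mul_le_mul_right _ (Nat.mul_le_mul_left _ h1)
      · have e1 : 21600 * M2 ≤ 6 * x := by omega
        have e2 : 21600 * M1 ≤ 1443 * ℓ := by omega
        have e3 : (ℓ + 2) ^ 2 ≤ 2 * ℓ ^ 2 := by nlinarith
        have e4 : 17316 * ℓ ^ 3 ≤ x := by
          refine le_trans ?_ hlx
          have h1 : ℓ ≤ 2 ^ k := by omega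
          calc 17316 * ℓ ^ 3 ≤ 2 ^ 15 * (2 ^ k) ^ 3 :=
                Nat.mul_le_mul (by norm_num) (Nat.pow_le_pow_left h1 3)
            _ = 2 ^ (15 + k * 3) := by rw [pow_add, pow_mul]
            _ ≤ 2 ^ ℓ := Nat.pow_le_pow_right (by norm_num) (by omega)
        calc 21600 * M2 * (21600 * M1 * m)
            ≤ 6 * x * (1443 * ℓ * (2 ^ 40 * (2 * ℓ ^ 2))) :=
              Nat.mul_le_mul e1 (Nat.mul_le_mul e2 (hm2.trans (Nat.mul_le_mul_left _ e3)))
          _ = 2 ^ 40 * (x * (17316 * ℓ ^ 3)) := by ring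
          _ ≤ 2 ^ 40 * (x * x) := Nat.mul_le_mul_left _ (Nat.mul_le_mul_left _ e4)
          _ ≤ 2 ^ 40 * (x + 2) ^ 2 := by
              refine Nat.mul_le_mul_left _ ?_
              nlinarith

theorem two_pow_square (ℓ : ℕ) (h : 90 ≤ ℓ) : 2 ^ 55 * (480 * ℓ + 699) ^ 2 ≤ 2 ^ ℓ := by
  induction ℓ, h using Nat.le_induction with
  | base => norm_num
  | succ ℓ h ih =>
    rw [pow_succ 2 ℓ]
    have h1 : (480 * (ℓ + 1) + 699) ^ 2 ≤ 2 * (480 * ℓ + 699) ^ 2 := by nlinarith
    calc 2 ^ 55 * (480 * (ℓ + 1) + 699) ^ 2 ≤ 2 ^ 55 * (2 * (480 * ℓ + 699) ^ 2) :=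
          Nat.mul_le_mul_left _ h1
      _ = 2 ^ 55 * (480 * ℓ + 699) ^ 2 * 2 := by ring
      _ ≤ 2 ^ ℓ * 2 := Nat.mul_le_mul_right _ ih

/-- for every large `n` there are two layers on `m ≤ n` vertices -/
theorem exists_lev (n : ℕ) (hn : 2 ^ 90 ≤ n) : ∃ m K, 1 ≤ K ∧ m ≤ n ∧ Lev 0 m K ∧
    n ≤ 2 ^ 90 * (21600 ^ 2) ^ logStar n * K := by
  have hn0 : n ≠ 0 := by
    have : 0 < 2 ^ 90 := by norm_num
    omega
  set ℓ := Nat.log 2 n with hℓ
  have h1 : n < 2 ^ (ℓ + 1) := Nat.lt_pow_succ_log_self (by norm_num) n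
  have h2 : 2 ^ ℓ ≤ n := Nat.pow_log_le_self 2 hn0
  have h3 : 90 ≤ ℓ := by
    rw [hℓ]
    exact (Nat.le_log_iff_pow_le (by norm_num) hn0).2 hn
  set y := 480 * (ℓ + 1) + 217 with hy
  obtain ⟨m, K, hK, hlev, hm1, hm2⟩ := lev_rec y
  have h4 := two_pow_square ℓ h3
  have h5 : y ≤ n := by
    have h6 : y ≤ 2 ^ 55 * (480 * ℓ + 699) ^ 2 := by nlinarith
    omega
  have h6 : 21600 * m ≤ n := by
    calc 21600 * m ≤ 2 ^ 15 * (2 ^ 40 * (y + 2) ^ 2) := Nat.mul_le_mul (by norm_num) hm2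
      _ = 2 ^ 55 * (480 * ℓ + 699) ^ 2 := by rw [hy]; ring
      _ ≤ n := h4.trans h2
  have hm0 : 0 < m := by
    obtain ⟨A, _, H, a0, a1, D, T, f, h7, h8, -⟩ := hlev
    rw [← h7]
    exact Fintype.card_pos_iff.2 ⟨a0⟩
  set M := n / (21600 * m) with hM
  have hM1 : 1 ≤ M := (Nat.one_le_div_iff (by omega)).2 h6
  have hM2 : 21600 * m * M ≤ n := Nat.mul_div_le _ _
  have hM3 : n < 21600 * m * (M + 1) := Nat.lt_mul_div_succ n (by omega)
  have hM4 : 7200 * M ≤ 2 ^ (ℓ + 1) := by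
    have h7 : 7200 * M ≤ 21600 * m * M := by nlinarith
    omega
  refine ⟨_, _, ?_, ?_, hlev.step (x := 0) hK hM1 hM4 (by omega) (Nat.zero_le _), ?_⟩
  · exact Nat.succ_le_of_lt (Nat.mul_pos (by omega) (by omega))
  · calc 21600 * M * m = 21600 * m * M := by ring
      _ ≤ n := hM2
  · have h7 : (21600 ^ 2) ^ logStar y ≤ (21600 ^ 2) ^ logStar n :=
      Nat.pow_le_pow_right (by norm_num) (logStar_mono h5)
    calc n ≤ 21600 * m * (M + 1) := hM3.le
      _ ≤ 21600 * m * (2 * M) := Nat.mul_le_mul_left _ (by omega)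
      _ = 43200 * M * m := by ring
      _ ≤ 43200 * M * (2 ^ 37 * (21600 ^ 2) ^ logStar y * K) := Nat.mul_le_mul_left _ hm1
      _ ≤ 43200 * M * (2 ^ 37 * (21600 ^ 2) ^ logStar n * K) :=
        Nat.mul_le_mul_left _ (Nat.mul_le_mul_right _ (Nat.mul_le_mul_left _ h7))
      _ = (43200 * 2 ^ 37) * ((21600 ^ 2) ^ logStar n * (K * M)) := by ring
      _ ≤ 2 ^ 90 * ((21600 ^ 2) ^ logStar n * (K * M)) := Nat.mul_le_mul_right _ (by norm_num)
      _ = 2 ^ 90 * (21600 ^ 2) ^ logStar n * (K * M) := by ring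

end Pool.Agent.H85.ML
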