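import Pool.Agent.H85.ML.Game

/-!
# Oblivious schedules of the cops, and uniqueness of short reduced walks
-/

set_option autoImplicit false

namespace Pool.Agent.H85.ML

open Finset

section
variable {V J ι κ : Type}

/-- If the cops move along `γ`, the robber remains in the sets `Ω t` unless he comes close to a cop
of the schedule, and at the time `m` all of `Ω m` is occupied, then he is caught. -/
theorem catch_of_schedule (C : J → SimpleGraph V) (R : SimpleGraph V) (l : ι → J)
    (γ : ℕ → ι → V) (hγ : ∀ t i, Step (C (l i)) (γ t i) (γ (t + 1) i)) (Ω : ℕ → V → Prop) (m : ℕ)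
    (hm : ∀ r, Ω m r → ∃ i, γ m i = r)
    (hstep : ∀ t r r', Ω t r → Step R r r' → Ω (t + 1) r' ∨
      ∃ i, Step (C (l i)) (γ (t + 1) i) r')
    {v : V} (hv : Ω 0 v ∨ ∃ i, Step (C (l i)) (γ 0 i) v) :
    MultiCatch C R l (m + 1) (γ 0) v := by
  classical
  have near : ∀ (c : ι → V) (r : V) (s : ℕ), (∃ i, Step (C (l i)) (c i) r) →
      MultiCatch C R l (s + 1) c r := by
    rintro c r s ⟨i, hi⟩
    refine Or.inr ⟨Function.update c i r, ?_, Or.inl ⟨i, by simp⟩⟩
    intro j
    by_cases hj : j = i
    · subst hj; simpa using hi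
    · rw [Function.update_of_ne hj]; exact Or.inl rfl
  have key : ∀ s t, s + t = m → ∀ r, (Ω t r ∨ ∃ i, Step (C (l i)) (γ t i) r) →
      MultiCatch C R l (s + 1) (γ t) r := by
    intro s
    induction s with
    | zero =>
      intro t ht r hr
      rcases hr with hr | hr
      · rw [zero_add] at ht
        subst ht
        obtain ⟨i, hi⟩ := hm r hr
        exact Or.inl ⟨i, hi⟩
      · exact near _ _ _ hr
    | succ s ih =>
      intro t ht r hr
      rcases hr with hr | hr
      · refine Or.inr ⟨γ (t + 1), hγ t, Or.inr fun r' hr' => ?_⟩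
        exact ih (t + 1) (by omega) r' (hstep t r r' hr hr')
      · exact near _ _ _ hr
  exact key m 0 rfl v hv

theorem multiCatch_reindex (C : J → SimpleGraph V) (R : SimpleGraph V) (e : κ ≃ ι) (l : ι → J) :
    ∀ (m : ℕ) (c : ι → V) (r : V), MultiCatch C R l m c r →
      MultiCatch C R (l ∘ e) m (c ∘ e) r := by
  intro m
  induction m with
  | zero =>
    rintro c r ⟨i, hi⟩
    exact ⟨e.symm i, by simpa using hi⟩
  | succ m ih =>
    rintro c r (⟨i, hi⟩ | ⟨c', hc', h⟩)
    · exact Or.inl ⟨e.symm i, by simpa using hi⟩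
    · refine Or.inr ⟨c' ∘ e, fun j => hc' (e j), ?_⟩
      rcases h with ⟨i, hi⟩ | h
      · exact Or.inl ⟨e.symm i, by simpa using hi⟩
      · exact Or.inr fun r' hr' => ih c' r' (h r' hr')

theorem multiWin_of_fintype [Fintype ι] (C : J → SimpleGraph V) (R : SimpleGraph V) (l : ι → J)
    (c : ι → V) (h : ∀ r, ∃ m, MultiCatch C R l m c r) : MultiWin C R (Fintype.card ι) := by
  refine ⟨l ∘ (Fintype.equivFin ι).symm, c ∘ (Fintype.equivFin ι).symm, fun r => ?_⟩
  obtain ⟨m, hm⟩ := h r
  exact ⟨m, multiCatch_reindex C R _ l m c r hm⟩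

end

section
variable {V : Type} {G : SimpleGraph V}

/-- the walk never goes back along the edge that it has just used -/
def NB {x y : V} (p : G.Walk x y) : Prop := p.edges.IsChain (· ≠ ·)

theorem nb_unique (L : ℕ) (hg : ∀ (x : V) (c : G.Walk x x), c.IsCycle → 2 * L < c.length)
    {x y : V} (p q : G.Walk x y) (hp : NB p) (hq : NB q) (hpl : p.length ≤ L) (hql : q.length ≤ L) :
    p = q := by
  classical
  set H : SimpleGraph V := SimpleGraph.fromEdgeSet {e | e ∈ p.edges ∨ e ∈ q.edges} with hH
  have hmem : ∀ e : Sym2 V, e ∈ H.edgeSet ↔ (e ∈ p.edges ∨ e ∈ q.edges) := by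
    intro e
    rw [hH, SimpleGraph.edgeSet_fromEdgeSet]
    constructor
    · intro h; exact h.1
    · intro h
      refine ⟨h, ?_⟩
      have : e ∈ G.edgeSet := by
        rcases h with h | h
        · exact p.edges_subset_edgeSet h
        · exact q.edges_subset_edgeSet h
      exact G.not_isDiag_of_mem_edgeSet this
  have hpH : ∀ e ∈ p.edges, e ∈ H.edgeSet := fun e he => (hmem e).2 (Or.inl he)
  have hqH : ∀ e ∈ q.edges, e ∈ H.edgeSet := fun e he => (hmem e).2 (Or.inr he)
  have hac : H.IsAcyclic := by
    intro z c hc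
    have hcG : ∀ e ∈ c.edges, e ∈ G.edgeSet := by
      intro e he
      rcases (hmem e).1 (c.edges_subset_edgeSet he) with h | h
      · exact p.edges_subset_edgeSet h
      · exact q.edges_subset_edgeSet h
    have h1 := hg z (c.transfer G hcG) (hc.transfer hcG)
    rw [SimpleGraph.Walk.length_transfer] at h1
    have h2 : c.edges.toFinset ⊆ (p.edges ++ q.edges).toFinset := by
      intro e he
      rw [List.mem_toFinset] at he ⊢
      rw [List.mem_append]
      exact (hmem e).1 (c.edges_subset_edgeSet he)
    have h3 := Finset.card_le_card h2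
    rw [List.toFinset_card_of_nodup hc.edges_nodup] at h3
    have h4 := List.toFinset_card_le (p.edges ++ q.edges)
    rw [List.length_append, SimpleGraph.Walk.length_edges, SimpleGraph.Walk.length_edges] at h4
    rw [SimpleGraph.Walk.length_edges] at h3
    omega
  have hpp : (p.transfer H hpH).IsPath := by
    rw [hac.isPath_iff_isChain, SimpleGraph.Walk.edges_transfer]; exact hp
  have hqp : (q.transfer H hqH).IsPath := by
    rw [hac.isPath_iff_isChain, SimpleGraph.Walk.edges_transfer]; exact hq
  have h5 := hac.path_unique ⟨_, hpp⟩ ⟨_, hqp⟩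
  have h6 : p.transfer H hpH = q.transfer H hqH := congrArg Subtype.val h5
  apply SimpleGraph.Walk.ext_support
  have h7 := congrArg SimpleGraph.Walk.support h6
  rwa [SimpleGraph.Walk.support_transfer, SimpleGraph.Walk.support_transfer] at h7

theorem nb_nil (x : V) : NB (SimpleGraph.Walk.nil : G.Walk x x) := by simp [NB]

theorem nb_tail {x y z : V} (h : G.Adj x y) (q : G.Walk y z) (hq : NB (SimpleGraph.Walk.cons h q)) :
    NB q := by
  unfold NB at *
  rw [SimpleGraph.Walk.edges_cons] at hq
  exact hq.tail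

/-- `a` is not the second vertex of `q` -/
def NotSnd (a : V) {x v : V} (q : G.Walk x v) : Prop :=
  ∀ l, q.support ≠ x :: a :: l

theorem nb_cons {x y v : V} (h : G.Adj x y) (q : G.Walk y v) (hq : NB q) (hx : NotSnd x q) :
    NB (SimpleGraph.Walk.cons h q) := by
  unfold NB at *
  rw [SimpleGraph.Walk.edges_cons]
  cases q with
  | nil => simp
  | cons h' q' =>
    rw [SimpleGraph.Walk.edges_cons] at hq ⊢
    rw [List.isChain_cons_cons]
    refine ⟨?_, hq⟩
    intro he
    rename_i z
    have h1 : x = z := by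
      have := Sym2.eq_iff.1 he
      rcases this with ⟨h1, h2⟩ | ⟨h1, h2⟩
      · rw [h1, h2]
      · exact h1
    subst h1
    cases q' with
    | nil => exact hx [] (by simp)
    | cons h'' q'' => exact hx q''.support (by simp)

end

end Pool.Agent.H85.ML
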