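import Pool.Agent.H85.ML.Sched

/-!
# The cops win on graphs that are locally trees
-/

set_option autoImplicit false

namespace Pool.Agent.H85.ML

open Finset

variable {V : Type} {τ : ℕ}

/-- Parents `par i x` and depths `dep i x` in the layers `C i`; the vertices with `K i x` are the
bases of the cops of the layer `i`. -/
structure Roots (C : Fin τ → SimpleGraph V) (G : SimpleGraph V) (h : ℕ) (par : Fin τ → V → V)
    (dep : Fin τ → V → ℕ) (K : Fin τ → V → Prop) : Prop where
  adjC : ∀ i x, ¬ K i x → (C i).Adj (par i x) x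
  adjG : ∀ i x, ¬ K i x → G.Adj (par i x) x
  depth : ∀ i x, ¬ K i x → dep i x = dep i (par i x) + 1
  hit : ∀ i (f : ℕ → V) (c : ℕ), (∀ j < h, dep i (f j) = c + j) → ∃ j < h, K i (f j)

/-- The list `x :: y :: …` of the vertices of a walk of the robber, the last one being his starting
vertex: the vertices are not protected, and those of index at least `h` are not bases, and their
parents in all layers are the preceding vertices. -/
def FreeL (h : ℕ) (par : Fin τ → V → V) (K : Fin τ → V → Prop) (Prot : V → Prop) : List V → Prop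
  | [] => True
  | [_] => True
  | x :: y :: l => FreeL h par K Prot (y :: l) ∧ ¬ Prot x ∧
      (h ≤ l.length + 1 → ∀ i, ¬ K i x ∧ par i x = y)

section
variable {C : Fin τ → SimpleGraph V} {G : SimpleGraph V} {h : ℕ} {par : Fin τ → V → V}
  {dep : Fin τ → V → ℕ} {K : Fin τ → V → Prop} {Prot : V → Prop}

theorem freeL_tail {x : V} {l : List V} (hl : FreeL h par K Prot (x :: l)) :
    FreeL h par K Prot l := by
  cases l with
  | nil => trivial
  | cons y l => exact hl.1

theorem freeL_suffix {l l' : List V} (hs : l' <:+ l) (hl : FreeL h par K Prot l) :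
    FreeL h par K Prot l' := by
  induction l with
  | nil =>
    have : l' = [] := List.suffix_nil.1 hs
    rw [this]; trivial
  | cons x l ih =>
    rcases List.suffix_cons_iff.1 hs with h1 | h1
    · rw [h1]; exact hl
    · exact ih h1 (freeL_tail hl)

theorem freeL_dep (hR : Roots C G h par dep K) (hh : 1 ≤ h) (i : Fin τ) : ∀ (d : ℕ) (l : List V),
    FreeL h par K Prot l → l.length = h + 1 + d → ∃ (f : ℕ → V) (l' : List V), l = f d :: l' ∧
      (∀ j ≤ d, dep i (f j) = dep i (f 0) + j) ∧ (∀ j ≤ d, ¬ K i (f j)) := by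
  intro d
  induction d with
  | zero =>
    intro l hl hlen
    match l, hl, hlen with
    | x :: y :: l, hl, hlen =>
      simp only [List.length_cons] at hlen
      refine ⟨fun _ => x, y :: l, rfl, ?_, ?_⟩
      · intro j hj
        have : j = 0 := by omega
        subst this; rfl
      · intro j _
        exact (hl.2.2 (by omega) i).1
    | [x], hl, hlen => simp only [List.length_cons, List.length_nil] at hlen; omega
    | [], hl, hlen => simp only [List.length_nil] at hlen; omega
  | succ d ih =>
    intro l hl hlen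
    match l, hl, hlen with
    | x :: l, hl, hlen =>
      simp only [List.length_cons] at hlen
      obtain ⟨f, l', h1, h2, h3⟩ := ih l (freeL_tail hl) (by omega)
      subst h1
      simp only [List.length_cons] at hlen
      have h4 := hl.2.2 (by omega) i
      have h5 := hR.depth i x h4.1
      rw [h4.2, h2 d le_rfl] at h5
      refine ⟨Function.update f (d + 1) x, f d :: l', by simp, ?_, ?_⟩
      · intro j hj
        rw [Function.update_of_ne (show (0 : ℕ) ≠ d + 1 by omega)]
        by_cases hjd : j = d + 1
        · subst hjd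
          rw [Function.update_self]
          omega
        · rw [Function.update_of_ne hjd]
          exact h2 j (by omega)
      · intro j hj
        by_cases hjd : j = d + 1
        · subst hjd
          rw [Function.update_self]
          exact h4.1
        · rw [Function.update_of_ne hjd]
          exact h3 j (by omega)
    | [], hl, hlen => simp only [List.length_nil] at hlen; omega

theorem freeL_short (hR : Roots C G h par dep K) (hh : 1 ≤ h) (i : Fin τ) {l : List V}
    (hl : FreeL h par K Prot l) : l.length < 2 * h := by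
  by_contra hcon
  push Not at hcon
  have h1 : (l.drop (l.length - 2 * h)) <:+ l := List.drop_suffix _ _
  have h2 : (l.drop (l.length - 2 * h)).length = h + 1 + (h - 1) := by
    rw [List.length_drop]; omega
  obtain ⟨f, l', -, h3, h4⟩ := freeL_dep hR hh i (h - 1) _ (freeL_suffix h1 hl) h2
  obtain ⟨j, hj, hj'⟩ := hR.hit i f (dep i (f 0)) (fun j hj => h3 j (by omega))
  exact h4 j (by omega) hj'

theorem up_walk (hR : Roots C G h par dep K) (i : Fin τ) {v : V} : ∀ (s : ℕ) (u : V)
    (q : G.Walk u v), NB q → (0 < s → NotSnd (par i u) q) →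
    (∀ s' < s, ¬ K i ((par i)^[s'] u)) →
    ∃ W : G.Walk ((par i)^[s] u) v, NB W ∧ W.length = q.length + s ∧ q.support <:+ W.support := by
  intro s
  induction s with
  | zero => exact fun u q hq _ _ => ⟨q, hq, rfl, List.suffix_refl _⟩
  | succ s ih =>
    intro u q hq hn hK
    have h0 : ¬ K i u := hK 0 (by omega)
    have h1 := hR.adjG i u h0
    have h2 : NB (SimpleGraph.Walk.cons h1 q) := nb_cons h1 q hq (hn (by omega))
    have hA : 0 < s → NotSnd (par i (par i u)) (SimpleGraph.Walk.cons h1 q) := by
      intro hs l hl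
      have h3 : ¬ K i (par i u) := hK 1 (by omega)
      have h4 := hR.depth i u h0
      have h5 := hR.depth i _ h3
      rw [SimpleGraph.Walk.support_cons] at hl
      have h6 : u = par i (par i u) := by
        have h7 := (List.cons.inj hl).2
        cases q with
        | nil => simpa using (List.cons.inj h7).1
        | cons _ _ => simpa using (List.cons.inj h7).1
      rw [← h6] at h5
      omega
    have hB : ∀ s' < s, ¬ K i ((par i)^[s'] (par i u)) := by
      intro s' hs'
      exact hK (s' + 1) (by omega)
    obtain ⟨W, hW1, hW2, hW3⟩ := ih (par i u) (SimpleGraph.Walk.cons h1 q) h2 hA hB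
    rw [Function.iterate_succ_apply]
    refine ⟨W, hW1, ?_, ?_⟩
    · rw [hW2, SimpleGraph.Walk.length_cons]; omega
    · refine List.IsSuffix.trans ?_ hW3
      rw [SimpleGraph.Walk.support_cons]
      exact List.suffix_cons _ _

/-- the cop of the layer `i` with the base `k` is assigned to the exit `z` -/
def Asg (C : Fin τ → SimpleGraph V) (G : SimpleGraph V) (h : ℕ) (par : Fin τ → V → V)
    (K : Fin τ → V → Prop) (Prot : V → Prop) (v z : V) (i : Fin τ) (k : V) : Prop :=
  (∃ p : (C i).Walk k z, p.length < h) ∧ ∃ (W : G.Walk k v) (y : V) (l : List V), NB W ∧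
    W.length ≤ 3 * h ∧ (z :: y :: l) <:+ W.support ∧ FreeL h par K Prot (y :: l) ∧
    h ≤ l.length + 1 ∧ ∃ j, K j z ∨ par j z ≠ y

theorem asg_inj (hg : ∀ (x : V) (c : G.Walk x x), c.IsCycle → 2 * (3 * h) < c.length)
    {v z z' : V} {i : Fin τ} {k : V}
    (h1 : Asg C G h par K Prot v z i k) (h2 : Asg C G h par K Prot v z' i k) : z = z' := by
  obtain ⟨-, W, y, l, a1, a2, a3, a4, a5, j, a6⟩ := h1
  obtain ⟨-, W', y', l', b1, b2, b3, b4, b5, j', b6⟩ := h2
  have hW : W = W' := nb_unique (3 * h) hg W W' a1 b1 a2 b2
  subst hW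
  rcases List.suffix_or_suffix_of_suffix a3 b3 with h3 | h3
  · rcases List.suffix_cons_iff.1 h3 with h4 | h4
    · exact (List.cons.inj h4).1
    · exfalso
      have h5 := (freeL_suffix h4 b4).2.2 a5 j
      rcases a6 with h6 | h6
      · exact h5.1 h6
      · exact h6 h5.2
  · rcases List.suffix_cons_iff.1 h3 with h4 | h4
    · exact ((List.cons.inj h4).1).symm
    · exfalso
      have h5 := (freeL_suffix h4 a4).2.2 b5 j'
      rcases b6 with h6 | h6
      · exact h5.1 h6
      · exact h6 h5.2

theorem iter_dep (hR : Roots C G h par dep K) (i : Fin τ) (u : V) : ∀ s,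
    (∀ s' < s, ¬ K i ((par i)^[s'] u)) → dep i ((par i)^[s] u) + s = dep i u := by
  intro s
  induction s with
  | zero => intro _; rfl
  | succ s ih =>
    intro hK
    have h1 := ih (fun s' hs' => hK s' (by omega))
    have h2 := hR.depth i _ (hK s (by omega))
    rw [Function.iterate_succ_apply']
    omega

theorem exists_base (hR : Roots C G h par dep K) (hh : 1 ≤ h) (i : Fin τ) (u : V) :
    ∃ s < h, K i ((par i)^[s] u) ∧ ∀ s' < s, ¬ K i ((par i)^[s'] u) := by
  classical
  have hex : ∃ s, s < h ∧ K i ((par i)^[s] u) := by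
    by_contra hcon
    push Not at hcon
    have h1 : ∀ s < h, dep i ((par i)^[s] u) + s = dep i u := fun s hs =>
      iter_dep hR i u s (fun s' hs' => hcon s' (by omega))
    have hA : ∀ j < h, dep i ((fun j => (par i)^[h - 1 - j] u) j) = dep i u - (h - 1) + j := by
      intro j hj
      have h2 := h1 (h - 1 - j) (by omega)
      have h3 := h1 (h - 1) (by omega)
      simp only
      omega
    obtain ⟨j, hj, hj'⟩ := hR.hit i (fun j => (par i)^[h - 1 - j] u) (dep i u - (h - 1)) hA
    exact hcon (h - 1 - j) (by omega) hj'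
  obtain ⟨h1, h2⟩ := Nat.find_spec hex
  refine ⟨Nat.find hex, h1, h2, fun s' hs' hK => ?_⟩
  exact Nat.find_min hex hs' ⟨by omega, hK⟩

theorem iter_walk (hR : Roots C G h par dep K) (i : Fin τ) (u : V) : ∀ s,
    (∀ s' < s, ¬ K i ((par i)^[s'] u)) → ∃ p : (C i).Walk ((par i)^[s] u) u, p.length = s := by
  intro s
  induction s with
  | zero => intro _; exact ⟨SimpleGraph.Walk.nil, rfl⟩
  | succ s ih =>
    intro hK
    obtain ⟨p, hp⟩ := ih (fun s' hs' => hK s' (by omega))
    have h1 := hR.adjC i _ (hK s (by omega))
    rw [← Function.iterate_succ_apply' (par i) s u] at h1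
    exact ⟨SimpleGraph.Walk.cons h1 p, by rw [SimpleGraph.Walk.length_cons, hp]⟩

/-- every exit has a cop -/
theorem exists_asg (hR : Roots C G h par dep K) (hh : 1 ≤ h) {v z y : V} (hz : G.Adj z y)
    (q : G.Walk y v) (hq : NB (SimpleGraph.Walk.cons hz q)) (hf : FreeL h par K Prot q.support)
    (hlen : h ≤ q.length + 1) (hj : ∃ j, K j z ∨ par j z ≠ y) :
    ∃ i k, K i k ∧ Asg C G h par K Prot v z i k := by
  obtain ⟨l, hl⟩ : ∃ l, q.support = y :: l := by
    cases q with
    | nil => exact ⟨[], rfl⟩
    | cons _ q => exact ⟨q.support, rfl⟩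
  have hll : q.length = l.length := by
    have := q.length_support
    rw [hl, List.length_cons] at this
    omega
  obtain ⟨j, hj⟩ := hj
  have hshort := freeL_short hR hh j hf
  rw [SimpleGraph.Walk.length_support] at hshort
  have hzs : (SimpleGraph.Walk.cons hz q).support = z :: y :: l := by
    rw [SimpleGraph.Walk.support_cons, hl]
  by_cases hK : K j z
  · refine ⟨j, z, hK, ⟨SimpleGraph.Walk.nil, by simp; omega⟩, SimpleGraph.Walk.cons hz q, y, l, hq,
      ?_, ?_, ?_, ?_, j, Or.inl hK⟩
    · rw [SimpleGraph.Walk.length_cons]; omega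
    · rw [hzs]
    · rw [← hl]; exact hf
    · omega
  · obtain ⟨s, hs, hKs, hmin⟩ := exists_base hR hh j z
    have hne : par j z ≠ y := by
      rcases hj with h1 | h1
      · exact absurd h1 hK
      · exact h1
    obtain ⟨p, hp⟩ := iter_walk hR j z s hmin
    have hA : 0 < s → NotSnd (par j z) (SimpleGraph.Walk.cons hz q) := by
      intro _ l' hl'
      rw [hzs] at hl'
      exact hne ((List.cons.inj (List.cons.inj hl').2).1).symm
    obtain ⟨W, hW1, hW2, hW3⟩ := up_walk hR j s z (SimpleGraph.Walk.cons hz q) hq hA hmin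
    refine ⟨j, _, hKs, ⟨p, by omega⟩, W, y, l, hW1, ?_, ?_, ?_, ?_, j, Or.inr hne⟩
    · rw [hW2, SimpleGraph.Walk.length_cons]; omega
    · rw [← hzs]; exact hW3
    · rw [← hl]; exact hf
    · omega

end

end Pool.Agent.H85.ML
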