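import Pool.Agent.H85.ML.Tree

/-!
# The strategy of the cops
-/

set_option autoImplicit false

namespace Pool.Agent.H85.ML

open Finset

variable {V : Type} {τ : ℕ}

section
variable {C : Fin τ → SimpleGraph V} {G R : SimpleGraph V} {h : ℕ} {par : Fin τ → V → V}
  {dep : Fin τ → V → ℕ} {K : Fin τ → V → Prop} {Prot : V → Prop}

theorem getVert_step {H : SimpleGraph V} {x y : V} (p : H.Walk x y) (t : ℕ) :
    Step H (p.getVert t) (p.getVert (t + 1)) := by
  by_cases ht : t < p.length
  · exact Or.inr (p.adj_getVert_succ ht)
  · refine Or.inl ?_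
    rw [p.getVert_of_length_le (by omega), p.getVert_of_length_le (by omega)]

/-- **The strategy.** One cop on every base (of the layer of the base), one cop on every vertex of the
set `P` of protecting cops, and `M` reserve cops. -/
theorem core_win [Fintype V] (hτ : 0 < τ) (hR : Roots C G h par dep K) (hh : 1 ≤ h)
    (hconn : ∀ i, (C i).Connected)
    (hg : ∀ (x : V) (c : G.Walk x x), c.IsCycle → 2 * (3 * h) < c.length)
    (P : Fin τ × V → Prop) (hP : ∀ x, Prot x ↔ ∃ p, P p ∧ Step (C p.1) p.2 x)
    (hB : ∀ x y, R.Adj x y → ¬ Prot x → G.Adj x y) (M : ℕ)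
    (hM : ∀ v, ¬ Prot v → ∃ e : Fin M → V, ∀ (x : V) (q : G.Walk x v),
      FreeL h par K Prot q.support → ∃ r, e r = x) :
    MultiWin C R (Nat.card {p : Fin τ × V // K p.1 p.2} + (Nat.card {p : Fin τ × V // P p} + M)) := by
  classical
  have hne : Nonempty V := (hconn ⟨0, hτ⟩).nonempty
  let w0 : V := Classical.arbitrary V
  let l : {p : Fin τ × V // K p.1 p.2} ⊕ ({p : Fin τ × V // P p} ⊕ Fin M) → Fin τ :=
    Sum.elim (fun p => p.1.1) (Sum.elim (fun p => p.1.1) (fun _ => ⟨0, hτ⟩))
  let st : {p : Fin τ × V // K p.1 p.2} ⊕ ({p : Fin τ × V // P p} ⊕ Fin M) → V :=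
    Sum.elim (fun p => p.1.2) (Sum.elim (fun p => p.1.2) (fun _ => w0))
  have hcard : Nat.card {p : Fin τ × V // K p.1 p.2} + (Nat.card {p : Fin τ × V // P p} + M) =
      Fintype.card ({p : Fin τ × V // K p.1 p.2} ⊕ ({p : Fin τ × V // P p} ⊕ Fin M)) := by
    rw [Fintype.card_sum, Fintype.card_sum, Nat.card_eq_fintype_card, Nat.card_eq_fintype_card,
      Fintype.card_fin]
  rw [hcard]
  refine multiWin_of_fintype C R l st fun v => ?_
  by_cases hv : Prot v
  · -- the robber starts next to a protecting cop
    obtain ⟨p, hp1, hp2⟩ := (hP v).1 hv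
    refine ⟨1, ?_⟩
    exact catch_of_schedule C R l (fun _ => st) (fun _ _ => Or.inl rfl) (fun _ _ => False) 0
      (fun _ h => h.elim) (fun _ _ _ h => h.elim)
      (Or.inr ⟨Sum.inr (Sum.inl ⟨p, hp1⟩), hp2⟩)
  · obtain ⟨e, he⟩ := hM v hv
    -- the paths of the cops
    have hpath : ∀ c, ∃ (w : V) (p : (C (l c)).Walk (st c) w),
        (∀ i k hk, c = Sum.inl ⟨(i, k), hk⟩ → ∀ z, Asg C G h par K Prot v z i k →
          w = z ∧ p.length < h) ∧
        (∀ p', c = Sum.inr (Sum.inl p') → ∀ t, p.getVert t = st c) ∧
        (∀ r, c = Sum.inr (Sum.inr r) → w = e r) := by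
      rintro (⟨⟨i, k⟩, hk⟩ | p' | r)
      · by_cases hz : ∃ z, Asg C G h par K Prot v z i k
        · obtain ⟨z, hz⟩ := hz
          obtain ⟨p, hp⟩ := hz.1
          refine ⟨z, p, ?_, ?_, ?_⟩
          · intro i' k' hk' heq z' hz'
            have h1 := Sum.inl.inj heq
            have h2 : ((i, k) : Fin τ × V) = (i', k') := congrArg Subtype.val h1
            obtain ⟨h3, h4⟩ := Prod.mk.inj h2
            subst h3 h4
            exact ⟨asg_inj hg hz hz', hp⟩
          · intro p' h; cases h
          · intro r h; cases h
        · refine ⟨k, SimpleGraph.Walk.nil, ?_, ?_, ?_⟩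
          · intro i' k' hk' heq z' hz'
            have h1 := Sum.inl.inj heq
            have h2 : ((i, k) : Fin τ × V) = (i', k') := congrArg Subtype.val h1
            obtain ⟨h3, h4⟩ := Prod.mk.inj h2
            subst h3 h4
            exact absurd ⟨z', hz'⟩ hz
          · intro p' h; cases h
          · intro r h; cases h
      · refine ⟨st (Sum.inr (Sum.inl p')), SimpleGraph.Walk.nil, ?_, ?_, ?_⟩
        · intro i' k' hk' heq; cases heq
        · intro _ _ t
          exact SimpleGraph.Walk.getVert_nil _
        · intro r h; cases h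
      · obtain ⟨p⟩ := (hconn ⟨0, hτ⟩).preconnected w0 (e r)
        refine ⟨e r, p, ?_, ?_, ?_⟩
        · intro i' k' hk' heq; cases heq
        · intro _ h; cases h
        · intro r' h
          have := Sum.inr.inj (Sum.inr.inj h)
          rw [this]
    choose w p hp1 hp2 hp3 using hpath
    set m := Finset.univ.sup (fun c => (p c).length) with hm
    have hpm : ∀ c, (p c).length ≤ m := fun c => Finset.le_sup (f := fun c => (p c).length)
      (Finset.mem_univ c)
    have h0 : (fun c => (p c).getVert 0) = st := by
      funext c; exact (p c).getVert_zero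
    refine ⟨m + 1, ?_⟩
    rw [← h0]
    refine catch_of_schedule C R l (fun t c => (p c).getVert t) (fun t c => getVert_step (p c) t)
      (fun t x => ∃ q : G.Walk x v, NB q ∧ FreeL h par K Prot q.support ∧ q.length ≤ t) m ?_ ?_ ?_
    · rintro x ⟨q, -, hq, -⟩
      obtain ⟨r, hr⟩ := he x q hq
      refine ⟨Sum.inr (Sum.inr r), ?_⟩
      rw [(p _).getVert_of_length_le (hpm _), hp3 _ r rfl, hr]
    · rintro t x x' ⟨q, hq1, hq2, hq3⟩ hxx
      rcases hxx with rfl | hxx
      · exact Or.inl ⟨q, hq1, hq2, by omega⟩
      · have hx : ¬ Prot x := by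
          cases q with
          | nil => exact hv
          | cons h' q' =>
            cases q' with
            | nil => exact hq2.2.1
            | cons _ _ => exact hq2.2.1
        have hG := hB x x' hxx hx
        by_cases hx' : Prot x'
        · right
          obtain ⟨p', h1, h2⟩ := (hP x').1 hx'
          refine ⟨Sum.inr (Sum.inl ⟨p', h1⟩), ?_⟩
          rw [hp2 _ ⟨p', h1⟩ rfl]
          exact h2
        · by_cases hback : NotSnd x' q
          · have hnb : NB (SimpleGraph.Walk.cons hG.symm q) := nb_cons _ q hq1 hback
            obtain ⟨l0, hl0⟩ : ∃ l0, q.support = x :: l0 := by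
              cases q with
              | nil => exact ⟨[], rfl⟩
              | cons _ q => exact ⟨q.support, rfl⟩
            have hlen : q.length = l0.length := by
              have := q.length_support
              rw [hl0, List.length_cons] at this
              omega
            by_cases hex : h ≤ q.length + 1 ∧ ∃ j, K j x' ∨ par j x' ≠ x
            · right
              obtain ⟨i, k, hk, hasg⟩ := exists_asg hR hh hG.symm q hnb hq2 hex.1 hex.2
              refine ⟨Sum.inl ⟨(i, k), hk⟩, ?_⟩
              obtain ⟨h1, h2⟩ := hp1 (Sum.inl ⟨(i, k), hk⟩) i k hk rfl x' hasg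
              rw [(p _).getVert_of_length_le (by omega), h1]
              exact Or.inl rfl
            · left
              refine ⟨SimpleGraph.Walk.cons hG.symm q, hnb, ?_, ?_⟩
              · rw [SimpleGraph.Walk.support_cons, hl0]
                refine ⟨by rw [← hl0]; exact hq2, hx', fun hle j => ?_⟩
                push Not at hex
                exact hex (by omega) j
              · rw [SimpleGraph.Walk.length_cons]; omega
          · left
            unfold NotSnd at hback
            push Not at hback
            obtain ⟨l0, hl0⟩ := hback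
            cases q with
            | nil => simp at hl0
            | cons h' q' =>
              rename_i y
              have hy : y = x' := by
                rw [SimpleGraph.Walk.support_cons] at hl0
                have h7 := (List.cons.inj hl0).2
                cases q' with
                | nil => simpa using (List.cons.inj h7).1
                | cons _ _ => simpa using (List.cons.inj h7).1
              subst hy
              refine ⟨q', nb_tail h' q' hq1, ?_, ?_⟩
              · rw [SimpleGraph.Walk.support_cons] at hq2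
                exact freeL_tail hq2
              · rw [SimpleGraph.Walk.length_cons] at hq3; omega
    · refine Or.inl ⟨SimpleGraph.Walk.nil, nb_nil v, ?_, le_rfl⟩
      simp [FreeL]

/-- the vertices that can be reached from `v` by `n` steps in `G`, through unprotected vertices -/
theorem card_reach [Fintype V] [DecidableEq V] {Δ : ℕ}
    (hΔ : ∀ x, ¬ Prot x → ∀ S : Finset V, (∀ y ∈ S, G.Adj y x) → S.card ≤ Δ) (v : V)
    (hv : ¬ Prot v) : ∀ n : ℕ, ∃ S : Finset V, S.card ≤ (Δ + 1) ^ n ∧
      ∀ (x : V) (q : G.Walk x v), FreeL h par K Prot q.support → q.length ≤ n → x ∈ S := by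
  classical
  intro n
  induction n with
  | zero =>
    refine ⟨{v}, by simp, fun x q _ hq => ?_⟩
    cases q with
    | nil => simp
    | cons _ _ => simp at hq
  | succ n ih =>
    obtain ⟨S, hS1, hS2⟩ := ih
    refine ⟨S ∪ S.biUnion (fun y => if Prot y then ∅ else univ.filter fun x => G.Adj x y), ?_, ?_⟩
    · have h1 : (S.biUnion (fun y => if Prot y then ∅ else univ.filter fun x => G.Adj x y)).card ≤
          S.card * Δ := by
        refine Finset.card_biUnion_le_card_mul _ _ _ fun y _ => ?_
        split_ifs with hy
        · simp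
        · exact hΔ y hy _ (by simp)
      calc (S ∪ S.biUnion (fun y => if Prot y then ∅ else univ.filter fun x => G.Adj x y)).card
          ≤ S.card + S.card * Δ := (Finset.card_union_le _ _).trans (Nat.add_le_add_left h1 _)
        _ = (Δ + 1) * S.card := by ring
        _ ≤ (Δ + 1) * (Δ + 1) ^ n := Nat.mul_le_mul_left _ hS1
        _ = (Δ + 1) ^ (n + 1) := by ring
    · intro x q hf hq
      cases q with
      | nil => exact Finset.mem_union_left _ (hS2 _ SimpleGraph.Walk.nil (by simp [FreeL]) (by simp))
      | cons h' q' =>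
        rename_i y
        rw [SimpleGraph.Walk.support_cons] at hf
        rw [SimpleGraph.Walk.length_cons] at hq
        have h2 := hS2 y q' (freeL_tail hf) (by omega)
        refine Finset.mem_union_right _ (Finset.mem_biUnion.2 ⟨y, h2, ?_⟩)
        have hy : ¬ Prot y := by
          cases q' with
          | nil => exact hv
          | cons _ q'' =>
            cases q'' with
            | nil => exact hf.1.2.1
            | cons _ _ => exact hf.1.2.1
        rw [if_neg hy]
        simpa using h'

theorem exists_reserve [Fintype V] [Nonempty V] {Δ M : ℕ} (hτ : 0 < τ)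
    (hR : Roots C G h par dep K) (hh : 1 ≤ h)
    (hΔ : ∀ x, ¬ Prot x → ∀ S : Finset V, (∀ y ∈ S, G.Adj y x) → S.card ≤ Δ)
    (hM : (Δ + 1) ^ (2 * h) ≤ M) (v : V) (hv : ¬ Prot v) :
    ∃ e : Fin M → V, ∀ (x : V) (q : G.Walk x v), FreeL h par K Prot q.support → ∃ r, e r = x := by
  classical
  obtain ⟨S, hS1, hS2⟩ := card_reach (h := h) (par := par) (K := K) (G := G) hΔ v hv (2 * h)
  refine ⟨fun r => if hr : r.val < S.card then (S.equivFin.symm ⟨r.val, hr⟩ : V) else
    Classical.arbitrary V, fun x q hq => ?_⟩
  have h1 := freeL_short hR hh ⟨0, hτ⟩ hq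
  rw [SimpleGraph.Walk.length_support] at h1
  have h2 := hS2 x q hq (by omega)
  refine ⟨⟨(S.equivFin ⟨x, h2⟩).val, ?_⟩, ?_⟩
  · exact lt_of_lt_of_le (S.equivFin ⟨x, h2⟩).isLt (hS1.trans hM)
  · simp

end

end Pool.Agent.H85.ML
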